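import Pool.Agent.Lib.H68S.BDefs

open MeasureTheory Set Matrix

namespace Pool.Agent.Lib.H68S


theorem b02_mem (x : SO3) : x.1 * x.1.transpose = 1 ∧ x.1.transpose * x.1 = 1 ∧ x.1.det = 1 := by
  have h := (Matrix.mem_specialOrthogonalGroup_iff).1 x.2
  refine ⟨?_, ?_, h.2⟩
  · exact (Matrix.mem_orthogonalGroup_iff _ _).1 h.1
  · exact (Matrix.mem_orthogonalGroup_iff' _ _).1 h.1

theorem b02_inv (x : SO3) : (x⁻¹).1 = x.1.transpose := by
  have h : (x⁻¹).1 = star x.1 := rfl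
  rw [h, Matrix.star_eq_conjTranspose, Matrix.conjTranspose_eq_transpose_of_trivial]

theorem b02_circle {a c : ℝ} (h : a * a + c * c = 1) : ∃ w : Circle, (w : ℂ).re = a ∧ (w : ℂ).im = c := by
  have h1 : ‖(⟨a, c⟩ : ℂ)‖ = 1 := by
    have h2 : ‖(⟨a, c⟩ : ℂ)‖ ^ 2 = 1 := by
      rw [← Complex.normSq_eq_norm_sq, Complex.normSq_apply]
      exact h
    exact (pow_eq_one_iff_of_nonneg (norm_nonneg _) two_ne_zero).1 h2
  exact ⟨⟨⟨a, c⟩, mem_sphere_zero_iff_norm.2 h1⟩, rfl, rfl⟩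

/-- A rotation of height one is a rotation about the third axis.

Proof. Let `A = y.1`, an orthogonal matrix of determinant one with `A 2 2 = 1`. Row `2` and column
`2` of `A` have square sum one, so `A 2 0 = A 2 1 = A 0 2 = A 1 2 = 0`. With `a = A 0 0`,
`b = A 0 1`, `c = A 1 0`, `d = A 1 1` we have `a^2 + b^2 = 1`, `c^2 + d^2 = 1`, `a c + b d = 0`,
`a^2 + c^2 = 1` and `a d - b c = 1` (determinant). So `d = a` and `b = -c`:
`d = d (a^2 + c^2) = a (a d) + c (c d)`, and so on (`nlinarith`, or `linear_combination`).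
Take `w = a + c i` in `Circle` (norm one as `a^2 + c^2 = 1`). -/
theorem eq_kz {y : SO3} (h : c3 y = 1) : ∃ w : Circle, y = kz w := by
  obtain ⟨h1, h2, h3⟩ := b02_mem y
  have h22 : y.1 2 2 = 1 := h
  have r2 := congrFun (congrFun h1 2) 2
  have r0 := congrFun (congrFun h1 0) 0
  have k2 := congrFun (congrFun h2 2) 2
  have k0 := congrFun (congrFun h2 0) 0
  have k01 := congrFun (congrFun h2 0) 1
  simp only [Matrix.mul_apply, Matrix.transpose_apply, Fin.sum_univ_three, Matrix.one_apply] at r2 r0 k2 k0 k01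
  norm_num at r2 r0 k2 k0 k01
  rw [Matrix.det_fin_three] at h3
  rw [h22] at r2 k2 h3
  have e20 : y.1 2 0 = 0 := by nlinarith [sq_nonneg (y.1 2 0), sq_nonneg (y.1 2 1)]
  have e21 : y.1 2 1 = 0 := by nlinarith [sq_nonneg (y.1 2 0), sq_nonneg (y.1 2 1)]
  have e02 : y.1 0 2 = 0 := by nlinarith [sq_nonneg (y.1 0 2), sq_nonneg (y.1 1 2)]
  have e12 : y.1 1 2 = 0 := by nlinarith [sq_nonneg (y.1 0 2), sq_nonneg (y.1 1 2)]
  rw [e20, e21, e02, e12] at h3
  rw [e20] at k0 k01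
  rw [e02] at r0
  have hd : y.1 1 1 = y.1 0 0 := by
    linear_combination (-y.1 1 1) * k0 + y.1 0 0 * h3 + y.1 1 0 * k01
  have hb : y.1 0 1 = -y.1 1 0 := by
    linear_combination (-y.1 0 1) * k0 - y.1 1 0 * h3 + y.1 0 0 * k01
  obtain ⟨w, hw1, hw2⟩ := b02_circle (a := y.1 0 0) (c := y.1 1 0) (by linarith)
  refine ⟨w, Subtype.ext ?_⟩
  rw [kz_val]
  ext i j
  fin_cases i <;> fin_cases j <;> simp [kzM, hw1, hw2, e20, e21, e02, e12, h22, hd, hb]

/-- Euler angles.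

Proof. Let `A = x.1`, `t = arccos (A 2 2)`, so `cos t = A 2 2` (`|A 2 2| ≤ 1`),
`sin t = √(1 - (A 2 2)^2) ≥ 0` and `(A 0 2)^2 + (A 1 2)^2 = (sin t)^2` (the last column is a unit
vector). If `sin t ≠ 0` let `z = -(A 1 2)/sin t + i (A 0 2)/sin t` in `Circle`, otherwise `z = 1`.
The last column of `kz z * ax t` is `(z.im sin t, -z.re sin t, cos t)`, which is the last column of
`x`. So `y = (kz z * ax t)⁻¹ * x` has last entry `⟨last column of x, last column of x⟩ = 1`, that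
is `c3 y = 1` (the inverse is the transpose), and `y = kz w` by `eq_kz`. -/
theorem kak (x : SO3) :
    ∃ (z w : Circle) (t : ℝ), 0 ≤ t ∧ t ≤ Real.pi ∧ x = kz z * ax t * kz w := by
  obtain ⟨h1, h2, h3⟩ := b02_mem x
  have k2 := congrFun (congrFun h2 2) 2
  simp only [Matrix.mul_apply, Matrix.transpose_apply, Fin.sum_univ_three, Matrix.one_apply] at k2
  norm_num at k2
  have hle : -1 ≤ x.1 2 2 ∧ x.1 2 2 ≤ 1 := by
    constructor <;> nlinarith [sq_nonneg (x.1 0 2), sq_nonneg (x.1 1 2)]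
  obtain ⟨t, ht⟩ : ∃ t, t = Real.arccos (x.1 2 2) := ⟨_, rfl⟩
  have hcos : Real.cos t = x.1 2 2 := by rw [ht, Real.cos_arccos hle.1 hle.2]
  have hsc := Real.sin_sq_add_cos_sq t
  have hs2 : x.1 0 2 * x.1 0 2 + x.1 1 2 * x.1 1 2 = Real.sin t ^ 2 := by
    rw [← hcos] at k2
    linarith
  obtain ⟨z, hz1, hz2⟩ : ∃ z : Circle, (z : ℂ).im * Real.sin t = x.1 0 2 ∧ -(z : ℂ).re * Real.sin t = x.1 1 2 := by
    by_cases hs : Real.sin t = 0
    · refine ⟨1, ?_, ?_⟩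
      · rw [hs]
        rw [hs] at hs2
        nlinarith [sq_nonneg (x.1 0 2), sq_nonneg (x.1 1 2)]
      · rw [hs]
        rw [hs] at hs2
        nlinarith [sq_nonneg (x.1 0 2), sq_nonneg (x.1 1 2)]
    · obtain ⟨z, hz1, hz2⟩ := b02_circle (a := -(x.1 1 2) / Real.sin t) (c := x.1 0 2 / Real.sin t) (by
        field_simp
        linarith)
      refine ⟨z, ?_, ?_⟩
      · rw [hz2, div_mul_cancel₀ _ hs]
      · rw [hz1]
        field_simp
  have hy : c3 ((kz z * ax t)⁻¹ * x) = 1 := by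
    show (((kz z * ax t)⁻¹).1 * x.1) 2 2 = 1
    rw [b02_inv]
    have e : (kz z * ax t).1 = kzM z * axM t := rfl
    rw [e]
    simp only [Matrix.mul_apply, Matrix.transpose_apply, Fin.sum_univ_three]
    have c0 : kzM z 0 0 * axM t 0 2 + kzM z 0 1 * axM t 1 2 + kzM z 0 2 * axM t 2 2 = x.1 0 2 := by
      rw [← hz1]
      simp [kzM, axM]
    have c1 : kzM z 1 0 * axM t 0 2 + kzM z 1 1 * axM t 1 2 + kzM z 1 2 * axM t 2 2 = x.1 1 2 := by
      rw [← hz2]
      simp [kzM, axM]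
    have c2 : kzM z 2 0 * axM t 0 2 + kzM z 2 1 * axM t 1 2 + kzM z 2 2 * axM t 2 2 = x.1 2 2 := by
      rw [← hcos]
      simp [kzM, axM]
    rw [c0, c1, c2]
    linarith
  obtain ⟨w, hw⟩ := eq_kz hy
  refine ⟨z, w, t, ?_, ?_, ?_⟩
  · rw [ht]
    exact Real.arccos_nonneg _
  · rw [ht]
    exact Real.arccos_le_pi _
  · rw [← hw, mul_inv_cancel_left]

end Pool.Agent.Lib.H68S
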