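import Pool.Agent.Lib.H68S.B01
import Pool.Agent.Lib.H68S.B02

open MeasureTheory Set Matrix

namespace Pool.Agent.Lib.H68S


/-- Proof. The map `(z, t, w) ↦ kz z * ax t * kz w` from the connected space `Circle × ℝ × Circle`
is continuous (`continuous_kz`, `continuous_ax`) and surjective (`kak`):
`Function.Surjective.connectedSpace`, or `isConnected_range`. -/
instance instConnSO3 : ConnectedSpace SO3 := by
  have hc : Continuous fun q : Circle × ℝ × Circle => kz q.1 * ax q.2.1 * kz q.2.2 :=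
    ((continuous_kz.comp continuous_fst).mul (continuous_ax.comp (continuous_fst.comp continuous_snd))).mul
      (continuous_kz.comp (continuous_snd.comp continuous_snd))
  have hs : Function.Surjective fun q : Circle × ℝ × Circle => kz q.1 * ax q.2.1 * kz q.2.2 := by
    intro x
    obtain ⟨z, w, t, -, -, hx⟩ := kak x
    exact ⟨(z, t, w), hx.symm⟩
  exact hs.connectedSpace hc

/-- Proof. `x = kz z * ax t * kz w` with `0 ≤ t ≤ π` (`kak`), `γ s = kz z * ax (s * t)`:
`γ 0 = kz z` (`ax_zero`), `γ 1 = x * kz w⁻¹`, `c3 (γ s) = cos (s * t)`, and if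
`cos t = c3 x ≥ 0` then `t ≤ π/2` (otherwise `cos t < 0`: `Real.cos_neg_of_pi_div_two_lt_of_lt`),
so `0 ≤ s t ≤ π/2` and `cos (s t) ≥ 0`. -/
theorem path3 (x : SO3) : ∃ γ : ℝ → SO3, Continuous γ ∧ (∃ t, γ 0 = kz t) ∧
    (∃ t, γ 1 = x * kz t) ∧ (0 ≤ c3 x → ∀ s ∈ Icc (0 : ℝ) 1, 0 ≤ c3 (γ s)) := by
  obtain ⟨z, w, t, h1, h2, hx⟩ := kak x
  refine ⟨fun s => kz z * ax (s * t), continuous_const.mul (continuous_ax.comp (continuous_id.mul continuous_const)),
    ⟨z, ?_⟩, ⟨w⁻¹, ?_⟩, ?_⟩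
  · simp only [zero_mul, ax_zero, mul_one]
  · simp only [one_mul]
    rw [hx, map_inv]
    group
  · intro hc s hs
    have e1 : c3 x = Real.cos t := by rw [hx, c3_mul_kz, c3_kz_mul, c3_ax]
    rw [e1] at hc
    have ht : t ≤ Real.pi / 2 := by
      by_contra hcon
      have h3 := Real.cos_neg_of_pi_div_two_lt_of_lt (not_le.1 hcon) (by linarith [Real.pi_pos] : t < Real.pi + Real.pi / 2)
      linarith
    show 0 ≤ c3 (kz z * ax (s * t))
    rw [c3_kz_mul, c3_ax]
    have h4 : 0 ≤ s * t := mul_nonneg hs.1 h1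
    have h5 : s * t ≤ t := by nlinarith [hs.2]
    exact Real.cos_nonneg_of_neg_pi_div_two_le_of_le (by linarith [Real.pi_pos]) (by linarith)

end Pool.Agent.Lib.H68S
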