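import Pool.Agent.Lib.H68S.BDefs

open MeasureTheory Set Matrix

namespace Pool.Agent.Lib.H68S

theorem b01_inv (x : SO3) : (x⁻¹).1 = x.1.transpose := by
  have h : (x⁻¹).1 = star x.1 := rfl
  rw [h, Matrix.star_eq_conjTranspose, Matrix.conjTranspose_eq_transpose_of_trivial]

/-- Proof. Multiplication is continuous (`Submonoid.continuousMul`, found by instance search). The
inverse in `Matrix.specialOrthogonalGroup` is `star`, that is the (conjugate) transpose of the
matrix, which is continuous (`Continuous.subtype_mk`, `Continuous.matrix_transpose`, or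
`continuous_star`); the underlying matrix of `x⁻¹` is `star x.1` by `rfl` (or
`Matrix.UnitaryGroup` lemmas). -/
instance instTopSO3 : IsTopologicalGroup SO3 where
  continuous_mul := continuous_mul
  continuous_inv := by
    refine continuous_induced_rng.2 ?_
    have h : (Subtype.val ∘ fun x : SO3 => x⁻¹) = fun x : SO3 => x.1.transpose := by
      funext x
      exact b01_inv x
    rw [h]
    exact continuous_subtype_val.matrix_transpose

theorem b01_set : ((Matrix.specialOrthogonalGroup (Fin 3) ℝ : Submonoid (Matrix (Fin 3) (Fin 3) ℝ)) :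
    Set (Matrix (Fin 3) (Fin 3) ℝ)) = {A | A * A.transpose = 1 ∧ A.det = 1} := by
  ext A
  rw [SetLike.mem_coe, Matrix.mem_specialOrthogonalGroup_iff, Matrix.mem_orthogonalGroup_iff]
  rfl

/-- Proof. The set of matrices `A` with `A * star A = 1` and `det A = 1` is closed (continuity) and
bounded: the entries are at most `1` in absolute value (`(A * star A) i i = ∑ j, A i j ^ 2 = 1`, or
`Matrix.entry_norm_bound_of_unitary`), so it is a closed subset of the compact product
`Set.pi univ (fun _ => Set.pi univ fun _ => Icc (-1) 1)` of `Fin 3 → Fin 3 → ℝ`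
(`isCompact_univ_pi`). Then `isCompact_iff_compactSpace`. -/
instance instCompactSO3 : CompactSpace SO3 := by
  have hclosed : IsClosed {A : Matrix (Fin 3) (Fin 3) ℝ | A * A.transpose = 1 ∧ A.det = 1} := by
    refine IsClosed.inter ?_ ?_
    · exact isClosed_eq (continuous_id.matrix_mul continuous_id.matrix_transpose) continuous_const
    · exact isClosed_eq continuous_id.matrix_det continuous_const
  have hK : IsCompact (Set.pi univ (fun _ : Fin 3 => Set.pi univ fun _ : Fin 3 => Icc (-1 : ℝ) 1)) :=
    isCompact_univ_pi fun _ => isCompact_univ_pi fun _ => isCompact_Icc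
  have hsub : {A : Matrix (Fin 3) (Fin 3) ℝ | A * A.transpose = 1 ∧ A.det = 1} ⊆
      (Set.pi univ (fun _ : Fin 3 => Set.pi univ fun _ : Fin 3 => Icc (-1 : ℝ) 1)) := by
    rintro A ⟨hA, -⟩ i - j -
    have h1 : ∑ l, A i l * A i l = 1 := by
      have h2 := congrFun (congrFun hA i) i
      rw [Matrix.mul_apply, Matrix.one_apply_eq] at h2
      exact h2
    have h3 : A i j * A i j ≤ ∑ l, A i l * A i l :=
      Finset.single_le_sum (f := fun l => A i l * A i l) (fun l _ => mul_self_nonneg _) (Finset.mem_univ j)
    rw [h1] at h3
    constructor <;> nlinarith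
  have hc : IsCompact {A : Matrix (Fin 3) (Fin 3) ℝ | A * A.transpose = 1 ∧ A.det = 1} :=
    IsCompact.of_isClosed_subset hK hclosed hsub
  rw [← b01_set] at hc
  exact isCompact_iff_compactSpace.1 hc

/-- Proof. A subspace of the second countable space `Fin 3 → Fin 3 → ℝ` (unfold `Matrix`;
`inferInstanceAs`, `TopologicalSpace.Subtype.secondCountableTopology`). -/
instance instSecondSO3 : SecondCountableTopology SO3 := by
  have : SecondCountableTopology (Matrix (Fin 3) (Fin 3) ℝ) :=
    inferInstanceAs (SecondCountableTopology (Fin 3 → Fin 3 → ℝ))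
  exact TopologicalSpace.Subtype.secondCountableTopology _

end Pool.Agent.Lib.H68S
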