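import Pool.Agent.Lib.H68S.Defs

open MeasureTheory Set
open scoped Pointwise

namespace Pool.Agent.Lib.H68S

variable {G : Type*} [Group G] [TopologicalSpace G] [IsTopologicalGroup G] [CompactSpace G]
  [T2Space G] [SecondCountableTopology G] [MeasurableSpace G] [BorelSpace G]
  (μ : Measure G) [μ.IsHaarMeasure] [IsProbabilityMeasure μ]

omit [IsTopologicalGroup G] [CompactSpace G] [T2Space G] [SecondCountableTopology G] [BorelSpace G]
  [μ.IsHaarMeasure] [IsProbabilityMeasure μ] in
/-- Overlap at one. Proof: unfold `ov`, `inv_one`, `one_mul`, `and_self`. -/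
theorem ov_one (S : Set G) : ov μ S 1 = μ.real S := by
  unfold ov
  simp


omit [IsTopologicalGroup G] [CompactSpace G] [T2Space G] [SecondCountableTopology G] [BorelSpace G]
  [μ.IsHaarMeasure] [IsProbabilityMeasure μ] in
/-- Proof: `measureReal_nonneg`. -/
theorem ov_nonneg (S : Set G) (g : G) : 0 ≤ ov μ S g := by
  exact measureReal_nonneg


omit [IsTopologicalGroup G] [CompactSpace G] [T2Space G] [SecondCountableTopology G] [BorelSpace G]
  [μ.IsHaarMeasure] in
/-- Proof: `measureReal_mono` (the set is contained in `S`). -/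
theorem ov_le (S : Set G) (g : G) : ov μ S g ≤ μ.real S := by
  exact measureReal_mono (fun y hy => hy.2)


/-- Proof. `{y | g * y ∈ S ∧ y ∈ S}` is the preimage of `{z | g⁻¹ * z ∈ S ∧ z ∈ S}` under the
measure preserving map `y ↦ g * y` (`measure_preimage_mul`): `g⁻¹ * (g * y) = y`. -/
theorem ov_inv (S : Set G) (g : G) : ov μ S g⁻¹ = ov μ S g := by
  have h := measure_preimage_mul μ g {z | g⁻¹ * z ∈ S ∧ z ∈ S}
  unfold ov Measure.real
  rw [← h]
  congr 2
  ext y
  simp only [inv_inv, mem_setOf_eq, mem_preimage, inv_mul_cancel_left]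
  exact and_comm


/-- The overlap is a continuous function.

Proof. With `f g : C(G, G)`, `f g y = g⁻¹ * y` (continuous in `g` as a map into `C(G, G)`:
`ContinuousMap.curry`, or `ContinuousMap.continuous_of_continuous_uncurry`), Mathlib has
`tendsto_measure_symmDiff_preimage_nhds_zero`: `μ (symmDiff (f g ⁻¹' S) (f g₀ ⁻¹' S)) → 0` as
`g → g₀` (the maps are measure preserving; Haar measures on compact groups are regular, the
instances are in Mathlib). Finally `|ov μ S g - ov μ S g₀| ≤ μ.real (symmDiff ..)`, because the two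
sets `f g ⁻¹' S ∩ S` and `f g₀ ⁻¹' S ∩ S` differ only inside the symmetric difference. -/
theorem ov_cont {S : Set G} (hS : IsOpen S) : Continuous (ov μ S) := by
  let f : G → C(G, G) := fun g => ⟨fun y => g⁻¹ * y, by fun_prop⟩
  have hf : Continuous f := ContinuousMap.continuous_of_continuous_uncurry _ (by
    change Continuous fun p : G × G => p.1⁻¹ * p.2
    fun_prop)
  have hmp : ∀ g, MeasurePreserving (f g) μ μ := fun g => measurePreserving_mul_left μ g⁻¹
  refine continuous_iff_continuousAt.2 fun g₀ => ?_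
  have h := tendsto_measure_symmDiff_preimage_nhds_zero (μ := μ) (ν := μ) (l := nhds g₀) (f := f) (g := f g₀) (s := S)
    (hf.tendsto g₀) (Filter.Eventually.of_forall hmp) (hmp g₀) hS.measurableSet.nullMeasurableSet (measure_ne_top _ _)
  have h1 := (ENNReal.tendsto_toReal ENNReal.zero_ne_top).comp h
  rw [ENNReal.toReal_zero] at h1
  have h2 : ∀ g, ‖ov μ S g - ov μ S g₀‖ ≤ μ.real (symmDiff (f g ⁻¹' S) (f g₀ ⁻¹' S)) := by
    intro g
    rw [Real.norm_eq_abs]
    have hm : ∀ g, MeasurableSet (f g ⁻¹' S ∩ S) := fun g => ((hS.preimage (f g).continuous).inter hS).measurableSet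
    have h3 := abs_measureReal_sub_le_measureReal_symmDiff (μ := μ) (hm g).nullMeasurableSet (hm g₀).nullMeasurableSet
    refine h3.trans (measureReal_mono ?_)
    intro y hy
    simp only [mem_symmDiff, mem_inter_iff] at hy ⊢
    tauto
  change Filter.Tendsto (ov μ S) (nhds g₀) (nhds (ov μ S g₀))
  rw [tendsto_iff_norm_sub_tendsto_zero]
  exact squeeze_zero (fun g => norm_nonneg _) h2 h1


end Pool.Agent.Lib.H68S
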