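import Pool.Agent.Lib.H68S.Defs

open MeasureTheory Set
open scoped Pointwise

namespace Pool.Agent.Lib.H68S

variable {G : Type*} [Group G] [TopologicalSpace G] [IsTopologicalGroup G] [CompactSpace G]
  [T2Space G] [SecondCountableTopology G] [MeasurableSpace G] [BorelSpace G]
  (μ : Measure G) [μ.IsHaarMeasure] [IsProbabilityMeasure μ]

/-- The mean of the overlap is the square of the measure.

Proof. `ov μ S g = ∫ y, 1_S(g⁻¹ y) 1_S(y) dμ(y)`. Exchange the integrals
(`MeasureTheory.integral_integral_swap` or the `lintegral` version; everything is bounded and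
measurable, the map `(g, y) ↦ g⁻¹ * y` is continuous): for fixed `y` the inner integral is
`μ {g | g⁻¹ * y ∈ S} = μ S`, because `g ↦ g⁻¹ * y` preserves `μ` (`rinv` and `iinv` in `Defs`:
`μ` is right invariant and inversion invariant). The result is `∫ y, 1_S(y) μ(S) = μ(S)^2`. -/
theorem ov_mean {S : Set G} (hS : MeasurableSet S) : ∫ g, ov μ S g ∂μ = (μ.real S) ^ 2 := by
  set R : Set (G × G) := {p | p.1⁻¹ * p.2 ∈ S ∧ p.2 ∈ S} with hR
  have hRm : MeasurableSet R := by
    have h1 : Measurable fun p : G × G => p.1⁻¹ * p.2 := (measurable_fst.inv).mul measurable_snd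
    exact (h1 hS).inter (measurable_snd hS)
  have h1 : ∀ g, ov μ S g = (μ (Prod.mk g ⁻¹' R)).toReal := fun g => rfl
  simp only [h1]
  rw [integral_toReal (measurable_measure_prodMk_left hRm).aemeasurable
    (Filter.Eventually.of_forall fun g => measure_lt_top _ _)]
  rw [← Measure.prod_apply hRm, Measure.prod_apply_symm hRm]
  have h2 : ∀ y, μ ((fun x => (x, y)) ⁻¹' R) = S.indicator (fun _ => μ S) y := by
    intro y
    by_cases hy : y ∈ S
    · rw [indicator_of_mem hy]
      have hmp : MeasurePreserving (fun g : G => g⁻¹ * y) μ μ :=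
        (measurePreserving_mul_right μ y).comp (Measure.measurePreserving_inv μ)
      rw [← hmp.measure_preimage hS.nullMeasurableSet]
      congr 1
      ext g
      simp only [hR, mem_preimage, mem_setOf_eq]
      exact ⟨fun h => h.1, fun h => ⟨h, hy⟩⟩
    · rw [indicator_of_notMem hy]
      have h3 : (fun x => (x, y)) ⁻¹' R = ∅ := by
        ext g
        simp only [hR, mem_preimage, mem_setOf_eq, mem_empty_iff_false, iff_false]
        exact fun h => hy h.2
      rw [h3, measure_empty]
  simp only [h2]
  rw [lintegral_indicator hS, lintegral_const, Measure.restrict_apply_univ, ENNReal.toReal_mul, sq]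
  rfl


end Pool.Agent.Lib.H68S
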