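import Pool.Agent.Lib.H68S.A01
import Pool.Agent.Lib.H68S.A02

open MeasureTheory Set
open scoped Pointwise

namespace Pool.Agent.Lib.H68S

variable {G : Type*} [Group G] [TopologicalSpace G] [IsTopologicalGroup G] [CompactSpace G]
  [T2Space G] [SecondCountableTopology G] [ConnectedSpace G] [MeasurableSpace G] [BorelSpace G]
  (μ : Measure G) [μ.IsHaarMeasure] [IsProbabilityMeasure μ]

/-- Every value between `μ(S)^2` and `μ(S)` is an overlap.

Proof. `ov μ S` is continuous (`ov_cont`) on the connected space `G`, its value at `1` is `μ(S)`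
(`ov_one`), and some value is `≤ μ(S)^2`: otherwise `ov μ S g > μ(S)^2` for all `g`, and the
integral of the continuous positive function `ov μ S g - μ(S)^2` over the probability measure `μ`
(positive on open sets) would be positive, against `ov_mean` (or: a continuous function on the
compact space `G` has a minimum `m`, and `m ≤ ∫ ov = μ(S)^2` by monotonicity of the integral).
Now `mem_range_of_exists_le_of_exists_ge`. -/
theorem ov_ivt {S : Set G} (hS : IsOpen S) {r : ℝ} (h1 : (μ.real S) ^ 2 ≤ r) (h2 : r ≤ μ.real S) :
    ∃ g, ov μ S g = r := by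
  have hc := ov_cont μ hS
  have hint : Integrable (ov μ S) μ := hc.integrable_of_hasCompactSupport (HasCompactSupport.of_compactSpace _)
  obtain ⟨g₀, hg₀⟩ := exists_le_integral hint
  rw [ov_mean μ hS.measurableSet] at hg₀
  exact mem_range_of_exists_le_of_exists_ge hc ⟨g₀, hg₀.trans h1⟩ ⟨1, by rw [ov_one]; exact h2⟩


end Pool.Agent.Lib.H68S
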