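import Pool.Agent.Lib.H68S.Defs

open MeasureTheory Set
open scoped Pointwise

namespace Pool.Agent.Lib.H68S

variable {G : Type*} [Group G] [TopologicalSpace G] [IsTopologicalGroup G] [CompactSpace G]
  [T2Space G] [SecondCountableTopology G] [MeasurableSpace G] [BorelSpace G]
  (μ : Measure G) [μ.IsHaarMeasure] [IsProbabilityMeasure μ]

theorem a04_eq (S N : Set G) (g : G) : {y | g⁻¹ * y ∈ S} * N = {z | g⁻¹ * z ∈ S * N} := by
  ext z
  constructor
  · rintro ⟨y, hy, n, hn, rfl⟩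
    exact ⟨g⁻¹ * y, hy, n, hn, by simp [mul_assoc]⟩
  · rintro ⟨s, hs, n, hn, h⟩
    refine ⟨g * s, by simpa using hs, n, hn, ?_⟩
    have h1 : s * n = g⁻¹ * z := h
    change g * s * n = z
    rw [mul_assoc, h1, mul_inv_cancel_left]

theorem a04_meas (S : Set G) (g : G) : μ.real {y | g⁻¹ * y ∈ S} = μ.real S := by
  have h := measure_preimage_mul μ g⁻¹ S
  unfold Measure.real
  rw [← h]
  rfl

theorem a04_open {S : Set G} (hS : IsOpen S) (g : G) : IsOpen {y | g⁻¹ * y ∈ S} :=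
  hS.preimage (continuous_const.mul continuous_id)

/-- Submodularity.

Proof. Let `S' = {y | g⁻¹ * y ∈ S}` (the translate `gS`). The first set is `(S' ∩ S) * N`, which is
contained in `(S' * N) ∩ (S * N)`, the second is `(S' ∪ S) * N = (S' * N) ∪ (S * N)`. So the left
side is at most `μ((S' * N) ∩ (S * N)) + μ((S' * N) ∪ (S * N)) = μ(S' * N) + μ(S * N)`
(`measureReal_union_add_inter`; the sets are open), and `S' * N = {z | g⁻¹ * z ∈ S * N}` has the
measure of `S * N` (left invariance, `measure_preimage_mul`). -/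
theorem submod {S N : Set G} (hS : IsOpen S) (hN : IsOpen N) (g : G) :
    μ.real ({y | g⁻¹ * y ∈ S ∧ y ∈ S} * N) + μ.real ({y | g⁻¹ * y ∈ S ∨ y ∈ S} * N) ≤
      2 * μ.real (S * N) := by
  have h1 : {y | g⁻¹ * y ∈ S ∧ y ∈ S} * N ⊆ ({y | g⁻¹ * y ∈ S} * N) ∩ (S * N) := by
    rintro z ⟨y, hy, n, hn, rfl⟩
    exact ⟨⟨y, hy.1, n, hn, rfl⟩, ⟨y, hy.2, n, hn, rfl⟩⟩
  have h2 : {y | g⁻¹ * y ∈ S ∨ y ∈ S} * N = ({y | g⁻¹ * y ∈ S} * N) ∪ (S * N) := by
    rw [← union_mul]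
    rfl
  have h3 : IsOpen (S * N) := hS.mul_right
  have h4 := measureReal_union_add_inter (μ := μ) (s := {y | g⁻¹ * y ∈ S} * N) h3.measurableSet
  have h5 : μ.real ({y | g⁻¹ * y ∈ S} * N) = μ.real (S * N) := by
    rw [a04_eq, a04_meas]
  have h6 : μ.real ({y | g⁻¹ * y ∈ S ∧ y ∈ S} * N) ≤ μ.real (({y | g⁻¹ * y ∈ S} * N) ∩ (S * N)) := measureReal_mono h1
  rw [h2]
  linarith


/-- Proof. `measureReal_union_add_inter` and left invariance. -/
theorem meas_or {S : Set G} (hS : IsOpen S) (g : G) :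
    μ.real {y | g⁻¹ * y ∈ S ∨ y ∈ S} = 2 * μ.real S - ov μ S g := by
  have h4 := measureReal_union_add_inter (μ := μ) (s := {y | g⁻¹ * y ∈ S}) hS.measurableSet
  have h5 := a04_meas μ S g
  have h6 : μ.real {y | g⁻¹ * y ∈ S ∨ y ∈ S} = μ.real ({y | g⁻¹ * y ∈ S} ∪ S) := rfl
  have h7 : ov μ S g = μ.real ({y | g⁻¹ * y ∈ S} ∩ S) := rfl
  rw [h6, h7]
  linarith


end Pool.Agent.Lib.H68S
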