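import Pool.Agent.Lib.H68S.Defs

open MeasureTheory Set
open scoped Pointwise

namespace Pool.Agent.Lib.H68S

variable {G : Type*} [Group G] [TopologicalSpace G] [IsTopologicalGroup G] [CompactSpace G]
  [T2Space G] [SecondCountableTopology G] [MeasurableSpace G] [BorelSpace G]
  (μ : Measure G) [μ.IsHaarMeasure] [IsProbabilityMeasure μ]

/-- The pigeonhole principle.

Proof. As `μ(S N) < 1 = μ(G)` there is `y ∉ S * N`. Then `S' = {z | y * z⁻¹ ∈ S}` (that is
`S⁻¹ y`, note `z = s⁻¹ y` iff `y z⁻¹ = s`) and `N` are disjoint: if `z ∈ N` and `y z⁻¹ = s ∈ S`,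
then `y = s z ∈ S * N`. `μ(S') = μ(S)` because `z ↦ y * z⁻¹` preserves `μ` (inversion and left
invariance). So `μ(S) + μ(N) = μ(S' ∪ N) ≤ 1`. -/
theorem pigeon {S N : Set G} (hS : IsOpen S) (hN : IsOpen N) (h : μ.real (S * N) < 1) :
    μ.real S + μ.real N ≤ 1 := by
  obtain ⟨y, hy⟩ : ∃ y, y ∉ S * N := by
    by_contra hcon
    push Not at hcon
    have h1 : S * N = univ := eq_univ_of_forall hcon
    rw [h1, probReal_univ] at h
    exact lt_irrefl _ h
  have hmp : MeasurePreserving (fun z : G => y * z⁻¹) μ μ :=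
    (measurePreserving_mul_left μ y).comp (Measure.measurePreserving_inv μ)
  have h1 : μ.real ((fun z : G => y * z⁻¹) ⁻¹' S) = μ.real S := by
    unfold Measure.real
    rw [hmp.measure_preimage hS.measurableSet.nullMeasurableSet]
  have hd : Disjoint ((fun z : G => y * z⁻¹) ⁻¹' S) N := by
    rw [Set.disjoint_left]
    intro z hz hzN
    exact hy ⟨y * z⁻¹, hz, z, hzN, by simp⟩
  rw [← h1, ← measureReal_union hd hN.measurableSet]
  exact measureReal_le_one


end Pool.Agent.Lib.H68S
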