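import Pool.Agent.Lib.H68S.A05

open MeasureTheory Set
open scoped Pointwise

namespace Pool.Agent.Lib.H68S

variable {G : Type*} [Group G] [TopologicalSpace G] [IsTopologicalGroup G] [CompactSpace G]
  [T2Space G] [SecondCountableTopology G] [MeasurableSpace G] [BorelSpace G]
  (μ : Measure G) [μ.IsHaarMeasure] [IsProbabilityMeasure μ]

omit [T2Space G] [IsTopologicalGroup G] [CompactSpace G] [SecondCountableTopology G] [BorelSpace G] [μ.IsHaarMeasure] [IsProbabilityMeasure μ] in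
theorem a06_bdd (N : Set G) (s : ℝ) : BddBelow {r | ∃ S : Set G, IsOpen S ∧ s ≤ μ.real S ∧ r = μ.real (S * N)} := by
  refine ⟨0, ?_⟩
  rintro r ⟨S, -, -, rfl⟩
  exact measureReal_nonneg

omit [T2Space G] [IsTopologicalGroup G] [CompactSpace G] [SecondCountableTopology G] [BorelSpace G] [μ.IsHaarMeasure] in
theorem a06_mem (N : Set G) {s : ℝ} (h1 : s ≤ 1) :
    μ.real (univ * N) ∈ {r | ∃ S : Set G, IsOpen S ∧ s ≤ μ.real S ∧ r = μ.real (S * N)} :=
  ⟨univ, isOpen_univ, by rwa [probReal_univ], rfl⟩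

/-- Proof. `csInf_le` (the set is bounded below by `0`). -/
theorem phi_le {N S : Set G} (hS : IsOpen S) {s : ℝ} (h : s ≤ μ.real S) :
    phi μ N s ≤ μ.real (S * N) := by
  exact csInf_le (a06_bdd μ N s) ⟨S, hS, h, rfl⟩

/-- Proof. `csInf_le_csInf`: the set for `s'` is contained in the set for `s`, it is nonempty
because `S = univ` has measure `1 ≥ s'`. -/
theorem phi_mono {N : Set G} {s s' : ℝ} (h : s ≤ s') (h' : s' ≤ 1) :
    phi μ N s ≤ phi μ N s' := by
  refine csInf_le_csInf (a06_bdd μ N s) ⟨_, a06_mem μ N h'⟩ ?_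
  rintro r ⟨S, hS, h1, rfl⟩
  exact ⟨S, hS, h.trans h1, rfl⟩

/-- Proof. `le_csInf`: if `μ(S) ≥ s > 0` then `S` contains some `x`, and `S * N` contains the
translate `x • N`, whose measure is `μ(N)`. -/
theorem le_phi (N : Set G) {s : ℝ} (h0 : 0 < s) (h1 : s ≤ 1) :
    μ.real N ≤ phi μ N s := by
  refine le_csInf ⟨_, a06_mem μ N h1⟩ ?_
  rintro r ⟨S, hS, h2, rfl⟩
  have hne : S.Nonempty := by
    rw [nonempty_iff_ne_empty]
    rintro rfl
    rw [measureReal_empty] at h2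
    linarith
  obtain ⟨x, hx⟩ := hne
  have h3 : x • N ⊆ S * N := by
    rintro _ ⟨y, hy, rfl⟩
    exact mul_mem_mul hx hy
  have h4 : μ.real (x • N) = μ.real N := by
    unfold Measure.real
    rw [measure_smul]
  rw [← h4]
  exact measureReal_mono h3

/-- Proof. `S = univ` is allowed, and every measure is at most one. -/
theorem phi_le_one (N : Set G) {s : ℝ} (h1 : s ≤ 1) : phi μ N s ≤ 1 := by
  exact (csInf_le (a06_bdd μ N s) (a06_mem μ N h1)).trans measureReal_le_one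

/-- Proof. `≤` is `phi_le_one`. `≥`: `le_csInf`; if `S` is open with `μ(S) ≥ s > 1 - μ(N)`, then
`μ(S * N) ≥ 1` by `pigeon`. -/
theorem phi_eq_one {N : Set G} (hN : IsOpen N) {s : ℝ} (h : 1 - μ.real N < s)
    (h1 : s ≤ 1) : phi μ N s = 1 := by
  refine le_antisymm (phi_le_one μ N h1) ?_
  refine le_csInf ⟨_, a06_mem μ N h1⟩ ?_
  rintro r ⟨S, hS, h2, rfl⟩
  by_contra hcon
  push Not at hcon
  have h3 := pigeon μ hS hN hcon
  linarith

/-- There are sets which nearly realise the infimum. Proof. `exists_lt_of_csInf_lt`; the set is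
nonempty because `S = univ` is allowed. -/
theorem phi_near (N : Set G) {s : ℝ} (h1 : s ≤ 1) {e : ℝ} (he : 0 < e) :
    ∃ S : Set G, IsOpen S ∧ s ≤ μ.real S ∧ μ.real (S * N) < phi μ N s + e := by
  have h2 : sInf {r | ∃ S : Set G, IsOpen S ∧ s ≤ μ.real S ∧ r = μ.real (S * N)} < phi μ N s + e := by
    show phi μ N s < phi μ N s + e
    linarith
  obtain ⟨r, ⟨S, hS, h3, rfl⟩, h4⟩ := exists_lt_of_csInf_lt ⟨_, a06_mem μ N h1⟩ h2
  exact ⟨S, hS, h3, h4⟩

end Pool.Agent.Lib.H68S
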