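import Pool.Agent.Lib.H68S.A03
import Pool.Agent.Lib.H68S.A04
import Pool.Agent.Lib.H68S.A06

open MeasureTheory Set
open scoped Pointwise

namespace Pool.Agent.Lib.H68S

variable {G : Type*} [Group G] [TopologicalSpace G] [IsTopologicalGroup G] [CompactSpace G]
  [T2Space G] [SecondCountableTopology G] [ConnectedSpace G] [MeasurableSpace G] [BorelSpace G]
  (μ : Measure G) [μ.IsHaarMeasure] [IsProbabilityMeasure μ]

/-- The midpoint inequality (1.4).

Proof. Write `n = μ(N)`. If `phi μ N s = 1` both terms on the left are at most `1` (`phi_le_one`).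
Otherwise `phi μ N s < 1` (`phi_le_one`). It suffices to prove
`phi(s - x) + phi(s + x) ≤ 2 phi(s) + 2 e` for all small `e > 0` (with `phi(s) + e < 1`). Take
(`phi_near`) `S` open with `s' = μ(S) ≥ s` and `μ(S N) < phi(s) + e < 1`. By `pigeon`
`s' + n ≤ 1`, so `s' (1 - s') ≥ s' n ≥ s n ≥ x`, that is `s'^2 ≤ s' - x`; so `ov_ivt` gives `g`
with `ov μ S g = s' - x`. Let `S₁ = {y | g⁻¹ * y ∈ S ∧ y ∈ S}`,
`S₂ = {y | g⁻¹ * y ∈ S ∨ y ∈ S}`: open, `μ(S₁) = s' - x ≥ s - x` (definition of `ov`),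
`μ(S₂) = s' + x ≥ s + x` (`meas_or`). Hence (`phi_le`, `submod`)
`phi(s - x) + phi(s + x) ≤ μ(S₁ N) + μ(S₂ N) ≤ 2 μ(S N) < 2 phi(s) + 2 e`. -/
theorem phi_mid {N : Set G} (hN : IsOpen N) {s x : ℝ} (h0 : 0 < s) (hx0 : 0 ≤ x)
    (hx1 : x ≤ s * μ.real N) (hx2 : s + x ≤ 1) :
    phi μ N (s - x) + phi μ N (s + x) ≤ 2 * phi μ N s := by
  have hs1 : s ≤ 1 := by linarith
  have hle := phi_le_one μ N hs1
  by_cases h1 : phi μ N s = 1
  · have h2 := phi_le_one μ N (s := s - x) (by linarith)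
    have h3 := phi_le_one μ N hx2
    linarith
  have h2 : 0 < 1 - phi μ N s := sub_pos.2 (lt_of_le_of_ne hle h1)
  refine le_of_forall_pos_le_add fun e he => ?_
  have he' : 0 < min (e / 2) (1 - phi μ N s) := lt_min (by linarith) h2
  obtain ⟨S, hS, hsS, hSN⟩ := phi_near μ N hs1 he'
  have e1 := min_le_left (e / 2) (1 - phi μ N s)
  have e2 := min_le_right (e / 2) (1 - phi μ N s)
  have hp := pigeon μ hS hN (by linarith)
  have hn : 0 ≤ μ.real N := measureReal_nonneg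
  have hsq : μ.real S ^ 2 ≤ μ.real S - x := by nlinarith
  obtain ⟨g, hg⟩ := ov_ivt μ hS hsq (by linarith)
  have hc : Continuous fun y : G => g⁻¹ * y := continuous_const.mul continuous_id
  have hS1 : IsOpen {y : G | g⁻¹ * y ∈ S ∧ y ∈ S} := (hS.preimage hc).inter hS
  have hS2 : IsOpen {y : G | g⁻¹ * y ∈ S ∨ y ∈ S} := (hS.preimage hc).union hS
  have h3 : phi μ N (s - x) ≤ μ.real ({y | g⁻¹ * y ∈ S ∧ y ∈ S} * N) := by
    refine phi_le μ hS1 ?_
    have h4 : μ.real {y | g⁻¹ * y ∈ S ∧ y ∈ S} = μ.real S - x := hg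
    rw [h4]
    linarith
  have h5 : phi μ N (s + x) ≤ μ.real ({y | g⁻¹ * y ∈ S ∨ y ∈ S} * N) := by
    refine phi_le μ hS2 ?_
    rw [meas_or μ hS g, hg]
    linarith
  have h6 := submod μ hS hN g
  linarith

end Pool.Agent.Lib.H68S
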