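import Pool.Agent.Lib.H68S.Defs

open MeasureTheory Set
open scoped Pointwise

namespace Pool.Agent.Lib.H68S

/-- A discrete concave sequence lies above its chord.

Proof. Let `b j = N * a j - (N - j) * a 0 - j * a N`: then `b 0 = b N = 0` and
`b (j - 1) + b (j + 1) ≤ 2 b j`. Suppose the minimum of `b` over `0, .., N` is negative and let `j`
be the first index where it is attained (`Finset.exists_min_image` on `Finset.range (N + 1)`, then
`Nat.find`), `0 < j < N`; then `b (j - 1) > b j` and `b (j + 1) ≥ b j`, a contradiction. -/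
theorem chord_discrete (a : ℕ → ℝ) (N : ℕ)
    (h : ∀ j, 1 ≤ j → j < N → a (j - 1) + a (j + 1) ≤ 2 * a j) (j : ℕ) (hj : j ≤ N) :
    ((N : ℝ) - j) * a 0 + j * a N ≤ N * a j := by
  classical
  by_contra hcon
  push Not at hcon
  set b : ℕ → ℝ := fun k => (N : ℝ) * a k - ((N : ℝ) - k) * a 0 - k * a N with hb
  obtain ⟨m, hm, hmin⟩ := Finset.exists_min_image (Finset.range (N + 1)) b ⟨0, by simp⟩
  have hmin' : ∀ k ≤ N, b m ≤ b k := fun k hk => hmin k (Finset.mem_range.2 (by omega))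
  have hneg : b m < 0 := lt_of_le_of_lt (hmin' j hj) (by simp only [hb]; linarith)
  have hex : ∃ k, k ≤ N ∧ b k = b m := ⟨m, by have := Finset.mem_range.1 hm; omega, rfl⟩
  set k := Nat.find hex with hk
  obtain ⟨h1, h2⟩ : k ≤ N ∧ b k = b m := Nat.find_spec hex
  have hk0 : k ≠ 0 := by
    intro h0
    rw [h0] at h2
    have : b 0 = 0 := by simp [hb]
    linarith
  have hkN : k ≠ N := by
    intro h0
    rw [h0] at h2
    have : b N = 0 := by simp only [hb]; ring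
    linarith
  have h3 : b m < b (k - 1) := by
    refine lt_of_le_of_ne (hmin' _ (by omega)) fun he => ?_
    exact Nat.find_min hex (show k - 1 < Nat.find hex by omega) ⟨by omega, he.symm⟩
  have h4 : b m ≤ b (k + 1) := hmin' _ (by omega)
  have h5 := h k (by omega) (by omega)
  have h6 : ((k - 1 : ℕ) : ℝ) = (k : ℝ) - 1 := by
    rw [Nat.cast_sub (by omega)]; simp
  have h7 : b (k - 1) + b (k + 1) = 2 * b k + (N : ℝ) * (a (k - 1) + a (k + 1) - 2 * a k) := by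
    simp only [hb, h6]
    push_cast
    ring
  have h8 : (N : ℝ) * (a (k - 1) + a (k + 1) - 2 * a k) ≤ 0 :=
    mul_nonpos_of_nonneg_of_nonpos (Nat.cast_nonneg N) (by linarith)
  linarith

theorem a08_fix (f : ℝ → ℝ) (n s₀ s s₁ : ℝ) (hn : 0 < n) (h0 : 0 < s₀) (h1 : s₀ ≤ s)
    (h2 : s ≤ 1 - n) (hs1 : 1 - n < s₁) (hs2 : s₁ < 1)
    (hmono : ∀ x y, 0 < x → x ≤ y → y ≤ 1 → f x ≤ f y)
    (htop : ∀ x, 1 - n < x → x ≤ 1 → f x = 1)
    (hmid : ∀ x d, 0 < x → 0 ≤ d → d ≤ x * n → x + d ≤ 1 → f (x - d) + f (x + d) ≤ 2 * f x) :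
    (s₁ - s) * f s₀ + (s - s₀) ≤ (s₁ - s₀) * f s := by
  have hf1 : f s₁ = 1 := htop s₁ hs1 hs2.le
  have hf0 : f s₀ ≤ 1 := by rw [← hf1]; exact hmono s₀ s₁ h0 (by linarith) hs2.le
  have hpos : 0 < s₁ - s₀ := by linarith
  refine le_of_forall_pos_le_add fun ε hε => ?_
  obtain ⟨N, hN⟩ := exists_nat_gt (max ((s₁ - s₀) / (s₀ * n)) ((s₁ - s₀) * (1 - f s₀) / ε))
  have hN1 : (s₁ - s₀) / (s₀ * n) < N := lt_of_le_of_lt (le_max_left _ _) hN
  have hN2 : (s₁ - s₀) * (1 - f s₀) / ε < N := lt_of_le_of_lt (le_max_right _ _) hN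
  have hN0 : (0 : ℝ) < N := lt_trans (by positivity) hN1
  set x : ℝ := (s₁ - s₀) / N with hx
  have hx0 : 0 < x := div_pos hpos hN0
  have hNx : (N : ℝ) * x = s₁ - s₀ := by rw [hx]; field_simp
  have hx1 : x ≤ s₀ * n := by
    rw [div_lt_iff₀ (by positivity)] at hN1
    rw [hx, div_le_iff₀ hN0]
    linarith
  have hx2 : x * (1 - f s₀) ≤ ε := by
    rw [div_lt_iff₀ hε] at hN2
    rw [hx, div_mul_eq_mul_div, div_le_iff₀ hN0]
    linarith
  set j : ℕ := ⌊(s - s₀) / x⌋₊ with hj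
  have hj1 : (j : ℝ) ≤ (s - s₀) / x := Nat.floor_le (div_nonneg (by linarith) hx0.le)
  have hj2 : (s - s₀) / x < j + 1 := Nat.lt_floor_add_one _
  rw [le_div_iff₀ hx0] at hj1
  rw [div_lt_iff₀ hx0] at hj2
  have hjN : j ≤ N := by
    have : (j : ℝ) ≤ N := by
      by_contra hc
      push Not at hc
      have := mul_lt_mul_of_pos_right hc hx0
      linarith
    exact_mod_cast this
  have hd := chord_discrete (fun k => f (s₀ + k * x)) N (by
    intro k hk1 hk2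
    have hk1' : (1 : ℝ) ≤ k := by exact_mod_cast hk1
    have hk2' : (k : ℝ) + 1 ≤ N := by exact_mod_cast hk2
    have hkx : 0 ≤ (k : ℝ) * x := by positivity
    have h5 : ((k : ℝ) + 1) * x ≤ N * x := mul_le_mul_of_nonneg_right hk2' hx0.le
    have h6 := hmid (s₀ + k * x) x (by positivity) hx0.le (by nlinarith) (by nlinarith)
    have e1 : ((k - 1 : ℕ) : ℝ) = (k : ℝ) - 1 := by
      rw [Nat.cast_sub (by omega)]; simp
    have e2 : s₀ + ((k - 1 : ℕ) : ℝ) * x = s₀ + k * x - x := by rw [e1]; ring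
    have e3 : s₀ + ((k + 1 : ℕ) : ℝ) * x = s₀ + k * x + x := by push_cast; ring
    simp only [e2, e3]
    exact h6) j hjN
  simp only [Nat.cast_zero, zero_mul, add_zero, hNx] at hd
  rw [show s₀ + (s₁ - s₀) = s₁ by ring, hf1] at hd
  have hm : f (s₀ + j * x) ≤ f s := hmono _ _ (by positivity) (by linarith) (by linarith)
  have h7 : (N : ℝ) * f (s₀ + j * x) ≤ N * f s := mul_le_mul_of_nonneg_left hm hN0.le
  have h8 : ((N : ℝ) - j) * f s₀ + j * 1 ≤ N * f s := hd.trans h7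
  have h9 := mul_le_mul_of_nonneg_left h8 hx0.le
  have h10 : x * (N * f s) = (s₁ - s₀) * f s := by rw [← hNx]; ring
  have h11 : x * (((N : ℝ) - j) * f s₀ + j * 1) = (s₁ - s₀) * f s₀ + (j * x) * (1 - f s₀) := by
    rw [← hNx]; ring
  rw [h10, h11] at h9
  have h12 : (s - s₀ - x) * (1 - f s₀) ≤ (j * x) * (1 - f s₀) :=
    mul_le_mul_of_nonneg_right (by linarith) (by linarith)
  nlinarith

/-- The chord inequality. `f` is nondecreasing on `(0, 1]`, has the midpoint inequality and is `1`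
on `(1 - n, 1]`.

Proof. Fix `s₁` with `1 - n < s₁ < 1` (near `1 - n`; here `n > 0`). We show
`(s₁ - s₀) f(s) ≥ (s₁ - s) f(s₀) + (s - s₀)` for `s₀ ≤ s < s₁`; the claim follows when
`s₁ → 1 - n` (the inequality is linear in `s₁`: `ge_of_tendsto` or an epsilon argument). If
`s = s₀` this is trivial (`f(s₀) ≤ 1` is not needed: the difference is `0`). For a large natural
number `N` let `x = (s₁ - s₀)/N`, so small that `x ≤ s₀ n` and `s₁ + x ≤ 1`, and
`a j = f(s₀ + j x)`, `0 ≤ j ≤ N`. The midpoint inequality applies to every `s₀ + j x`,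
`1 ≤ j < N` (`x ≤ s₀ n ≤ (s₀ + j x) n`), so `chord_discrete` gives
`N a j ≥ (N - j) f(s₀) + j f(s₁) = (N - j) f(s₀) + j`. With `j = ⌊(s - s₀)/x⌋` we have
`s₀ + j x ≤ s`, so `f(s) ≥ a j` and `j ≥ (s - s₀)/x - 1`; as `f(s₀) ≤ f(s₁) = 1`,
`N f(s) ≥ N f(s₀) + j (1 - f(s₀)) ≥ N f(s₀) + ((s - s₀)/x - 1)(1 - f(s₀))`. Multiply by `x` and use
`N x = s₁ - s₀`: `(s₁ - s₀) f(s) ≥ (s₁ - s₀) f(s₀) + (s - s₀ - x)(1 - f(s₀))`, and let `N → ∞`
(`x → 0`). -/
theorem chord_real (f : ℝ → ℝ) (n s₀ s : ℝ) (hn : 0 < n) (h0 : 0 < s₀) (h1 : s₀ ≤ s)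
    (h2 : s ≤ 1 - n)
    (hmono : ∀ x y, 0 < x → x ≤ y → y ≤ 1 → f x ≤ f y)
    (htop : ∀ x, 1 - n < x → x ≤ 1 → f x = 1)
    (hmid : ∀ x d, 0 < x → 0 ≤ d → d ≤ x * n → x + d ≤ 1 → f (x - d) + f (x + d) ≤ 2 * f x) :
    f s₀ * (1 - n - s) + (s - s₀) ≤ f s * (1 - n - s₀) := by
  have hc : Filter.Tendsto (fun s₁ : ℝ => (s₁ - s₀) * f s - ((s₁ - s) * f s₀ + (s - s₀)))
      (nhdsWithin (1 - n) (Ioi (1 - n)))
      (nhds ((1 - n - s₀) * f s - ((1 - n - s) * f s₀ + (s - s₀)))) := by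
    have : Continuous (fun s₁ : ℝ => (s₁ - s₀) * f s - ((s₁ - s) * f s₀ + (s - s₀))) := by fun_prop
    exact (this.tendsto (1 - n)).mono_left nhdsWithin_le_nhds
  have hge := ge_of_tendsto (b := (0 : ℝ)) hc (by
    filter_upwards [Ioo_mem_nhdsGT (show 1 - n < 1 by linarith)] with s₁ hs
    have := a08_fix f n s₀ s s₁ hn h0 h1 h2 hs.1 hs.2 hmono htop hmid
    linarith)
  linarith

end Pool.Agent.Lib.H68S
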