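import Pool.Agent.Lib.H68S.A07
import Pool.Agent.Lib.H68S.A08

open MeasureTheory Set
open scoped Pointwise

namespace Pool.Agent.Lib.H68S

variable {G : Type*} [Group G] [TopologicalSpace G] [IsTopologicalGroup G] [CompactSpace G]
  [T2Space G] [SecondCountableTopology G] [ConnectedSpace G] [MeasurableSpace G] [BorelSpace G]
  (μ : Measure G) [μ.IsHaarMeasure] [IsProbabilityMeasure μ]

/-- The chord inequality (1.6) for the profile. Proof. `chord_real` with `f = phi μ N`,
`phi_mono`, `phi_eq_one`, `phi_mid`. -/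
theorem phi_chord {N : Set G} (hN : IsOpen N) (hne : N.Nonempty) {s₀ s : ℝ} (h0 : 0 < s₀)
    (h1 : s₀ ≤ s) (h2 : s ≤ 1 - μ.real N) :
    phi μ N s₀ * (1 - μ.real N - s) + (s - s₀) ≤ phi μ N s * (1 - μ.real N - s₀) := by
  have hn : 0 < μ.real N := by
    rw [measureReal_def, ENNReal.toReal_pos_iff]
    exact ⟨hN.measure_pos μ hne, measure_lt_top μ N⟩
  refine chord_real (phi μ N) (μ.real N) s₀ s hn h0 h1 h2 ?_ ?_ ?_
  · intro x y _ hxy hy
    exact phi_mono μ hxy hy
  · intro x hx hx1
    exact phi_eq_one μ hN hx hx1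
  · intro x d hx hd hdx hxd
    exact phi_mid μ hN hx hd hdx hxd

/-- Kneser's inequality (Kemperman's in the non-commutative case).

Proof. Let `s = μ(X) > 0`, `n = μ(Y) > 0` (open nonempty sets). If `s + n > 1`, then `μ(X Y) ≥ 1`
by `pigeon`. Otherwise `s ≤ 1 - n`, and for `0 < s₀ ≤ s` we have
`phi(s) (1 - n - s₀) ≥ phi(s₀)(1 - n - s) + (s - s₀) ≥ n (1 - n - s) + (s - s₀)` (`le_phi`). Let
`s₀ → 0`: `phi(s)(1 - n) ≥ n (1 - n - s) + s = (1 - n)(n + s)`, so `phi(s) ≥ n + s`
(`1 - n ≥ s > 0`), and `μ(X Y) ≥ phi(s)` (`phi_le`). -/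
theorem kneser {X Y : Set G} (hX : IsOpen X) (hY : IsOpen Y) (hX0 : X.Nonempty)
    (hY0 : Y.Nonempty) : min 1 (μ.real X + μ.real Y) ≤ μ.real (X * Y) := by
  have hs : 0 < μ.real X := by
    rw [measureReal_def, ENNReal.toReal_pos_iff]
    exact ⟨hX.measure_pos μ hX0, measure_lt_top μ X⟩
  have hn : 0 < μ.real Y := by
    rw [measureReal_def, ENNReal.toReal_pos_iff]
    exact ⟨hY.measure_pos μ hY0, measure_lt_top μ Y⟩
  by_cases hsum : 1 < μ.real X + μ.real Y
  · refine le_trans (min_le_left _ _) ?_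
    by_contra hcon
    push Not at hcon
    have := pigeon μ hX hY hcon
    linarith
  · push Not at hsum
    refine le_trans (min_le_right _ _) ?_
    have hphi : phi μ Y (μ.real X) ≤ μ.real (X * Y) := phi_le μ hX le_rfl
    refine le_trans ?_ hphi
    set s := μ.real X with hsdef
    set n := μ.real Y with hndef
    have key : ∀ s₀, 0 < s₀ → s₀ ≤ s →
        n * (1 - n - s) + (s - s₀) ≤ phi μ Y s * (1 - n - s₀) := by
      intro s₀ h0 h1
      have h3 := phi_chord μ hY hY0 h0 h1 (by linarith : s ≤ 1 - μ.real Y)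
      have h4 : n ≤ phi μ Y s₀ := le_phi μ Y h0 (by linarith)
      have h5 : 0 ≤ 1 - n - s := by linarith
      have h6 : n * (1 - n - s) ≤ phi μ Y s₀ * (1 - n - s) := mul_le_mul_of_nonneg_right h4 h5
      linarith
    have hp1 : phi μ Y s ≤ 1 := phi_le_one μ Y (by linarith)
    have hp0 : n ≤ phi μ Y s := le_phi μ Y hs (by linarith)
    have hlim : n * (1 - n - s) + s ≤ phi μ Y s * (1 - n) := by
      by_contra hcon
      push Not at hcon
      set D := n * (1 - n - s) + s - phi μ Y s * (1 - n) with hD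
      have hDpos : 0 < D := by linarith
      have h7 := key (min s (D / 2)) (lt_min hs (by linarith)) (min_le_left _ _)
      have h8 : min s (D / 2) ≤ D / 2 := min_le_right _ _
      have h9 : 0 < min s (D / 2) := lt_min hs (by linarith)
      nlinarith
    have h10 : (n + s) * (1 - n) ≤ phi μ Y s * (1 - n) := by nlinarith
    have h11 : n + s ≤ phi μ Y s := le_of_mul_le_mul_right h10 (by linarith)
    linarith

end Pool.Agent.Lib.H68S
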