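import Pool.Agent.Lib.H68S.B02

open MeasureTheory Set Matrix

namespace Pool.Agent.Lib.H68S


/-- Rotations of the same height are in the same double coset.

Proof. `kak` for both: `x = kz z₁ * ax t₁ * kz w₁`, `y = kz z₂ * ax t₂ * kz w₂`;
`cos t₁ = c3 x = c3 y = cos t₂` (`c3_mul_kz`, `c3_kz_mul`, `c3_ax`), so `t₁ = t₂`
(`Real.injOn_cos` on `[0, π]`), and `y = kz (z₂ / z₁) * x * kz (w₂ / w₁)` up to the order of the
factors: `z = z₂ * z₁⁻¹`, `w = w₁⁻¹ * w₂`. -/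
theorem dbl {x y : SO3} (h : c3 x = c3 y) : ∃ z w : Circle, y = kz z * x * kz w := by
  obtain ⟨z₁, w₁, t₁, h1, h2, hx⟩ := kak x
  obtain ⟨z₂, w₂, t₂, h3, h4, hy⟩ := kak y
  have e1 : c3 x = Real.cos t₁ := by rw [hx, c3_mul_kz, c3_kz_mul, c3_ax]
  have e2 : c3 y = Real.cos t₂ := by rw [hy, c3_mul_kz, c3_kz_mul, c3_ax]
  have ht : t₁ = t₂ := Real.injOn_cos ⟨h1, h2⟩ ⟨h3, h4⟩ (by rw [← e1, ← e2, h])
  subst ht
  refine ⟨z₂ * z₁⁻¹, w₁⁻¹ * w₂, ?_⟩
  rw [map_mul, map_mul, map_inv, map_inv]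
  conv_rhs => rw [hx]
  rw [hy]
  group

/-- Points of the circle with given real part. Proof. `r + i √(1 - r^2)`. -/
theorem exists_re {r : ℝ} (h1 : -1 ≤ r) (h2 : r ≤ 1) : ∃ z : Circle, (z : ℂ).re = r := by
  have h3 : 0 ≤ 1 - r * r := by nlinarith
  obtain ⟨w, hw, -⟩ := b02_circle (a := r) (c := √(1 - r * r)) (by
    rw [Real.mul_self_sqrt h3]
    ring)
  exact ⟨w, hw⟩

/-- The fact (S3).

Proof. `x = kz z * ax θ * kz w`, `C = cos θ = c3 x ≥ 0`. Let `r = C / (1 + C)` in `[0, 1/2]` and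
`s : Circle` with `s.re = r` (`exists_re`). With `t = s` we have
`x * kz s * x⁻¹ = kz z * (ax θ * kz s * ax (-θ)) * (kz z)⁻¹` (`kz w` commutes with `kz s`), whose
height is `cos θ cos (-θ) - sin θ sin (-θ) r = C^2 + (1 - C^2) r = C^2 + (1 - C) C = C`
(`c3_ax_kz_ax`). So the height is the height of `x`, and `dbl` applies. -/
theorem conj3 {x : SO3} (h : 0 ≤ c3 x) :
    ∃ t t' t'' : Circle, x * kz t * x⁻¹ = kz t' * x * kz t'' := by
  obtain ⟨z, w, θ, h1, h2, hx⟩ := kak x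
  have e1 : c3 x = Real.cos θ := by rw [hx, c3_mul_kz, c3_kz_mul, c3_ax]
  rw [e1] at h
  have hle : Real.cos θ ≤ 1 := Real.cos_le_one θ
  have hpos : 0 < 1 + Real.cos θ := by linarith
  obtain ⟨s, hs⟩ := exists_re (r := Real.cos θ / (1 + Real.cos θ)) (by
    have : 0 ≤ Real.cos θ / (1 + Real.cos θ) := by positivity
    linarith) (by
    rw [div_le_one hpos]
    linarith)
  have hcomm : kz w * kz s * (kz w)⁻¹ = kz s := by
    rw [← map_mul, mul_comm w s, map_mul, mul_inv_cancel_right]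
  have hform : x * kz s * x⁻¹ = kz z * (ax θ * kz s * ax (-θ)) * kz z⁻¹ := by
    rw [ax_neg, map_inv, hx]
    calc kz z * ax θ * kz w * kz s * (kz z * ax θ * kz w)⁻¹
        = kz z * (ax θ * (kz w * kz s * (kz w)⁻¹) * (ax θ)⁻¹) * (kz z)⁻¹ := by group
      _ = _ := by rw [hcomm]
  have hc : c3 x = c3 (x * kz s * x⁻¹) := by
    rw [hform, c3_mul_kz, c3_kz_mul, c3_ax_kz_ax, hs, e1, Real.cos_neg, Real.sin_neg]
    have h5 := Real.sin_sq_add_cos_sq θ
    field_simp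
    linear_combination (-Real.cos θ) * h5
  obtain ⟨a, b, hab⟩ := dbl hc
  exact ⟨s, a, b, hab⟩

/-- The fact (S4).

Proof. `y = kz a * ax θ * kz b` with `cos θ = 0`, so `(sin θ)^2 = 1`. For `t' : Circle`:
`y * kz t' * y = kz a * (ax θ * kz (b * t' * a) * ax θ) * kz b`, whose height is
`cos θ cos θ - sin θ sin θ (b t' a).re = -(b t' a).re`. The height of `z` is in `[-1, 1]`
(it is a cosine by `kak`), so there is `s : Circle` with `s.re = -c3 z`; take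
`t' = b⁻¹ * s * a⁻¹`. Then `y * kz t' * y` and `z` have the same height, and `dbl` gives
`z = kz t * (y * kz t' * y) * kz t''`. -/
theorem gen3 {y : SO3} (h : c3 y = 0) (z : SO3) :
    ∃ t t' t'' : Circle, z = kz t * y * kz t' * y * kz t'' := by
  obtain ⟨a, b, θ, -, -, hy⟩ := kak y
  have e1 : c3 y = Real.cos θ := by rw [hy, c3_mul_kz, c3_kz_mul, c3_ax]
  rw [e1] at h
  have h5 := Real.sin_sq_add_cos_sq θ
  rw [h] at h5
  have hz : -1 ≤ c3 z ∧ c3 z ≤ 1 := by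
    obtain ⟨a', b', θ', -, -, hz⟩ := kak z
    have e2 : c3 z = Real.cos θ' := by rw [hz, c3_mul_kz, c3_kz_mul, c3_ax]
    rw [e2]
    exact ⟨Real.neg_one_le_cos θ', Real.cos_le_one θ'⟩
  obtain ⟨s, hs⟩ := exists_re (r := -c3 z) (by linarith [hz.2]) (by linarith [hz.1])
  have hform : y * kz (b⁻¹ * s * a⁻¹) * y = kz a * (ax θ * kz s * ax θ) * kz b := by
    rw [map_mul, map_mul, map_inv, map_inv, hy]
    group
  have hc : c3 (y * kz (b⁻¹ * s * a⁻¹) * y) = c3 z := by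
    rw [hform, c3_mul_kz, c3_kz_mul, c3_ax_kz_ax, hs, h]
    linear_combination c3 z * h5
  obtain ⟨t, t'', ht⟩ := dbl hc
  refine ⟨t, b⁻¹ * s * a⁻¹, t'', ?_⟩
  rw [ht]
  group

end Pool.Agent.Lib.H68S
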