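import Pool.Agent.Lib.H68S.B02

open MeasureTheory Set Matrix

namespace Pool.Agent.Lib.H68S


/-- Every point of the circle has a square root. Proof. `Circle.exp (arg z / 2)`. -/
theorem circle_sqrt (z : Circle) : ∃ w : Circle, w * w = z := by
  refine ⟨Circle.exp (Complex.arg z / 2), ?_⟩
  rw [← Circle.exp_add, add_halves, Circle.exp_arg]

theorem b04_kzM_inv (z : Circle) : kzM z⁻¹ = !![(z : ℂ).re, (z : ℂ).im, 0; -(z : ℂ).im, (z : ℂ).re, 0; 0, 0, 1] := by
  unfold kzM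
  rw [Circle.coe_inv_eq_conj, Complex.conj_re, Complex.conj_im, neg_neg]

/-- The half turn about the first axis inverts the rotations about the third axis. Proof. Compare
the entries of the matrices `axM π * kzM z` and `kzM z⁻¹ * axM π`. -/
theorem w_kz (z : Circle) : ax Real.pi * kz z = (kz z)⁻¹ * ax Real.pi := by
  rw [← map_inv]
  apply Subtype.ext
  change axM Real.pi * kzM z = kzM z⁻¹ * axM Real.pi
  rw [b04_kzM_inv]
  ext a b
  fin_cases a <;> fin_cases b <;>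
    simp [kzM, axM, Matrix.mul_apply, Fin.sum_univ_three]

/-- Proof. With `t' * t' = t`: `(kz t')⁻¹ * w * kz t' = w * kz t' * kz t' = w * kz t` by `w_kz`. -/
theorem w_one (t : Circle) : ∃ t' : Circle, ax Real.pi * kz t = (kz t')⁻¹ * ax Real.pi * kz t' := by
  obtain ⟨t', ht⟩ := circle_sqrt t
  refine ⟨t', ?_⟩
  rw [← w_kz, mul_assoc, ← map_mul, ht]

/-- Proof. `r` is the rotation with matrix `!![0,0,1; 1,0,0; 0,1,0]` (a cyclic permutation of the
axes, which maps the third axis to the first one; if this does not work take its transpose), and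
`t = -1` in `Circle`: `r * kz (-1) * r⁻¹ = diag(1, -1, -1) = ax π`. It is enough to check
`ax π * r = r * kz (-1)` on matrices. -/
theorem w_two : ∃ (r : SO3) (t : Circle), ax Real.pi = r * kz t * r⁻¹ := by
  have hr : (!![0, 0, 1; 1, 0, 0; 0, 1, 0] : Matrix (Fin 3) (Fin 3) ℝ) ∈ Matrix.specialOrthogonalGroup (Fin 3) ℝ := by
    rw [Matrix.mem_specialOrthogonalGroup_iff, Matrix.mem_orthogonalGroup_iff]
    constructor
    · ext a b
      fin_cases a <;> fin_cases b <;> simp [Matrix.mul_apply, Fin.sum_univ_three]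
    · simp [Matrix.det_fin_three]
  obtain ⟨z, hz1, hz2⟩ := b02_circle (a := -1) (c := 0) (by norm_num)
  refine ⟨⟨_, hr⟩, z, ?_⟩
  rw [eq_mul_inv_iff_mul_eq]
  apply Subtype.ext
  change axM Real.pi * !![0, 0, 1; 1, 0, 0; 0, 1, 0] = !![0, 0, 1; 1, 0, 0; 0, 1, 0] * kzM z
  ext a b
  fin_cases a <;> fin_cases b <;>
    simp [kzM, axM, Matrix.mul_apply, Fin.sum_univ_three, hz1, hz2]

/-- the matrix of the half turn about the second axis -/
theorem b04_uM : (!![-1, 0, 0; 0, 1, 0; 0, 0, -1] : Matrix (Fin 3) (Fin 3) ℝ) ∈ Matrix.specialOrthogonalGroup (Fin 3) ℝ := by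
  rw [Matrix.mem_specialOrthogonalGroup_iff, Matrix.mem_orthogonalGroup_iff]
  constructor
  · ext a b
    fin_cases a <;> fin_cases b <;> simp [Matrix.mul_apply, Fin.sum_univ_three]
  · simp [Matrix.det_fin_three]

/-- The half turn about the second axis. -/
noncomputable def b04_u : SO3 := ⟨_, b04_uM⟩

theorem b04_uu : b04_u * b04_u = 1 := by
  apply Subtype.ext
  change !![-1, 0, 0; 0, 1, 0; 0, 0, -1] * !![-1, 0, 0; 0, 1, 0; 0, 0, -1] = (1 : Matrix (Fin 3) (Fin 3) ℝ)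
  ext a b
  fin_cases a <;> fin_cases b <;> simp [Matrix.mul_apply, Fin.sum_univ_three]

theorem b04_u_ax (s : ℝ) : b04_u * ax s = ax (-s) * b04_u := by
  apply Subtype.ext
  change !![-1, 0, 0; 0, 1, 0; 0, 0, -1] * axM s = axM (-s) * !![-1, 0, 0; 0, 1, 0; 0, 0, -1]
  ext a b
  fin_cases a <;> fin_cases b <;> simp [axM, Matrix.mul_apply, Fin.sum_univ_three]

theorem b04_u_kz (z : Circle) : b04_u * kz z = (kz z)⁻¹ * b04_u := by
  rw [← map_inv]
  apply Subtype.ext
  change !![-1, 0, 0; 0, 1, 0; 0, 0, -1] * kzM z = kzM z⁻¹ * !![-1, 0, 0; 0, 1, 0; 0, 0, -1]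
  rw [b04_kzM_inv]
  ext a b
  fin_cases a <;> fin_cases b <;> simp [kzM, Matrix.mul_apply, Fin.sum_univ_three]

theorem b04_u_w : ∃ z : Circle, b04_u = kz z * ax Real.pi * (kz z)⁻¹ := by
  obtain ⟨z, hz1, hz2⟩ := b02_circle (a := 0) (c := 1) (by norm_num)
  refine ⟨z, ?_⟩
  rw [eq_mul_inv_iff_mul_eq]
  apply Subtype.ext
  change !![-1, 0, 0; 0, 1, 0; 0, 0, -1] * kzM z = kzM z * axM Real.pi
  ext a b
  fin_cases a <;> fin_cases b <;>
    simp [kzM, axM, Matrix.mul_apply, Fin.sum_univ_three, hz1, hz2]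

/-- Every rotation is a product of two half turns.

Proof. Write `w = ax π`, `u` = the half turn about the second axis, with matrix `diag(-1, 1, -1)`.
Checks on matrices: `u * u = 1`, `u * ax s = ax (-s) * u`, `u * kz z = kz z⁻¹ * u`,
`u = kz (i) * w * (kz (i))⁻¹` where `i` is the point `Circle.exp (π/2)` (matrix
`!![0,-1,0;1,0,0;0,0,1]`). Let `x = kz a * ax t * kz b` (`kak`). Then
`x = kz a * (ax t * kz (b a)) * (kz a)⁻¹` and, with `d * d = b * a` (`circle_sqrt`),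
`ax t * kz (b a) = (ax t * u) * (u * kz (d * d))`, where
`ax t * u = ax (t/2) * u * (ax (t/2))⁻¹` and `u * kz (d * d) = (kz d)⁻¹ * u * kz d`. So
`x = (g' u g'⁻¹)(h' u h'⁻¹)` with `g' = kz a * ax (t/2)`, `h' = kz a * (kz d)⁻¹`, and
`g = g' * kz (i)`, `h = h' * kz (i)`. -/
theorem w_three (x : SO3) : ∃ g h : SO3,
    x = (g * ax Real.pi * g⁻¹) * (h * ax Real.pi * h⁻¹) := by
  obtain ⟨a, b, t, -, -, hx⟩ := kak x
  obtain ⟨i, hi⟩ := b04_u_w
  obtain ⟨d, hd⟩ := circle_sqrt (b * a)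
  have hu : b04_u⁻¹ = b04_u := inv_eq_of_mul_eq_one_right b04_uu
  have h1 : ax t = ax (t / 2) * ax (t / 2) := by rw [← ax_add, add_halves]
  have h2 : kz b * kz a = kz d * kz d := by rw [← map_mul, ← map_mul, hd]
  have h3 : ax (t / 2) * b04_u = b04_u * (ax (t / 2))⁻¹ := by
    rw [← ax_neg, b04_u_ax, neg_neg]
  have h4 : b04_u * kz d = (kz d)⁻¹ * b04_u := b04_u_kz d
  have h5 : ax t * (kz b * kz a) = (ax (t / 2) * b04_u * (ax (t / 2))⁻¹) * ((kz d)⁻¹ * b04_u * kz d) := by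
    rw [mul_assoc (ax (t / 2)) b04_u, ← h3, ← h4, h1, h2]
    calc ax (t / 2) * ax (t / 2) * (kz d * kz d)
        = ax (t / 2) * ax (t / 2) * (b04_u * b04_u) * (kz d * kz d) := by rw [b04_uu, mul_one]
      _ = _ := by group
  refine ⟨kz a * ax (t / 2) * kz i, kz a * (kz d)⁻¹ * kz i, ?_⟩
  have h6 : x = kz a * (ax t * (kz b * kz a)) * (kz a)⁻¹ := by
    rw [hx]
    group
  rw [h6, h5, hi]
  group

end Pool.Agent.Lib.H68S
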