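import Pool.Agent.Lib.H68S.B03
import Pool.Agent.Lib.H68S.B04
import Pool.Agent.Lib.H68S.B05

open MeasureTheory Set Matrix

namespace Pool.Agent.Lib.H68S


/-- All facts about `SO(3)` used in the proof. -/
noncomputable def geo3 : Geo SO3 Circle where
  i := kz
  ci := continuous_kz
  c := c3
  cc := continuous_c3
  cinv := c3_mul_kz
  flip := ⟨ax Real.pi, c3_flip⟩
  conj _ h := conj3 h
  zero := ⟨ax (Real.pi / 2), by rw [c3_ax, Real.cos_pi_div_two]⟩
  gen _ h z := gen3 h z
  path := path3
  w := ax Real.pi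
  w1 := w_one
  w2 := w_two
  w3 := w_three

end Pool.Agent.Lib.H68S
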