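import Pool.Agent.Lib.H68S.Defs

/-!
# The rotation group: definitions

`kz z` is the rotation about the third axis with angle `arg z`, `ax t` the rotation about the first
axis with angle `t`, `c3 x` the entry `x₃₃`.
-/

open MeasureTheory Set Matrix

namespace Pool.Agent.Lib.H68S

/-- The group `SO(3)`. -/
abbrev SO3 := ↥(Matrix.specialOrthogonalGroup (Fin 3) ℝ)

/-- The matrix of the rotation about the third axis. -/
noncomputable def kzM (z : Circle) : Matrix (Fin 3) (Fin 3) ℝ :=
  !![(z : ℂ).re, -(z : ℂ).im, 0; (z : ℂ).im, (z : ℂ).re, 0; 0, 0, 1]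

/-- The matrix of the rotation about the first axis. -/
noncomputable def axM (t : ℝ) : Matrix (Fin 3) (Fin 3) ℝ :=
  !![1, 0, 0; 0, Real.cos t, -Real.sin t; 0, Real.sin t, Real.cos t]

theorem circle_sq (z : Circle) : (z : ℂ).re * (z : ℂ).re + (z : ℂ).im * (z : ℂ).im = 1 := by
  have h := z.normSq_coe
  rwa [Complex.normSq_apply] at h

theorem kzM_mem (z : Circle) : kzM z ∈ Matrix.specialOrthogonalGroup (Fin 3) ℝ := by
  rw [Matrix.mem_specialOrthogonalGroup_iff, Matrix.mem_orthogonalGroup_iff]
  have h := circle_sq z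
  constructor
  · ext a b
    fin_cases a <;> fin_cases b <;>
      simp [kzM, Matrix.mul_apply, Fin.sum_univ_three] <;> linarith
  · simp [kzM, Matrix.det_fin_three]
    linarith

theorem axM_mem (t : ℝ) : axM t ∈ Matrix.specialOrthogonalGroup (Fin 3) ℝ := by
  rw [Matrix.mem_specialOrthogonalGroup_iff, Matrix.mem_orthogonalGroup_iff]
  have h := Real.sin_sq_add_cos_sq t
  constructor
  · ext a b
    fin_cases a <;> fin_cases b <;>
      simp [axM, Matrix.mul_apply, Fin.sum_univ_three] <;> nlinarith
  · simp [axM, Matrix.det_fin_three]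
    nlinarith

/-- The rotation about the first axis. -/
noncomputable def ax (t : ℝ) : SO3 := ⟨axM t, axM_mem t⟩

theorem kzM_one : kzM 1 = 1 := by
  ext a b
  fin_cases a <;> fin_cases b <;> simp [kzM]

theorem kzM_mul (z w : Circle) : kzM (z * w) = kzM z * kzM w := by
  ext a b
  fin_cases a <;> fin_cases b <;>
    simp [kzM, Matrix.mul_apply, Fin.sum_univ_three, Complex.mul_re, Complex.mul_im] <;> ring

/-- The rotations about the third axis. -/
noncomputable def kz : Circle →* SO3 where
  toFun z := ⟨kzM z, kzM_mem z⟩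
  map_one' := Subtype.ext kzM_one
  map_mul' z w := Subtype.ext (kzM_mul z w)

/-- The height. -/
def c3 (x : SO3) : ℝ := x.1 2 2

theorem kz_val (z : Circle) : (kz z).1 = kzM z := rfl

theorem ax_val (t : ℝ) : (ax t).1 = axM t := rfl

theorem ax_zero : ax 0 = 1 := by
  apply Subtype.ext
  ext a b
  fin_cases a <;> fin_cases b <;> simp [ax, axM]

theorem ax_add (s t : ℝ) : ax (s + t) = ax s * ax t := by
  apply Subtype.ext
  change axM (s + t) = axM s * axM t
  ext a b
  fin_cases a <;> fin_cases b <;>
    simp [axM, Matrix.mul_apply, Fin.sum_univ_three, Real.cos_add, Real.sin_add] <;> ring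

theorem ax_neg (t : ℝ) : ax (-t) = (ax t)⁻¹ := by
  rw [eq_inv_iff_mul_eq_one, ← ax_add, neg_add_cancel, ax_zero]

theorem c3_mul_kz (x : SO3) (z : Circle) : c3 (x * kz z) = c3 x := by
  change (x.1 * kzM z) 2 2 = x.1 2 2
  simp [kzM, Matrix.mul_apply, Fin.sum_univ_three]

theorem c3_kz_mul (x : SO3) (z : Circle) : c3 (kz z * x) = c3 x := by
  change (kzM z * x.1) 2 2 = x.1 2 2
  simp [kzM, Matrix.mul_apply, Fin.sum_univ_three]

theorem c3_ax (t : ℝ) : c3 (ax t) = Real.cos t := by
  simp [c3, ax, axM]

/-- The spherical law of cosines. -/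
theorem c3_ax_kz_ax (s t : ℝ) (z : Circle) :
    c3 (ax s * kz z * ax t) =
      Real.cos s * Real.cos t - Real.sin s * Real.sin t * (z : ℂ).re := by
  change (axM s * kzM z * axM t) 2 2 = _
  simp [kzM, axM, Matrix.mul_apply, Fin.sum_univ_three]
  ring

theorem c3_flip (x : SO3) : c3 (x * ax Real.pi) = - c3 x := by
  change (x.1 * axM Real.pi) 2 2 = - x.1 2 2
  simp [axM, Matrix.mul_apply, Fin.sum_univ_three]

theorem continuous_kz : Continuous kz := by
  apply Continuous.subtype_mk
  apply continuous_matrix
  intro a b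
  have h1 : Continuous fun z : Circle => (z : ℂ).re := Complex.continuous_re.comp continuous_subtype_val
  have h2 : Continuous fun z : Circle => (z : ℂ).im := Complex.continuous_im.comp continuous_subtype_val
  fin_cases a <;> fin_cases b <;> simp [kzM] <;>
    first | exact h1 | exact h2 | exact h2.neg | exact continuous_const

theorem continuous_ax : Continuous ax := by
  apply Continuous.subtype_mk
  apply continuous_matrix
  intro a b
  fin_cases a <;> fin_cases b <;> simp [axM] <;>
    first
      | exact Real.continuous_cos | exact Real.continuous_sin | exact Real.continuous_sin.neg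
      | exact continuous_const

theorem continuous_c3 : Continuous c3 := by
  unfold c3
  exact (continuous_apply_apply (2 : Fin 3) (2 : Fin 3)).comp continuous_subtype_val

end Pool.Agent.Lib.H68S
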