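import Pool.Agent.Lib.H68S.Defs

open MeasureTheory Set
open scoped Pointwise

namespace Pool.Agent.Lib.H68S

variable {G : Type*} [Group G] [TopologicalSpace G] [IsTopologicalGroup G] [CompactSpace G]
  [T2Space G] [SecondCountableTopology G] [MeasurableSpace G] [BorelSpace G]
  (μ : Measure G) [μ.IsHaarMeasure] [IsProbabilityMeasure μ]
variable {T : Type*} [CommGroup T] [TopologicalSpace T] [IsTopologicalGroup T] [CompactSpace T]
  [T2Space T] [SecondCountableTopology T] [MeasurableSpace T] [BorelSpace T]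
  (τ : Measure T) [τ.IsHaarMeasure] [IsProbabilityMeasure τ]
  {i : T →* G} (hi : Continuous i)

theorem c01_swap {X Y : Type*} [MeasurableSpace X] [MeasurableSpace Y] (μ : Measure X) [IsProbabilityMeasure μ]
    (τ : Measure Y) [IsProbabilityMeasure τ] {E : Set (X × Y)} (hE : MeasurableSet E) :
    ∫ x, τ.real (Prod.mk x ⁻¹' E) ∂μ = ∫ y, μ.real ((fun x => (x, y)) ⁻¹' E) ∂τ := by
  have h1 : ∫ x, τ.real (Prod.mk x ⁻¹' E) ∂μ = (μ.prod τ).real E := by
    rw [measureReal_def, Measure.prod_apply hE, ← integral_toReal (measurable_measure_prodMk_left hE).aemeasurable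
      (Filter.Eventually.of_forall fun x => measure_lt_top _ _)]
    rfl
  have h2 : ∫ y, μ.real ((fun x => (x, y)) ⁻¹' E) ∂τ = (μ.prod τ).real E := by
    rw [measureReal_def, Measure.prod_apply_symm hE, ← integral_toReal (measurable_measure_prodMk_right hE).aemeasurable
      (Filter.Eventually.of_forall fun x => measure_lt_top _ _)]
    rfl
  rw [h1, h2]

theorem c01_const {Y : Type*} [MeasurableSpace Y] (τ : Measure Y) [IsProbabilityMeasure τ] {f : Y → ℝ} {c : ℝ}
    (h : ∀ y, f y = c) : ∫ y, f y ∂τ = c := by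
  simp only [h, integral_const, probReal_univ, one_smul]

include hi

omit [CompactSpace G] [T2Space G] [μ.IsHaarMeasure] [IsProbabilityMeasure μ]
  [IsTopologicalGroup T] [CompactSpace T] [T2Space T] [τ.IsHaarMeasure] in
/-- Proof. `fib τ i A p.1 p.2 = (τ (Prod.mk p ⁻¹' E)).toReal` with
`E = {q : (G × G) × T | q.1.1 * i q.2 * q.1.2⁻¹ ∈ A}`, a measurable set (preimage of `A` under a
continuous map; the `σ`-algebras are the Borel ones because the topologies are second countable):
`measurable_measure_prodMk_left`. -/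
theorem fib_meas {A : Set G} (hA : MeasurableSet A) :
    Measurable (fun p : G × G => fib τ i A p.1 p.2) := by
  have hc : Continuous fun q : (G × G) × T => q.1.1 * i q.2 * q.1.2⁻¹ := by fun_prop
  have hE : MeasurableSet ((fun q : (G × G) × T => q.1.1 * i q.2 * q.1.2⁻¹) ⁻¹' A) := hc.measurable hA
  have h1 := (measurable_measure_prodMk_left (ν := τ) hE).ennreal_toReal
  exact h1

/-- Proof. Fubini: `∫ h, τ.real {t | g * i t * h⁻¹ ∈ A} = ∫ t, μ.real {h | g * i t * h⁻¹ ∈ A}`
(both are the measure of the set `{(h, t) | ..}` for the product measure: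
`Measure.prod_apply`, `Measure.prod_apply_symm`, `integral_toReal` or `ofReal` versions), and for
every `t` the map `h ↦ g * i t * h⁻¹` preserves `μ` (inversion and left invariance, `iinv`). -/
theorem fib_int_right {A : Set G} (hA : MeasurableSet A) (g : G) :
    ∫ h, fib τ i A g h ∂μ = μ.real A := by
  have hc : Continuous fun q : G × T => g * i q.2 * q.1⁻¹ := by fun_prop
  have hE : MeasurableSet ((fun q : G × T => g * i q.2 * q.1⁻¹) ⁻¹' A) := hc.measurable hA
  refine (c01_swap μ τ hE).trans (c01_const τ fun t => ?_)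
  have h1 : (fun h : G => (h, t)) ⁻¹' ((fun q : G × T => g * i q.2 * q.1⁻¹) ⁻¹' A) =
      Inv.inv ⁻¹' ((fun h : G => (g * i t) * h) ⁻¹' A) := rfl
  rw [measureReal_def, h1, Measure.measure_preimage_inv, measure_preimage_mul]
  rfl

/-- Proof. As `fib_int_right`: for every `t` the map `g ↦ g * i t * h⁻¹` preserves `μ` (right
invariance, `rinv`). -/
theorem fib_int_left {A : Set G} (hA : MeasurableSet A) (h : G) :
    ∫ g, fib τ i A g h ∂μ = μ.real A := by
  have hc : Continuous fun q : G × T => q.1 * i q.2 * h⁻¹ := by fun_prop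
  have hE : MeasurableSet ((fun q : G × T => q.1 * i q.2 * h⁻¹) ⁻¹' A) := hc.measurable hA
  refine (c01_swap μ τ hE).trans (c01_const τ fun t => ?_)
  have h1 : (fun g : G => (g, t)) ⁻¹' ((fun q : G × T => q.1 * i q.2 * h⁻¹) ⁻¹' A) =
      (fun g : G => g * (i t * h⁻¹)) ⁻¹' A := by
    ext x
    simp only [mem_preimage, mul_assoc]
  rw [measureReal_def, h1, measure_preimage_mul_right]
  rfl

end Pool.Agent.Lib.H68S
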