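import Pool.Agent.Lib.H68S.Defs

open MeasureTheory Set
open scoped Pointwise

namespace Pool.Agent.Lib.H68S

variable {G : Type*} [Group G] [TopologicalSpace G] [IsTopologicalGroup G] [CompactSpace G]
  [T2Space G] [SecondCountableTopology G] [MeasurableSpace G] [BorelSpace G]
variable {T : Type*} [CommGroup T] [TopologicalSpace T] [IsTopologicalGroup T] [CompactSpace T]
  [T2Space T] [SecondCountableTopology T] [MeasurableSpace T] [BorelSpace T]
  (τ : Measure T) [τ.IsHaarMeasure] [IsProbabilityMeasure τ]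
  {i : T →* G} (hi : Continuous i)

/-- Proof: `measureReal_nonneg`. -/
theorem fib_nonneg (A : Set G) (g h : G) : 0 ≤ fib τ i A g h :=
  measureReal_nonneg

/-- Proof: `measureReal_le_one` (or `prob_le_one`). -/
theorem fib_le_one (A : Set G) (g h : G) : fib τ i A g h ≤ 1 :=
  measureReal_le_one

/-- Proof. `g * i s * i t * (h * i s')⁻¹ = g * i (s * t * s'⁻¹) * h⁻¹` (`T` is commutative), so the
set for `(g * i s, h * i s')` is the preimage of the set for `(g, h)` under the translation
`t ↦ (s * s'⁻¹) * t` of `T`: `measure_preimage_mul`. -/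
theorem fib_shift (A : Set G) (g h : G) (s s' : T) :
    fib τ i A (g * i s) (h * i s') = fib τ i A g h := by
  have h1 : {t | g * i s * i t * (h * i s')⁻¹ ∈ A} = (fun t => (s * s'⁻¹) * t) ⁻¹' {t | g * i t * h⁻¹ ∈ A} := by
    ext t
    have h2 : g * i s * i t * (h * i s')⁻¹ = g * i ((s * s'⁻¹) * t) * h⁻¹ := by
      have h3 : s * s'⁻¹ * t = s * t * s'⁻¹ := by
        rw [mul_assoc, mul_comm s'⁻¹ t, ← mul_assoc]
      rw [h3, map_mul, map_mul, map_inv]
      group
    simp only [mem_ofPred_eq, mem_preimage, h2]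
  unfold fib
  rw [h1, measureReal_def, measure_preimage_mul]
  rfl

include hi

/-- Proof. The set `{t | g * i t * h⁻¹ ∈ A}` is open; an open set of `T` has positive measure iff it
is nonempty (`IsOpen.measure_pos_iff`; real version: `ENNReal.toReal_pos_iff`, finite measure). -/
theorem fib_pos {A : Set G} (hA : IsOpen A) (g h : G) :
    0 < fib τ i A g h ↔ ∃ t, g * i t * h⁻¹ ∈ A := by
  have ho : IsOpen {t : T | g * i t * h⁻¹ ∈ A} := by
    have h1 : IsOpen ((fun t : T => g * i t * h⁻¹) ⁻¹' A) := hA.preimage (by fun_prop)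
    exact h1
  unfold fib
  rw [measureReal_def, ENNReal.toReal_pos_iff]
  constructor
  · rintro ⟨h1, -⟩
    exact (ho.measure_pos_iff τ).1 h1
  · intro h1
    exact ⟨(ho.measure_pos_iff τ).2 h1, measure_lt_top _ _⟩

omit [CompactSpace G] [T2Space G] [SecondCountableTopology G] [MeasurableSpace G] [BorelSpace G]
  [IsTopologicalGroup T] [CompactSpace T] [T2Space T] [SecondCountableTopology T]
  [MeasurableSpace T] [BorelSpace T] [τ.IsHaarMeasure] [IsProbabilityMeasure τ] hi in
/-- Proof. `orb i V h = ⋃ t, (fun g => g * i t * h⁻¹) ⁻¹' V`. -/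
theorem isOpen_orb {V : Set G} (hV : IsOpen V) (h : G) : IsOpen (orb i V h) := by
  have h1 : orb i V h = ⋃ t, (fun g => g * i t * h⁻¹) ⁻¹' V := by
    ext g
    simp only [orb, mem_ofPred_eq, mem_iUnion, mem_preimage]
  rw [h1]
  exact isOpen_iUnion fun t => hV.preimage (by fun_prop)

omit [CompactSpace G] [T2Space G] [SecondCountableTopology G] [MeasurableSpace G] [BorelSpace G]
  [IsTopologicalGroup T] [CompactSpace T] [T2Space T] [SecondCountableTopology T]
  [MeasurableSpace T] [BorelSpace T] [τ.IsHaarMeasure] [IsProbabilityMeasure τ] hi in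
/-- Proof. `col i B h = ⋃ t, (fun l => h * i t * l⁻¹) ⁻¹' B`. -/
theorem isOpen_col {B : Set G} (hB : IsOpen B) (h : G) : IsOpen (col i B h) := by
  have h1 : col i B h = ⋃ t, (fun l => h * i t * l⁻¹) ⁻¹' B := by
    ext g
    simp only [col, mem_ofPred_eq, mem_iUnion, mem_preimage]
  rw [h1]
  exact isOpen_iUnion fun t => hB.preimage (by fun_prop)

/-- Outside `orb i V h` the fibre is zero. Proof: the set of `t` is empty. -/
theorem fib_eq_zero_of_not_orb {V : Set G} {g h : G} (hg : g ∉ orb i V h) :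
    fib τ i V g h = 0 := by
  have h1 : {t : T | g * i t * h⁻¹ ∈ V} = ∅ := by
    rw [eq_empty_iff_forall_notMem]
    exact fun t ht => hg ⟨t, ht⟩
  unfold fib
  rw [h1, measureReal_empty]

/-- Outside `col i B h` the fibre is zero. Proof: the set of `t` is empty. -/
theorem fib_eq_zero_of_not_col {B : Set G} {h l : G} (hl : l ∉ col i B h) :
    fib τ i B h l = 0 := by
  have h1 : {t : T | h * i t * l⁻¹ ∈ B} = ∅ := by
    rw [eq_empty_iff_forall_notMem]
    exact fun t ht => hl ⟨t, ht⟩
  unfold fib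
  rw [h1, measureReal_empty]

end Pool.Agent.Lib.H68S
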