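import Pool.Agent.Lib.H68S.A09
import Pool.Agent.Lib.H68S.C02

open MeasureTheory Set
open scoped Pointwise

namespace Pool.Agent.Lib.H68S

variable {G : Type*} [Group G] [TopologicalSpace G] [IsTopologicalGroup G] [CompactSpace G]
  [T2Space G] [SecondCountableTopology G] [MeasurableSpace G] [BorelSpace G]
variable {T : Type*} [CommGroup T] [TopologicalSpace T] [IsTopologicalGroup T] [CompactSpace T]
  [T2Space T] [SecondCountableTopology T] [ConnectedSpace T] [MeasurableSpace T] [BorelSpace T]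
  (τ : Measure T) [τ.IsHaarMeasure] [IsProbabilityMeasure τ]
  {i : T →* G} (hi : Continuous i)

include hi

/-- Kneser's inequality on a circle coset.

Proof. Let `X = {t | g * i t * h⁻¹ ∈ V}`, `Y = {t | h * i t * l⁻¹ ∈ B}`: open subsets of `T`,
nonempty because their measures are positive. If `t ∈ X`, `s ∈ Y` then
`g * i (t * s) * l⁻¹ = (g * i t * h⁻¹) * (h * i s * l⁻¹) ∈ V * B`, so `X * Y` is contained in
`{t | g * i t * l⁻¹ ∈ V * B}`, and `kneser` (for the group `T`) gives the claim. -/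
theorem fib_mul {V B : Set G} (hV : IsOpen V) (hB : IsOpen B) {g h l : G}
    (h1 : 0 < fib τ i V g h) (h2 : 0 < fib τ i B h l) :
    min 1 (fib τ i V g h + fib τ i B h l) ≤ fib τ i (V * B) g l := by
  have hX : IsOpen {t : T | g * i t * h⁻¹ ∈ V} := by
    have h1 : IsOpen ((fun t : T => g * i t * h⁻¹) ⁻¹' V) := hV.preimage (by fun_prop)
    exact h1
  have hY : IsOpen {t : T | h * i t * l⁻¹ ∈ B} := by
    have h1 : IsOpen ((fun t : T => h * i t * l⁻¹) ⁻¹' B) := hB.preimage (by fun_prop)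
    exact h1
  refine (kneser τ hX hY ((fib_pos τ hi hV g h).1 h1) ((fib_pos τ hi hB h l).1 h2)).trans ?_
  refine measureReal_mono ?_
  rintro _ ⟨t, ht, s, hs, rfl⟩
  have h3 : g * i (t * s) * l⁻¹ = (g * i t * h⁻¹) * (h * i s * l⁻¹) := by
    rw [map_mul]
    group
  have h4 : (g * i t * h⁻¹) * (h * i s * l⁻¹) ∈ V * B := Set.mul_mem_mul ht hs
  rw [← h3] at h4
  exact h4

end Pool.Agent.Lib.H68S
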