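import Pool.Agent.Lib.H68S.C01
import Pool.Agent.Lib.H68S.C02

open MeasureTheory Set
open scoped Pointwise

namespace Pool.Agent.Lib.H68S

variable {G : Type*} [Group G] [TopologicalSpace G] [IsTopologicalGroup G] [CompactSpace G]
  [T2Space G] [SecondCountableTopology G] [MeasurableSpace G] [BorelSpace G]
  (μ : Measure G) [μ.IsHaarMeasure] [IsProbabilityMeasure μ]
variable {T : Type*} [CommGroup T] [TopologicalSpace T] [IsTopologicalGroup T] [CompactSpace T]
  [T2Space T] [SecondCountableTopology T] [MeasurableSpace T] [BorelSpace T]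
  (τ : Measure T) [τ.IsHaarMeasure] [IsProbabilityMeasure τ]
  {i : T →* G} (hi : Continuous i)

include hi

/-- The section bound used in (2.8).

Proof. Let `x = g * i t * e⁻¹` and `W = {y | x⁻¹ * y ∈ B ∧ y ∈ B}`, an open set with
`ov μ B x = μ.real W = ∫ l, fib τ i W g l` (`fib_int_right`). For every `l`, if
`y = g * i s * l⁻¹ ∈ W` then `y ∈ B` and `x⁻¹ * y = e * i (t⁻¹ * s) * l⁻¹ ∈ B`; so
`fib τ i W g l ≤ fib τ i B g l` and `fib τ i W g l ≤ fib τ i B e l` (the second set is a translate
in `T`: `measure_preimage_mul`). Integrate (`integral_mono`; bounded measurable functions are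
integrable: `Integrable.of_bound`, measurability from `fib_meas`). -/
theorem ov_le_int {B : Set G} (hB : IsOpen B) (g e : G) (t : T) :
    ov μ B (g * i t * e⁻¹) ≤ ∫ l, min (fib τ i B e l) (fib τ i B g l) ∂μ := by
  have hW : IsOpen {y : G | (g * i t * e⁻¹)⁻¹ * y ∈ B ∧ y ∈ B} := by
    have h1 : IsOpen ((fun y : G => (g * i t * e⁻¹)⁻¹ * y) ⁻¹' B) := hB.preimage (by fun_prop)
    exact h1.inter hB
  have hov : ov μ B (g * i t * e⁻¹) = ∫ l, fib τ i {y : G | (g * i t * e⁻¹)⁻¹ * y ∈ B ∧ y ∈ B} g l ∂μ :=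
    (fib_int_right μ τ hi hW.measurableSet g).symm
  have hm : ∀ {A : Set G} (x : G), IsOpen A → Measurable fun l : G => fib τ i A x l := by
    intro A x hA
    have h1 := fib_meas τ hi hA.measurableSet
    exact h1.comp (measurable_const.prodMk measurable_id)
  have hint : ∀ {A : Set G} (x : G), IsOpen A → Integrable (fun l : G => fib τ i A x l) μ := by
    intro A x hA
    refine Integrable.of_bound (hm x hA).aestronglyMeasurable 1 (Filter.Eventually.of_forall fun l => ?_)
    rw [Real.norm_eq_abs, abs_of_nonneg (fib_nonneg τ A x l)]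
    exact fib_le_one τ A x l
  rw [hov]
  refine integral_mono (hint g hW) ((hint e hB).inf (hint g hB)) fun l => le_min ?_ ?_
  · have h1 : fib τ i {y : G | (g * i t * e⁻¹)⁻¹ * y ∈ B ∧ y ∈ B} g l ≤
        τ.real ((fun s => t⁻¹ * s) ⁻¹' {s | e * i s * l⁻¹ ∈ B}) := by
      refine measureReal_mono ?_
      intro s hs
      have h2 : (g * i t * e⁻¹)⁻¹ * (g * i s * l⁻¹) ∈ B := hs.1
      have h3 : (g * i t * e⁻¹)⁻¹ * (g * i s * l⁻¹) = e * i (t⁻¹ * s) * l⁻¹ := by
        rw [map_mul, map_inv]
        group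
      rw [h3] at h2
      exact h2
    refine h1.trans (le_of_eq ?_)
    rw [measureReal_def, measure_preimage_mul]
    rfl
  · refine measureReal_mono ?_
    intro s hs
    exact hs.2

end Pool.Agent.Lib.H68S
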