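import Pool.Agent.Lib.H68S.A02
import Pool.Agent.Lib.H68S.C01
import Pool.Agent.Lib.H68S.C02

open MeasureTheory Set
open scoped Pointwise

namespace Pool.Agent.Lib.H68S

variable {G : Type*} [Group G] [TopologicalSpace G] [IsTopologicalGroup G] [CompactSpace G]
  [T2Space G] [SecondCountableTopology G] [MeasurableSpace G] [BorelSpace G]
  (μ : Measure G) [μ.IsHaarMeasure] [IsProbabilityMeasure μ]
variable {T : Type*} [CommGroup T] [TopologicalSpace T] [IsTopologicalGroup T] [CompactSpace T]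
  [T2Space T] [SecondCountableTopology T] [MeasurableSpace T] [BorelSpace T]
  (τ : Measure T) [τ.IsHaarMeasure] [IsProbabilityMeasure τ]
  {i : T →* G} (hi : Continuous i)

include hi

/-- The formula `b p(h) = ∫ f (1 - f)`, `f = fib(B; h, .)`.

Proof. Write `b = μ(B)`. For `t : T` let `x = h * i t * h⁻¹` and
`W_t = {y | x⁻¹ * y ∈ B ∧ y ∈ B}`, so `ov μ B x = μ(W_t) = ∫ l, fib τ i W_t h l` (`fib_int_right`),
and `fib τ i W_t h l = τ.real {s | h * i (t⁻¹ * s) * l⁻¹ ∈ B ∧ h * i s * l⁻¹ ∈ B}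
= τ.real {s | t⁻¹ * s ∈ F_l ∧ s ∈ F_l}` with `F_l = {s | h * i s * l⁻¹ ∈ B}`, i.e. `ov τ F_l t`.
Exchange the integrals over `t` and `l` (Fubini, everything is bounded and jointly measurable):
`∫ t, ov μ B (h * i t * h⁻¹) ∂τ = ∫ l, (∫ t, ov τ F_l t ∂τ) ∂μ = ∫ l, (τ F_l)^2 = ∫ l, f(l)^2`
(`ov_mean` of A02 for the group `T`, or directly). As `∫ f = b` (`fib_int_right`),
`b p(h) = b - ∫ f^2 = ∫ f (1 - f)`. (It may be easiest to write everything as one triple integral
of the indicator of the open set `{(t, l, s) | ..}`.) -/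
theorem pp_formula {B : Set G} (hB : IsOpen B) (hne : B.Nonempty) (h : G) :
    μ.real B * pp μ τ i B h = ∫ l, fib τ i B h l * (1 - fib τ i B h l) ∂μ := by
  have hb0 : 0 < μ.real B := by
    rw [measureReal_def]
    exact ENNReal.toReal_pos (hB.measure_pos μ hne).ne' (measure_ne_top _ _)
  -- the fibre function
  have hfm : Measurable fun l : G => fib τ i B h l := by
    have h1 := fib_meas τ hi hB.measurableSet
    exact h1.comp (measurable_const.prodMk measurable_id)
  have hf0 : ∀ l, 0 ≤ fib τ i B h l := fun l => fib_nonneg τ B h l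
  have hf1 : ∀ l, fib τ i B h l ≤ 1 := fun l => fib_le_one τ B h l
  have hfi : Integrable (fun l : G => fib τ i B h l) μ := by
    refine Integrable.of_bound hfm.aestronglyMeasurable 1 (Filter.Eventually.of_forall fun l => ?_)
    rw [Real.norm_eq_abs, abs_of_nonneg (hf0 l)]
    exact hf1 l
  have hfi2 : Integrable (fun l : G => fib τ i B h l ^ 2) μ := by
    refine Integrable.of_bound (hfm.pow_const 2).aestronglyMeasurable 1 (Filter.Eventually.of_forall fun l => ?_)
    rw [Real.norm_eq_abs, abs_of_nonneg (sq_nonneg _)]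
    exact pow_le_one₀ (hf0 l) (hf1 l)
  -- the overlap as an integral
  have hov : ∀ t : T, ov μ B (h * i t * h⁻¹) = ∫ l, ov τ {s | h * i s * l⁻¹ ∈ B} t ∂μ := by
    intro t
    have hW : IsOpen {y : G | (h * i t * h⁻¹)⁻¹ * y ∈ B ∧ y ∈ B} := by
      have h1 : IsOpen ((fun y : G => (h * i t * h⁻¹)⁻¹ * y) ⁻¹' B) := hB.preimage (by fun_prop)
      exact h1.inter hB
    have h1 := fib_int_right μ τ hi hW.measurableSet h
    have h2 : ov μ B (h * i t * h⁻¹) = μ.real {y : G | (h * i t * h⁻¹)⁻¹ * y ∈ B ∧ y ∈ B} := rfl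
    rw [h2, ← h1]
    refine integral_congr_ae (Filter.Eventually.of_forall fun l => ?_)
    have h3 : ∀ s : T, (h * i t * h⁻¹)⁻¹ * (h * i s * l⁻¹) = h * i (t⁻¹ * s) * l⁻¹ := by
      intro s
      rw [map_mul, map_inv]
      group
    have h4 : {s : T | h * i s * l⁻¹ ∈ {y : G | (h * i t * h⁻¹)⁻¹ * y ∈ B ∧ y ∈ B}} =
        {s : T | t⁻¹ * s ∈ {s | h * i s * l⁻¹ ∈ B} ∧ s ∈ {s | h * i s * l⁻¹ ∈ B}} := by
      ext s
      simp only [mem_ofPred_eq, h3]
    simp only [fib, ov]
    rw [h4]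
  -- joint measurability of the overlaps of the fibres
  have hc1 : Continuous fun q : (T × G) × T => h * i (q.1.1⁻¹ * q.2) * q.1.2⁻¹ := by fun_prop
  have hc2 : Continuous fun q : (T × G) × T => h * i q.2 * q.1.2⁻¹ := by fun_prop
  have hE : MeasurableSet ((fun q : (T × G) × T => h * i (q.1.1⁻¹ * q.2) * q.1.2⁻¹) ⁻¹' B ∩
      (fun q : (T × G) × T => h * i q.2 * q.1.2⁻¹) ⁻¹' B) :=
    (hc1.measurable hB.measurableSet).inter (hc2.measurable hB.measurableSet)
  have hovm : Measurable fun p : T × G => ov τ {s | h * i s * p.2⁻¹ ∈ B} p.1 :=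
    (measurable_measure_prodMk_left (ν := τ) hE).ennreal_toReal
  have hov1 : ∀ (t : T) (l : G), |ov τ {s | h * i s * l⁻¹ ∈ B} t| ≤ 1 := by
    intro t l
    unfold ov
    rw [abs_of_nonneg measureReal_nonneg]
    exact measureReal_le_one
  have hovi : Integrable (fun p : T × G => ov τ {s | h * i s * p.2⁻¹ ∈ B} p.1) (τ.prod μ) :=
    Integrable.of_bound hovm.aestronglyMeasurable 1 (Filter.Eventually.of_forall fun p => hov1 p.1 p.2)
  have hswap : ∫ t, ov μ B (h * i t * h⁻¹) ∂τ = ∫ l, fib τ i B h l ^ 2 ∂μ := by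
    simp only [hov]
    rw [integral_integral_swap (f := fun t l => ov τ {s | h * i s * l⁻¹ ∈ B} t) hovi]
    refine integral_congr_ae (Filter.Eventually.of_forall fun l => ?_)
    have hF : MeasurableSet {s : T | h * i s * l⁻¹ ∈ B} := by
      have h1 : Continuous fun s : T => h * i s * l⁻¹ := by fun_prop
      exact h1.measurable hB.measurableSet
    exact ov_mean τ hF
  have hovi' : Integrable (fun t : T => ov μ B (h * i t * h⁻¹)) τ := by
    simp only [hov]
    exact hovi.integral_prod_left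
  have hpp : pp μ τ i B h = 1 - (∫ t, ov μ B (h * i t * h⁻¹) ∂τ) / μ.real B := by
    unfold pp rho
    rw [integral_sub (integrable_const _) (hovi'.div_const _), integral_div, integral_const, probReal_univ, one_smul]
  have hrhs : ∫ l, fib τ i B h l * (1 - fib τ i B h l) ∂μ = μ.real B - ∫ l, fib τ i B h l ^ 2 ∂μ := by
    have h1 : ∀ l : G, fib τ i B h l * (1 - fib τ i B h l) = fib τ i B h l - fib τ i B h l ^ 2 := fun l => by ring
    simp only [h1]
    rw [integral_sub hfi hfi2, fib_int_right μ τ hi hB.measurableSet h]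
  rw [hrhs, hpp, hswap]
  field_simp

end Pool.Agent.Lib.H68S
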