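import Pool.Agent.Lib.H68S.A01
import Pool.Agent.Lib.H68S.A02

open MeasureTheory Set
open scoped Pointwise

namespace Pool.Agent.Lib.H68S

variable {G : Type*} [Group G] [TopologicalSpace G] [IsTopologicalGroup G] [CompactSpace G]
  [T2Space G] [SecondCountableTopology G] [MeasurableSpace G] [BorelSpace G]
  (μ : Measure G) [μ.IsHaarMeasure] [IsProbabilityMeasure μ]

/-- Proof. `ov_cont`. -/
theorem rho_cont {B : Set G} (hB : IsOpen B) : Continuous (rho μ B) :=
  continuous_const.sub ((ov_cont μ hB).div_const _)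

/-- Proof. `ov_le`: the quotient is at most one (`div_le_one_of_le₀`). -/
theorem rho_nonneg (B : Set G) (x : G) : 0 ≤ rho μ B x :=
  sub_nonneg.2 (div_le_one_of_le₀ (ov_le μ B x) measureReal_nonneg)

/-- Proof. `ov_nonneg`. -/
theorem rho_le_one (B : Set G) (x : G) : rho μ B x ≤ 1 :=
  sub_le_self _ (div_nonneg (ov_nonneg μ B x) measureReal_nonneg)

theorem d01_pos {B : Set G} (hB : IsOpen B) (hne : B.Nonempty) : 0 < μ.real B := by
  rw [measureReal_def]
  exact ENNReal.toReal_pos (hB.measure_pos μ hne).ne' (measure_ne_top _ _)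

/-- Proof. `μ(B) > 0` (open and nonempty) and `ov_one`. -/
theorem rho_one {B : Set G} (hB : IsOpen B) (hne : B.Nonempty) : rho μ B 1 = 0 := by
  unfold rho
  rw [ov_one, div_self (d01_pos μ hB hne).ne', sub_self]

/-- Proof. `ov_inv`. -/
theorem rho_inv (B : Set G) (x : G) : rho μ B x⁻¹ = rho μ B x := by
  unfold rho
  rw [ov_inv]

/-- The triangle inequality `rho(xy) ≤ rho(x) + rho(y)`.

Proof. With `b = μ(B) > 0` the claim is `ov x + ov y ≤ b + ov (x y)`. The sets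
`E = {z | (x*y)⁻¹ * z ∈ B}` (that is `xyB`), `F = {z | x⁻¹ * z ∈ B}` (`xB`) and `B` all have measure
`b` (left invariance). `μ(E ∩ F) = ov y` (translate by `x`: `z = x * z'`), `μ(F ∩ B) = ov x`,
`μ(E ∩ B) = ov (x y)`, and `μ(E ∩ F) + μ(F ∩ B) = μ((E ∩ F) ∪ (F ∩ B)) + μ(E ∩ F ∩ B)
≤ μ(F) + μ(E ∩ B)` (`measureReal_union_add_inter`). -/
theorem rho_mul {B : Set G} (hB : IsOpen B) (hne : B.Nonempty) (x y : G) :
    rho μ B (x * y) ≤ rho μ B x + rho μ B y := by
  have hb := d01_pos μ hB hne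
  have key : ov μ B x + ov μ B y ≤ μ.real B + ov μ B (x * y) := by
    have hF : IsOpen {z : G | x⁻¹ * z ∈ B} := by
      have h1 : IsOpen ((fun z : G => x⁻¹ * z) ⁻¹' B) := hB.preimage (by fun_prop)
      exact h1
    have hE : IsOpen {z : G | (x * y)⁻¹ * z ∈ B} := by
      have h1 : IsOpen ((fun z : G => (x * y)⁻¹ * z) ⁻¹' B) := hB.preimage (by fun_prop)
      exact h1
    have hFb : μ.real {z : G | x⁻¹ * z ∈ B} = μ.real B := by
      have h1 : {z : G | x⁻¹ * z ∈ B} = (fun z => x⁻¹ * z) ⁻¹' B := rfl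
      rw [h1, measureReal_def, measure_preimage_mul]
      rfl
    have h1 : ov μ B y = μ.real ({z : G | (x * y)⁻¹ * z ∈ B} ∩ {z : G | x⁻¹ * z ∈ B}) := by
      have h2 : {z : G | (x * y)⁻¹ * z ∈ B} ∩ {z : G | x⁻¹ * z ∈ B} = (fun z => x⁻¹ * z) ⁻¹' {z | y⁻¹ * z ∈ B ∧ z ∈ B} := by
        ext z
        have h3 : (x * y)⁻¹ * z = y⁻¹ * (x⁻¹ * z) := by group
        simp only [mem_inter_iff, mem_ofPred_eq, mem_preimage, h3]
      rw [h2, measureReal_def, measure_preimage_mul]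
      rfl
    have h2 : ov μ B x = μ.real ({z : G | x⁻¹ * z ∈ B} ∩ B) := rfl
    have h3 : ov μ B (x * y) = μ.real ({z : G | (x * y)⁻¹ * z ∈ B} ∩ B) := rfl
    have h4 := measureReal_union_add_inter (μ := μ) (s := {z : G | (x * y)⁻¹ * z ∈ B} ∩ {z : G | x⁻¹ * z ∈ B})
      (t := {z : G | x⁻¹ * z ∈ B} ∩ B) (hF.inter hB).measurableSet
    have h5 : μ.real (({z : G | (x * y)⁻¹ * z ∈ B} ∩ {z : G | x⁻¹ * z ∈ B}) ∪ ({z : G | x⁻¹ * z ∈ B} ∩ B)) ≤
        μ.real {z : G | x⁻¹ * z ∈ B} :=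
      measureReal_mono (union_subset inter_subset_right inter_subset_left)
    have h6 : μ.real (({z : G | (x * y)⁻¹ * z ∈ B} ∩ {z : G | x⁻¹ * z ∈ B}) ∩ ({z : G | x⁻¹ * z ∈ B} ∩ B)) ≤
        μ.real ({z : G | (x * y)⁻¹ * z ∈ B} ∩ B) :=
      measureReal_mono fun z hz => ⟨hz.1.1, hz.2.2⟩
    rw [h1, h2, h3]
    rw [hFb] at h5
    linarith
  unfold rho
  have h1 : (ov μ B x + ov μ B y) / μ.real B ≤ (μ.real B + ov μ B (x * y)) / μ.real B :=
    div_le_div_of_nonneg_right key hb.le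
  rw [add_div, add_div, div_self hb.ne'] at h1
  linarith

/-- Proof. `ov_mean`: `∫ ov = b^2`. -/
theorem rho_mean {B : Set G} (hB : IsOpen B) (hne : B.Nonempty) :
    ∫ x, rho μ B x ∂μ = 1 - μ.real B := by
  have hb := d01_pos μ hB hne
  have hc := ov_cont μ hB
  have hi : Integrable (ov μ B) μ := by
    refine Integrable.of_bound hc.aestronglyMeasurable 1 (Filter.Eventually.of_forall fun x => ?_)
    rw [Real.norm_eq_abs, abs_of_nonneg (ov_nonneg μ B x)]
    exact (ov_le μ B x).trans measureReal_le_one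
  unfold rho
  rw [integral_sub (integrable_const _) (hi.div_const _), integral_div, ov_mean μ hB.measurableSet, integral_const,
    probReal_univ, one_smul, sq, mul_div_assoc, div_self hb.ne', mul_one]

end Pool.Agent.Lib.H68S
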