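import Pool.Agent.Lib.H68S.D01

open MeasureTheory Set
open scoped Pointwise

namespace Pool.Agent.Lib.H68S

variable {G : Type*} [Group G] [TopologicalSpace G] [IsTopologicalGroup G] [CompactSpace G]
  [T2Space G] [SecondCountableTopology G] [MeasurableSpace G] [BorelSpace G]
  (μ : Measure G) [μ.IsHaarMeasure] [IsProbabilityMeasure μ]
variable {T : Type*} [CommGroup T] [TopologicalSpace T] [IsTopologicalGroup T] [CompactSpace T]
  [T2Space T] [SecondCountableTopology T] [MeasurableSpace T] [BorelSpace T]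
  {i : T →* G} (hi : Continuous i)

/-- Proof. `ciInf_le`: bounded below by `0` (`rho_nonneg`). -/
theorem dd_le (i : T →* G) (B : Set G) (g h : G) (t : T) :
    dd μ i B g h ≤ rho μ B (g * i t * h⁻¹) := by
  unfold dd
  exact ciInf_le ⟨0, by rintro _ ⟨t, rfl⟩; exact rho_nonneg μ B _⟩ t

/-- Proof. `Real.iInf_nonneg`, `rho_nonneg`. -/
theorem dd_nonneg (i : T →* G) (B : Set G) (g h : G) : 0 ≤ dd μ i B g h :=
  Real.iInf_nonneg fun _ => rho_nonneg μ B _

/-- Proof. `dd_le` with `t = 1` and `rho_le_one`. -/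
theorem dd_le_one (i : T →* G) (B : Set G) (g h : G) : dd μ i B g h ≤ 1 :=
  (dd_le μ i B g h 1).trans (rho_le_one μ B _)

/-- Proof. `dd_le` with `t = 1`, `rho_one`, `dd_nonneg`. -/
theorem dd_self (i : T →* G) {B : Set G} (hB : IsOpen B) (hne : B.Nonempty) (g : G) :
    dd μ i B g g = 0 := by
  refine le_antisymm ?_ (dd_nonneg μ i B g g)
  have h := dd_le μ i B g g 1
  rwa [map_one, mul_one, mul_inv_cancel, rho_one μ hB hne] at h

/-- Proof. `(g * i t * h⁻¹)⁻¹ = h * i t⁻¹ * g⁻¹`, `rho_inv`; `t ↦ t⁻¹` is a bijection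
(`Equiv.iInf_congr`, or `le_antisymm` with `le_ciInf` and `dd_le`). -/
theorem dd_symm (i : T →* G) (B : Set G) (g h : G) : dd μ i B g h = dd μ i B h g := by
  have key : ∀ g h : G, dd μ i B g h ≤ dd μ i B h g := by
    intro g h
    refine le_ciInf fun t => ?_
    have h1 := dd_le μ i B g h t⁻¹
    have h2 : g * i t⁻¹ * h⁻¹ = (h * i t * g⁻¹)⁻¹ := by
      rw [map_inv]; group
    rwa [h2, rho_inv] at h1
  exact le_antisymm (key g h) (key h g)

/-- Proof. `g * i s * i t * (h * i s')⁻¹ = g * i (s * t * s'⁻¹) * h⁻¹`, and `t ↦ s * t * s'⁻¹` is a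
bijection of `T`. -/
theorem dd_shift (i : T →* G) (B : Set G) (g h : G) (s s' : T) :
    dd μ i B (g * i s) (h * i s') = dd μ i B g h := by
  refine le_antisymm (le_ciInf fun t => ?_) (le_ciInf fun t => ?_)
  · have h1 := dd_le μ i B (g * i s) (h * i s') (s⁻¹ * t * s')
    have h2 : g * i s * i (s⁻¹ * t * s') * (h * i s')⁻¹ = g * i t * h⁻¹ := by
      simp only [map_mul, map_inv]; group
    rwa [h2] at h1
  · have h1 := dd_le μ i B g h (s * t * s'⁻¹)
    have h2 : g * i (s * t * s'⁻¹) * h⁻¹ = g * i s * i t * (h * i s')⁻¹ := by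
      simp only [map_mul, map_inv]; group
    rwa [h2] at h1

include hi

/-- The infimum is attained. Proof. `t ↦ rho μ B (g * i t * h⁻¹)` is continuous (`rho_cont`) on the
compact nonempty space `T`: `IsCompact.exists_isMinOn` on `univ`, then `le_antisymm`. -/
theorem dd_exists {B : Set G} (hB : IsOpen B) (g h : G) :
    ∃ t, rho μ B (g * i t * h⁻¹) = dd μ i B g h := by
  have hc : Continuous fun t : T => rho μ B (g * i t * h⁻¹) :=
    (rho_cont μ hB).comp (by fun_prop)
  obtain ⟨t, -, ht⟩ := isCompact_univ.exists_isMinOn (univ_nonempty (α := T)) hc.continuousOn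
  refine ⟨t, le_antisymm (le_ciInf fun s => ?_) (dd_le μ i B g h t)⟩
  exact ht (mem_univ s)

/-- Proof. `dd_exists` twice: `g * i t * h⁻¹` and `h * i s * l⁻¹` have the product
`g * i (t * s) * l⁻¹`; `rho_mul`. -/
theorem dd_tri {B : Set G} (hB : IsOpen B) (hne : B.Nonempty) (g h l : G) :
    dd μ i B g l ≤ dd μ i B g h + dd μ i B h l := by
  obtain ⟨t, ht⟩ := dd_exists μ hi hB g h
  obtain ⟨s, hs⟩ := dd_exists μ hi hB h l
  rw [← ht, ← hs]
  refine le_trans ?_ (rho_mul μ hB hne _ _)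
  have h1 := dd_le μ i B g l (t * s)
  have h2 : g * i (t * s) * l⁻¹ = g * i t * h⁻¹ * (h * i s * l⁻¹) := by
    simp only [map_mul]; group
  rwa [h2] at h1

/-- Proof. `|dd e g - dd e g₀| ≤ dd g g₀ ≤ rho (g * g₀⁻¹)` (`dd_tri`, `dd_symm`, `dd_le` with
`t = 1`), and `rho (g * g₀⁻¹) → rho 1 = 0` as `g → g₀` (`rho_cont`, `rho_one`). -/
theorem dd_cont {B : Set G} (hB : IsOpen B) (hne : B.Nonempty) (e : G) :
    Continuous (fun g => dd μ i B e g) := by
  refine continuous_iff_continuousAt.2 fun g₀ => ?_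
  have hc : Continuous fun g : G => rho μ B (g * g₀⁻¹) := (rho_cont μ hB).comp (by fun_prop)
  have h1 : Filter.Tendsto (fun g : G => rho μ B (g * g₀⁻¹)) (nhds g₀) (nhds 0) := by
    have h2 := hc.tendsto g₀
    rwa [mul_inv_cancel, rho_one μ hB hne] at h2
  change Filter.Tendsto (fun g => dd μ i B e g) (nhds g₀) (nhds (dd μ i B e g₀))
  rw [tendsto_iff_norm_sub_tendsto_zero]
  refine squeeze_zero (fun g => norm_nonneg _) (fun g => ?_) h1
  have h3 : dd μ i B g g₀ ≤ rho μ B (g * g₀⁻¹) := by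
    have := dd_le μ i B g g₀ 1
    rwa [map_one, mul_one] at this
  have h4 := dd_tri μ hi hB hne e g₀ g
  have h5 := dd_tri μ hi hB hne e g g₀
  rw [dd_symm μ i B g₀ g] at h4
  rw [Real.norm_eq_abs, abs_le]
  constructor <;> linarith

end Pool.Agent.Lib.H68S
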