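import Pool.Agent.Lib.H68S.D02

open MeasureTheory Set
open scoped Pointwise

namespace Pool.Agent.Lib.H68S

variable {G : Type*} [Group G] [TopologicalSpace G] [IsTopologicalGroup G] [CompactSpace G]
  [T2Space G] [SecondCountableTopology G] [MeasurableSpace G] [BorelSpace G]
  (μ : Measure G) [μ.IsHaarMeasure] [IsProbabilityMeasure μ]
variable {T : Type*} [CommGroup T] [TopologicalSpace T] [IsTopologicalGroup T] [CompactSpace T]
  [T2Space T] [SecondCountableTopology T] [MeasurableSpace T] [BorelSpace T]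
  (τ : Measure T) [τ.IsHaarMeasure] [IsProbabilityMeasure τ]
  {i : T →* G} (hi : Continuous i)

/-- Proof. `integral_nonneg`, `rho_nonneg`. -/
theorem pp_nonneg (i : T →* G) (B : Set G) (h : G) : 0 ≤ pp μ τ i B h := by
  exact integral_nonneg fun t => rho_nonneg μ B _

include hi

/-- Proof. The integrand is continuous on the compact space `T`, hence integrable
(`Continuous.integrableOn_isCompact`, or `Integrable.of_bound` with bound `1`). -/
theorem pp_int {B : Set G} (hB : IsOpen B) (h : G) :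
    Integrable (fun t => rho μ B (h * i t * h⁻¹)) τ := by
  exact ((rho_cont μ hB).comp
    ((continuous_const.mul hi).mul continuous_const)).integrable_of_hasCompactSupport
    (HasCompactSupport.of_compactSpace _)

/-- The estimate (2.1).

Proof. Let `x₀ = g * i s * h⁻¹` with `rho(x₀) = d(g, h)` (`dd_exists`). For every `t`,
`g * i t * g⁻¹ = x₀ * (h * i t * h⁻¹) * x₀⁻¹` (because `i s * i t * (i s)⁻¹ = i t`), so
`rho (g * i t * g⁻¹) ≤ rho (h * i t * h⁻¹) + 2 d(g, h)` (`rho_mul`, `rho_inv`). Integrate. -/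
theorem pp_lip {B : Set G} (hB : IsOpen B) (hne : B.Nonempty) (g h : G) :
    pp μ τ i B g ≤ pp μ τ i B h + 2 * dd μ i B g h := by
  obtain ⟨s, hs⟩ := dd_exists μ hi hB g h
  have key : ∀ t, rho μ B (g * i t * g⁻¹) ≤
      rho μ B (h * i t * h⁻¹) + 2 * dd μ i B g h := by
    intro t
    have e1 : g * i t * g⁻¹ =
        (g * i s * h⁻¹) * (h * i t * h⁻¹) * (g * i s * h⁻¹)⁻¹ := by
      have e2 : i t * i s = i s * i t := by rw [← map_mul, mul_comm, map_mul]
      calc g * i t * g⁻¹ = g * (i t * i s) * (i s)⁻¹ * g⁻¹ := by group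
        _ = g * (i s * i t) * (i s)⁻¹ * g⁻¹ := by rw [e2]
        _ = _ := by group
    have h1 := rho_mul μ hB hne ((g * i s * h⁻¹) * (h * i t * h⁻¹)) (g * i s * h⁻¹)⁻¹
    have h2 := rho_mul μ hB hne (g * i s * h⁻¹) (h * i t * h⁻¹)
    rw [rho_inv, ← e1, hs] at h1
    rw [hs] at h2
    linarith
  calc pp μ τ i B g ≤ ∫ t, (rho μ B (h * i t * h⁻¹) + 2 * dd μ i B g h) ∂τ :=
        integral_mono (pp_int μ τ hi hB g)
          ((pp_int μ τ hi hB h).add (integrable_const _)) key
    _ = _ := by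
        rw [integral_add (pp_int μ τ hi hB h) (integrable_const _), integral_const]
        simp [pp]

/-- Proof. `|p(g) - p(g₀)| ≤ 2 d(g, g₀)` (`pp_lip` and `dd_symm`), and `g ↦ d(g₀, g)` is continuous
with value `0` at `g₀` (`dd_cont`, `dd_self`). -/
theorem pp_cont {B : Set G} (hB : IsOpen B) (hne : B.Nonempty) :
    Continuous (fun h => pp μ τ i B h) := by
  rw [continuous_iff_continuousAt]
  intro g₀
  rw [ContinuousAt, tendsto_iff_dist_tendsto_zero]
  have h1 : Filter.Tendsto (fun g => 2 * dd μ i B g₀ g) (nhds g₀) (nhds 0) := by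
    have h2 := ((dd_cont μ hi hB hne g₀).tendsto g₀).const_mul 2
    rw [dd_self μ i hB hne, mul_zero] at h2
    exact h2
  refine squeeze_zero (fun _ => dist_nonneg) (fun g => ?_) h1
  rw [Real.dist_eq, abs_sub_le_iff]
  have h3 := pp_lip μ τ hi hB hne g g₀
  have h4 := pp_lip μ τ hi hB hne g₀ g
  rw [dd_symm μ i B g g₀] at h3
  constructor <;> linarith

/-- The estimate (2.2).

Proof. For every `s : T`: `h * i t * h⁻¹ = (h * i s * h⁻¹) * (h * i (s⁻¹ * t) * h⁻¹)`, so
`rho (h * i t * h⁻¹) ≤ rho (h * i s * h⁻¹) + rho (h * i (s⁻¹ * t) * h⁻¹)`. Integrate over `s`: the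
second term gives `p(h)` as well, since `s ↦ s⁻¹ * t` preserves `τ`
(`integral_inv_eq_self`, `integral_mul_right_eq_self`). -/
theorem rho_le_pp {B : Set G} (hB : IsOpen B) (hne : B.Nonempty) (h : G) (t : T) :
    rho μ B (h * i t * h⁻¹) ≤ 2 * pp μ τ i B h := by
  have e1 : ∫ s, rho μ B (h * i (s⁻¹ * t) * h⁻¹) ∂τ = pp μ τ i B h := by
    have e2 := integral_inv_eq_self (fun s => rho μ B (h * i (s * t) * h⁻¹)) τ
    have e3 := integral_mul_right_eq_self (μ := τ) (fun s => rho μ B (h * i s * h⁻¹)) t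
    rw [e2, e3, pp]
  have i1 : Integrable (fun s => rho μ B (h * i (s⁻¹ * t) * h⁻¹)) τ :=
    ((rho_cont μ hB).comp ((continuous_const.mul (hi.comp
      (continuous_inv.mul continuous_const))).mul
        continuous_const)).integrable_of_hasCompactSupport (HasCompactSupport.of_compactSpace _)
  have key : ∀ s, rho μ B (h * i t * h⁻¹) ≤
      rho μ B (h * i s * h⁻¹) + rho μ B (h * i (s⁻¹ * t) * h⁻¹) := by
    intro s
    have e4 : h * i t * h⁻¹ = (h * i s * h⁻¹) * (h * i (s⁻¹ * t) * h⁻¹) := by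
      rw [map_mul, map_inv]
      group
    rw [e4]
    exact rho_mul μ hB hne _ _
  calc rho μ B (h * i t * h⁻¹) = ∫ _s, rho μ B (h * i t * h⁻¹) ∂τ := by simp
    _ ≤ ∫ s, (rho μ B (h * i s * h⁻¹) + rho μ B (h * i (s⁻¹ * t) * h⁻¹)) ∂τ :=
        integral_mono (integrable_const _) ((pp_int μ τ hi hB h).add i1) key
    _ = 2 * pp μ τ i B h := by
        rw [integral_add (pp_int μ τ hi hB h) i1, e1, pp]
        ring

end Pool.Agent.Lib.H68S
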