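import Pool.Agent.Lib.H68S.D03

open MeasureTheory Set
open scoped Pointwise

namespace Pool.Agent.Lib.H68S

variable {G : Type*} [Group G] [TopologicalSpace G] [IsTopologicalGroup G] [CompactSpace G]
  [T2Space G] [SecondCountableTopology G] [MeasurableSpace G] [BorelSpace G]
  (μ : Measure G) [μ.IsHaarMeasure] [IsProbabilityMeasure μ]
variable {T : Type*} [CommGroup T] [TopologicalSpace T] [IsTopologicalGroup T] [CompactSpace T]
  [T2Space T] [SecondCountableTopology T] [MeasurableSpace T] [BorelSpace T]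
  (τ : Measure T) [τ.IsHaarMeasure] [IsProbabilityMeasure τ]
  {i : T →* G} (hi : Continuous i)

include hi

/-- The estimate (2.3).

Proof. `1 - μ(B) = ∫ rho dμ` (`rho_mean`). For every `t`, `∫ g, rho (g * i t * e⁻¹) = ∫ rho` (right
invariance: `integral_mul_right_eq_self`), so
`1 - μ(B) = ∫ t, ∫ g, rho (g * i t * e⁻¹) = ∫ g, ∫ t, rho (g * i t * e⁻¹)` (Fubini; continuous
functions on compact spaces). For fixed `g` let `s` be such that `rho (g * i s * e⁻¹) = d(g, e)`
(`dd_exists`). Then `g * i t * e⁻¹ = (g * i s * e⁻¹) * (e * i (s⁻¹ * t) * e⁻¹)`, so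
`∫ t, rho (g * i t * e⁻¹) ≤ d(g, e) + p(e)` (translation invariance of `τ`). Integrate over `g`. -/
theorem mean_dd {B : Set G} (hB : IsOpen B) (hne : B.Nonempty) (e : G) :
    1 - μ.real B ≤ pp μ τ i B e + ∫ g, dd μ i B g e ∂μ := by
  have hc2 : Continuous (fun q : G × T => rho μ B (q.1 * i q.2 * e⁻¹)) :=
    (rho_cont μ hB).comp ((continuous_fst.mul (hi.comp continuous_snd)).mul continuous_const)
  have hint : Integrable (Function.uncurry fun (g : G) (t : T) => rho μ B (g * i t * e⁻¹))
      (μ.prod τ) :=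
    hc2.integrable_of_hasCompactSupport (HasCompactSupport.of_compactSpace _)
  have h1 : ∀ t, ∫ g, rho μ B (g * i t * e⁻¹) ∂μ = 1 - μ.real B := by
    intro t
    rw [← rho_mean μ hB hne]
    have e1 := integral_mul_right_eq_self (μ := μ) (fun x => rho μ B x) (i t * e⁻¹)
    simp_rw [← mul_assoc] at e1
    exact e1
  have h2 : 1 - μ.real B = ∫ g, ∫ t, rho μ B (g * i t * e⁻¹) ∂τ ∂μ := by
    rw [integral_integral_swap hint]
    simp_rw [h1]
    simp
  have hdc : Continuous (fun g => dd μ i B g e) := by
    have h3 := dd_cont μ hi hB hne e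
    simp_rw [dd_symm μ i B e] at h3
    exact h3
  have hdi : Integrable (fun g => dd μ i B g e) μ :=
    hdc.integrable_of_hasCompactSupport (HasCompactSupport.of_compactSpace _)
  have key : ∀ g, ∫ t, rho μ B (g * i t * e⁻¹) ∂τ ≤ pp μ τ i B e + dd μ i B g e := by
    intro g
    obtain ⟨s, hs⟩ := dd_exists μ hi hB g e
    have i0 : Integrable (fun t => rho μ B (g * i t * e⁻¹)) τ :=
      ((rho_cont μ hB).comp
        ((continuous_const.mul hi).mul continuous_const)).integrable_of_hasCompactSupport
        (HasCompactSupport.of_compactSpace _)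
    have i1 : Integrable (fun t => rho μ B (e * i (s⁻¹ * t) * e⁻¹)) τ :=
      ((rho_cont μ hB).comp ((continuous_const.mul (hi.comp
        (continuous_const.mul continuous_id))).mul
          continuous_const)).integrable_of_hasCompactSupport
          (HasCompactSupport.of_compactSpace _)
    have e2 : ∫ t, rho μ B (e * i (s⁻¹ * t) * e⁻¹) ∂τ = pp μ τ i B e := by
      rw [pp]
      exact integral_mul_left_eq_self (μ := τ) (fun t => rho μ B (e * i t * e⁻¹)) s⁻¹
    have k : ∀ t, rho μ B (g * i t * e⁻¹) ≤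
        rho μ B (e * i (s⁻¹ * t) * e⁻¹) + dd μ i B g e := by
      intro t
      have e4 : g * i t * e⁻¹ = (g * i s * e⁻¹) * (e * i (s⁻¹ * t) * e⁻¹) := by
        rw [map_mul, map_inv]
        group
      have h5 := rho_mul μ hB hne (g * i s * e⁻¹) (e * i (s⁻¹ * t) * e⁻¹)
      rw [← e4, hs] at h5
      linarith
    calc ∫ t, rho μ B (g * i t * e⁻¹) ∂τ ≤
          ∫ t, (rho μ B (e * i (s⁻¹ * t) * e⁻¹) + dd μ i B g e) ∂τ :=
          integral_mono i0 (i1.add (integrable_const _)) k
      _ = _ := by
          rw [integral_add i1 (integrable_const _), e2, integral_const]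
          simp
  calc 1 - μ.real B = ∫ g, ∫ t, rho μ B (g * i t * e⁻¹) ∂τ ∂μ := h2
    _ ≤ ∫ g, (pp μ τ i B e + dd μ i B g e) ∂μ :=
        integral_mono hint.integral_prod_left ((integrable_const _).add hdi) key
    _ = _ := by
        rw [integral_add (integrable_const _) hdi, integral_const]
        simp

/-- Some point has distance at least `1 - b - p(e)` from `e`.

Proof. Otherwise `d(e, g) < 1 - b - p(e)` for all `g`; `g ↦ d(e, g)` is continuous (`dd_cont`) on
the compact space `G`, so its maximum `m` is smaller than `1 - b - p(e)`, and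
`∫ g, d(g, e) ≤ m` contradicts `mean_dd`. (The maximum point itself is the `h` we want.) -/
theorem exists_far {B : Set G} (hB : IsOpen B) (hne : B.Nonempty) (e : G) :
    ∃ h, 1 - μ.real B - pp μ τ i B e ≤ dd μ i B e h := by
  have hdc := dd_cont μ hi hB hne e
  obtain ⟨h, _, hh⟩ := isCompact_univ.exists_isMaxOn ⟨(1 : G), mem_univ _⟩ hdc.continuousOn
  refine ⟨h, ?_⟩
  have h1 := mean_dd μ τ hi hB hne e
  have hdi : Integrable (fun g => dd μ i B g e) μ := by
    simp_rw [dd_symm μ i B e] at hdc
    exact hdc.integrable_of_hasCompactSupport (HasCompactSupport.of_compactSpace _)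
  have h2 : ∫ g, dd μ i B g e ∂μ ≤ ∫ _g, dd μ i B e h ∂μ := by
    refine integral_mono hdi (integrable_const _) fun g => ?_
    have h3 := hh (mem_univ g)
    rw [dd_symm μ i B g e]
    exact h3
  rw [integral_const] at h2
  rw [probReal_univ, one_smul] at h2
  linarith

end Pool.Agent.Lib.H68S
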