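import Pool.Agent.Lib.H68S.D03

open MeasureTheory Set
open scoped Pointwise

namespace Pool.Agent.Lib.H68S

variable {G : Type*} [Group G] [TopologicalSpace G] [IsTopologicalGroup G] [CompactSpace G]
  [T2Space G] [SecondCountableTopology G] [MeasurableSpace G] [BorelSpace G]
  (μ : Measure G) [μ.IsHaarMeasure] [IsProbabilityMeasure μ]
variable {T : Type*} [CommGroup T] [TopologicalSpace T] [IsTopologicalGroup T] [CompactSpace T]
  [T2Space T] [SecondCountableTopology T] [MeasurableSpace T] [BorelSpace T]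
  (τ : Measure T) [τ.IsHaarMeasure] [IsProbabilityMeasure τ]
  (D : Geo G T)

/-- The estimate (2.4).

Proof. Let `x = e⁻¹ * h`. By `D.conj` there are `t, t', t''` with
`x * i t * x⁻¹ = i t' * x * i t''`. Let `y = h * i t * h⁻¹` and `k = e * i t' * e⁻¹`. As `h = e * x`,
`y * e = e * (x * i t * x⁻¹) = e * i t' * x * i t'' = k * h * i t''`. So
`d(h, e) ≤ d(h, k h) + d(k h, e)`, where `d(h, k h) ≤ rho (h * (k h)⁻¹) = rho k⁻¹ = rho k ≤ 2 p(e)`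
(`rho_le_pp`), and `d(k h, e) = d(k h i t'', e) = d(y e, e) ≤ rho (y e e⁻¹) = rho y ≤ 2 p(h)`
(`dd_shift`, `dd_le` with `t = 1`). -/
theorem hemi_bound {B : Set G} (hB : IsOpen B) (hne : B.Nonempty) {e h : G}
    (hc : 0 ≤ D.c (e⁻¹ * h)) :
    dd μ D.i B e h ≤ 2 * pp μ τ D.i B e + 2 * pp μ τ D.i B h := by
  obtain ⟨t, t', t'', ht⟩ := D.conj (e⁻¹ * h) hc
  have e1 : h * D.i t * h⁻¹ * e = e * D.i t' * e⁻¹ * h * D.i t'' := by
    calc h * D.i t * h⁻¹ * e = e * (e⁻¹ * h * D.i t * (e⁻¹ * h)⁻¹) := by group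
      _ = e * (D.i t' * (e⁻¹ * h) * D.i t'') := by rw [ht]
      _ = _ := by group
  have h1 : dd μ D.i B h (e * D.i t' * e⁻¹ * h) ≤ 2 * pp μ τ D.i B e := by
    have h2 := dd_le μ D.i B h (e * D.i t' * e⁻¹ * h) 1
    have e2 : h * D.i 1 * (e * D.i t' * e⁻¹ * h)⁻¹ = (e * D.i t' * e⁻¹)⁻¹ := by
      rw [map_one]; group
    rw [e2, rho_inv] at h2
    exact h2.trans (rho_le_pp μ τ D.ci hB hne e t')
  have h3 : dd μ D.i B (e * D.i t' * e⁻¹ * h) e ≤ 2 * pp μ τ D.i B h := by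
    have h4 := dd_shift μ D.i B (e * D.i t' * e⁻¹ * h) e t'' 1
    rw [← h4, ← e1]
    have h5 := dd_le μ D.i B (h * D.i t * h⁻¹ * e) (e * D.i 1) 1
    have e2 : h * D.i t * h⁻¹ * e * D.i 1 * (e * D.i 1)⁻¹ = h * D.i t * h⁻¹ := by
      rw [map_one]; group
    rw [e2] at h5
    exact h5.trans (rho_le_pp μ τ D.ci hB hne h t)
  have h6 := dd_tri μ D.ci hB hne h (e * D.i t' * e⁻¹ * h) e
  rw [dd_symm μ D.i B e h]
  linarith

/-- The estimate (2.5).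

Proof. Let `x = m * i k * e⁻¹` with `rho x = d(m, e)` (`dd_exists`), and
`y = e⁻¹ * x * e = e⁻¹ * m * i k`; `D.c y = D.c (e⁻¹ * m) = 0` (`D.cinv`). By `D.gen` with
`z = e⁻¹ * h`: `e⁻¹ * h = i t * y * i t' * y * i t''`. Hence
`h * (i t'')⁻¹ * e⁻¹ = (e * i t * e⁻¹) * x * (e * i t' * e⁻¹) * x`, so
`d(e, h) = d(h, e) ≤ rho (h * i (t''⁻¹) * e⁻¹) ≤ 2 p(e) + rho x + 2 p(e) + rho x`
(`dd_le`, `rho_mul`, `rho_le_pp`). -/
theorem equator_bound {B : Set G} (hB : IsOpen B) (hne : B.Nonempty) {e m : G}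
    (hc : D.c (e⁻¹ * m) = 0) (h : G) :
    dd μ D.i B e h ≤ 2 * dd μ D.i B e m + 4 * pp μ τ D.i B e := by
  obtain ⟨k, hk⟩ := dd_exists μ D.ci hB m e
  have hy : D.c (e⁻¹ * m * D.i k) = 0 := by rw [D.cinv, hc]
  obtain ⟨t, t', t'', ht⟩ := D.gen _ hy (e⁻¹ * h)
  have e1 : h * D.i t''⁻¹ * e⁻¹ =
      (e * D.i t * e⁻¹) * (m * D.i k * e⁻¹) * (e * D.i t' * e⁻¹) * (m * D.i k * e⁻¹) := by
    calc h * D.i t''⁻¹ * e⁻¹ = e * (e⁻¹ * h) * (D.i t'')⁻¹ * e⁻¹ := by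
          rw [map_inv]; group
      _ = e * (D.i t * (e⁻¹ * m * D.i k) * D.i t' * (e⁻¹ * m * D.i k) * D.i t'') *
          (D.i t'')⁻¹ * e⁻¹ := by rw [ht]
      _ = _ := by group
  have h1 := dd_le μ D.i B h e t''⁻¹
  rw [e1] at h1
  have h2 := rho_mul μ hB hne
    ((e * D.i t * e⁻¹) * (m * D.i k * e⁻¹) * (e * D.i t' * e⁻¹)) (m * D.i k * e⁻¹)
  have h3 := rho_mul μ hB hne ((e * D.i t * e⁻¹) * (m * D.i k * e⁻¹)) (e * D.i t' * e⁻¹)
  have h4 := rho_mul μ hB hne (e * D.i t * e⁻¹) (m * D.i k * e⁻¹)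
  have h5 := rho_le_pp μ τ D.ci hB hne e t
  have h6 := rho_le_pp μ τ D.ci hB hne e t'
  rw [hk] at h2 h4
  rw [dd_symm μ D.i B m e] at h2 h4
  rw [dd_symm μ D.i B e h]
  linarith

end Pool.Agent.Lib.H68S
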