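import Pool.Agent.Lib.H68S.D04
import Pool.Agent.Lib.H68S.D05

open MeasureTheory Set
open scoped Pointwise

namespace Pool.Agent.Lib.H68S

variable {G : Type*} [Group G] [TopologicalSpace G] [IsTopologicalGroup G] [CompactSpace G]
  [T2Space G] [SecondCountableTopology G] [MeasurableSpace G] [BorelSpace G]
  (μ : Measure G) [μ.IsHaarMeasure] [IsProbabilityMeasure μ]
variable {T : Type*} [CommGroup T] [TopologicalSpace T] [IsTopologicalGroup T] [CompactSpace T]
  [T2Space T] [SecondCountableTopology T] [MeasurableSpace T] [BorelSpace T]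
  (τ : Measure T) [τ.IsHaarMeasure] [IsProbabilityMeasure τ]
  (D : Geo G T)

/-- Less than half of the group is below the equator.

Proof. Let `w` be as in `D.flip`. The sets `{x | D.c x < 0}` and `{x | 0 < D.c x}` are disjoint and
open, and the second one is the preimage of the first one under the measure preserving map
`x ↦ x * w` (`measure_preimage_mul_right`; `e` is treated by left invariance,
`measure_preimage_mul`). So twice the measure is at most one. -/
theorem meas_lower (e : G) : μ.real {g | D.c (e⁻¹ * g) < 0} ≤ 1 / 2 := by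
  obtain ⟨w, hw⟩ := D.flip
  have hcl : Continuous (fun g => D.c (e⁻¹ * g)) := D.cc.comp (continuous_const.mul continuous_id)
  set L : Set G := {g | D.c (e⁻¹ * g) < 0} with hL
  set U : Set G := {g | 0 < D.c (e⁻¹ * g)} with hU
  have hUm : MeasurableSet U := (isOpen_lt continuous_const hcl).measurableSet
  have h1 : U = (fun g => g * w) ⁻¹' L := by
    ext g
    simp only [hL, hU, mem_preimage, mem_ofPred_eq]
    rw [← mul_assoc, hw]
    constructor <;> intro h <;> linarith
  have h2 : μ.real U = μ.real L := by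
    rw [h1, measureReal_def, measure_preimage_mul_right, measureReal_def]
  have h3 : Disjoint L U := by
    rw [Set.disjoint_left]
    intro g hg hg'
    simp only [hL, hU, mem_ofPred_eq] at hg hg'
    linarith
  have h4 := measureReal_union (μ := μ) h3 hUm
  have h5 : μ.real (L ∪ U) ≤ 1 := measureReal_le_one
  linarith

/-- The estimate (2.6): if `d(e, .) ≤ δ` on the closed hemisphere, then
`1 - b - 3 p(e) ≤ (3/2) δ`.

Proof. Let `y` be as in `D.zero` and `m = e * y`: `D.c (e⁻¹ * m) = 0`, so `d(e, m) ≤ δ`, `0 ≤ δ`,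
and `d(e, g) ≤ 2 δ + 4 p(e)` for every `g` (`equator_bound`). With `L = {g | D.c (e⁻¹ * g) < 0}`,
`∫ g, d(g, e) ≤ δ (1 - μ L) + (2 δ + 4 p(e)) μ L ≤ δ + (δ + 4 p(e)) / 2` (`meas_lower`,
`dd_symm`; integrate the pointwise bound `d ≤ δ + (δ + 4 p(e)) 1_L`). With `mean_dd`:
`1 - b ≤ p(e) + (3/2) δ + 2 p(e)`. -/
theorem hemi_far {B : Set G} (hB : IsOpen B) (hne : B.Nonempty) (e : G) (δ : ℝ)
    (h : ∀ h, 0 ≤ D.c (e⁻¹ * h) → dd μ D.i B e h ≤ δ) :
    1 - μ.real B - 3 * pp μ τ D.i B e ≤ 3 / 2 * δ := by
  obtain ⟨y, hy⟩ := D.zero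
  have hm : D.c (e⁻¹ * (e * y)) = 0 := by rw [inv_mul_cancel_left, hy]
  have h1 : dd μ D.i B e (e * y) ≤ δ := h _ hm.ge
  have hδ : 0 ≤ δ := (dd_nonneg μ D.i B e (e * y)).trans h1
  have hp := pp_nonneg μ τ D.i B e
  have h2 : ∀ g, dd μ D.i B e g ≤ 2 * δ + 4 * pp μ τ D.i B e := by
    intro g
    have := equator_bound μ τ D hB hne hm g
    linarith
  have hcl : Continuous (fun g => D.c (e⁻¹ * g)) := D.cc.comp (continuous_const.mul continuous_id)
  set L : Set G := {g | D.c (e⁻¹ * g) < 0} with hL
  have hLm : MeasurableSet L := (isOpen_lt hcl continuous_const).measurableSet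
  have h3 : μ.real L ≤ 1 / 2 := meas_lower μ D e
  have hdi : Integrable (fun g => dd μ D.i B g e) μ := by
    have hdc := dd_cont μ D.ci hB hne e
    simp_rw [dd_symm μ D.i B e] at hdc
    exact hdc.integrable_of_hasCompactSupport (HasCompactSupport.of_compactSpace _)
  have hii : Integrable (L.indicator fun _ => δ + 4 * pp μ τ D.i B e) μ :=
    (integrable_const _).indicator hLm
  have h4 : ∫ g, dd μ D.i B g e ∂μ ≤
      ∫ g, (δ + L.indicator (fun _ => δ + 4 * pp μ τ D.i B e) g) ∂μ := by
    refine integral_mono hdi ((integrable_const _).add hii) fun g => ?_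
    show dd μ D.i B g e ≤ δ + L.indicator (fun _ => δ + 4 * pp μ τ D.i B e) g
    rw [dd_symm μ D.i B g e]
    by_cases hg : g ∈ L
    · rw [indicator_of_mem hg]
      have := h2 g
      linarith
    · rw [indicator_of_notMem hg, add_zero]
      refine h g ?_
      simp only [hL, mem_ofPred_eq, not_lt] at hg
      exact hg
  rw [integral_add (integrable_const _) hii, integral_indicator_const _ hLm, integral_const,
    probReal_univ, one_smul, smul_eq_mul] at h4
  have h5 := mean_dd μ τ D.ci hB hne e
  have h6 : μ.real L * (δ + 4 * pp μ τ D.i B e) ≤ 1 / 2 * (δ + 4 * pp μ τ D.i B e) :=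
    mul_le_mul_of_nonneg_right h3 (by positivity)
  linarith

end Pool.Agent.Lib.H68S
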