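import Pool.Agent.Lib.H68S.D02

open MeasureTheory Set
open scoped Pointwise

namespace Pool.Agent.Lib.H68S

variable {G : Type*} [Group G] [TopologicalSpace G] [IsTopologicalGroup G] [CompactSpace G]
  [T2Space G] [SecondCountableTopology G] [MeasurableSpace G] [BorelSpace G]
  (μ : Measure G) [μ.IsHaarMeasure] [IsProbabilityMeasure μ]
variable {T : Type*} [CommGroup T] [TopologicalSpace T] [IsTopologicalGroup T] [CompactSpace T]
  [T2Space T] [SecondCountableTopology T] [MeasurableSpace T] [BorelSpace T]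
  (D : Geo G T)

/-- The estimate (2.7): if `d ≤ δ` everywhere then `1 - b ≤ 6 δ`.

Proof. (a) For every `h` there is `g₁` with `rho (g₁ * w * g₁⁻¹) ≤ δ` (take `h = 1`): by
`dd_exists` for the pair `(h * w, h)` there is `t` with `rho (h * w * i t * h⁻¹) ≤ δ`; by `D.w1`
`w * i t = (i t')⁻¹ * w * i t'`, so `g₁ = h * (i t')⁻¹` works.
(b) For every `g₂`: `rho (g₂ * w * g₂⁻¹) ≤ 3 δ`. Let `w = r * i s * r⁻¹` (`D.w2`). By `dd_exists` for
`(g₂ * r, g₁ * r)` there is `t` such that `x = g₂ * r * i t * r⁻¹ * g₁⁻¹` has `rho x ≤ δ`. As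
`r * i t * r⁻¹` commutes with `w`, `x * (g₁ * w * g₁⁻¹) * x⁻¹ = g₂ * w * g₂⁻¹`; use `rho_mul`,
`rho_inv`.
(c) By `D.w3` every `x` is a product of two conjugates of `w`, so `rho x ≤ 6 δ`, and
`1 - b = ∫ rho ≤ 6 δ` (`rho_mean`; `rho` is continuous, so integrable). -/
theorem all_far {B : Set G} (hB : IsOpen B) (hne : B.Nonempty) (δ : ℝ)
    (h : ∀ g h, dd μ D.i B g h ≤ δ) : 1 - μ.real B ≤ 6 * δ := by
  obtain ⟨g₁, h1⟩ : ∃ g₁ : G, rho μ B (g₁ * D.w * g₁⁻¹) ≤ δ := by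
    obtain ⟨t, ht⟩ := dd_exists μ D.ci hB D.w 1
    obtain ⟨t', ht'⟩ := D.w1 t
    refine ⟨(D.i t')⁻¹, ?_⟩
    have e1 : (D.i t')⁻¹ * D.w * ((D.i t')⁻¹)⁻¹ = D.w * D.i t * 1⁻¹ := by
      rw [ht', inv_inv, inv_one, mul_one]
    rw [e1, ht]
    exact h _ _
  obtain ⟨r, s, hrs⟩ := D.w2
  have h2 : ∀ g₂ : G, rho μ B (g₂ * D.w * g₂⁻¹) ≤ 3 * δ := by
    intro g₂
    obtain ⟨t, ht⟩ := dd_exists μ D.ci hB (g₂ * r) (g₁ * r)
    have h3 := h (g₂ * r) (g₁ * r)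
    rw [← ht] at h3
    set x : G := g₂ * r * D.i t * (g₁ * r)⁻¹ with hx
    have e2 : D.i t * D.i s = D.i s * D.i t := by rw [← map_mul, mul_comm, map_mul]
    have e1 : g₂ * D.w * g₂⁻¹ = x * (g₁ * D.w * g₁⁻¹) * x⁻¹ := by
      rw [hrs, hx]
      calc g₂ * (r * D.i s * r⁻¹) * g₂⁻¹
          = g₂ * r * (D.i s * D.i t) * (D.i t)⁻¹ * r⁻¹ * g₂⁻¹ := by group
        _ = g₂ * r * (D.i t * D.i s) * (D.i t)⁻¹ * r⁻¹ * g₂⁻¹ := by rw [e2]
        _ = _ := by group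
    have h4 := rho_mul μ hB hne (x * (g₁ * D.w * g₁⁻¹)) x⁻¹
    have h5 := rho_mul μ hB hne x (g₁ * D.w * g₁⁻¹)
    rw [rho_inv, ← e1] at h4
    linarith
  have h6 : ∀ x, rho μ B x ≤ 6 * δ := by
    intro x
    obtain ⟨g, g', hx⟩ := D.w3 x
    rw [hx]
    have h7 := rho_mul μ hB hne (g * D.w * g⁻¹) (g' * D.w * g'⁻¹)
    have h8 := h2 g
    have h9 := h2 g'
    linarith
  have h10 : Integrable (rho μ B) μ :=
    (rho_cont μ hB).integrable_of_hasCompactSupport (HasCompactSupport.of_compactSpace _)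
  have h11 := integral_mono h10 (integrable_const (6 * δ)) h6
  rw [integral_const, probReal_univ, one_smul, rho_mean μ hB hne] at h11
  exact h11

end Pool.Agent.Lib.H68S
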