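import Pool.Agent.Lib.H68S.D02
import Pool.Agent.Lib.H68S.C04

open MeasureTheory Set
open scoped Pointwise

namespace Pool.Agent.Lib.H68S

variable {G : Type*} [Group G] [TopologicalSpace G] [IsTopologicalGroup G] [CompactSpace G]
  [T2Space G] [SecondCountableTopology G] [MeasurableSpace G] [BorelSpace G]
  (μ : Measure G) [μ.IsHaarMeasure] [IsProbabilityMeasure μ]
variable {T : Type*} [CommGroup T] [TopologicalSpace T] [IsTopologicalGroup T] [CompactSpace T]
  [T2Space T] [SecondCountableTopology T] [MeasurableSpace T] [BorelSpace T]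
  (τ : Measure T) [τ.IsHaarMeasure] [IsProbabilityMeasure τ]
  {i : T →* G} (hi : Continuous i)

include hi

/-- First estimate in (2.8).

Proof. Write `b = μ(B)`, `U = {g | d(g, e) ≤ t}` (closed, `dd_cont`, `dd_symm`), `F = col i B e`
(open, `isOpen_col`). For `g ∈ U` there is `k` with `rho (g * i k * e⁻¹) ≤ t` (`dd_exists`), i.e.
`b (1 - t) ≤ ov μ B (g * i k * e⁻¹) ≤ ∫ l, min (fib e l) (fib g l) ≤ ∫ l in F, fib τ i B g l`
(`ov_le_int`; outside `F` the fibre `fib τ i B e l` vanishes, `fib_eq_zero_of_not_col`). Integrate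
over `g ∈ U`: `b (1 - t) μ(U) ≤ ∫ g, ∫ l in F, fib g l = ∫ l in F, ∫ g, fib g l = b μ(F)` (Fubini,
`fib_meas`, `fib_int_left`). Divide by `b > 0`. -/
theorem ball_one {B : Set G} (hB : IsOpen B) (hne : B.Nonempty) (e : G) (t : ℝ) :
    (1 - t) * μ.real {g | dd μ i B g e ≤ t} ≤ μ.real (col i B e) := by
  obtain ⟨τ, hτ1, hτ2⟩ : ∃ τ : Measure T, τ.IsHaarMeasure ∧ IsProbabilityMeasure τ :=
    ⟨Measure.haarMeasure ⊤, inferInstance,
      ⟨by simpa using Measure.haarMeasure_self (K₀ := (⊤ : TopologicalSpace.PositiveCompacts T))⟩⟩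
  set U : Set G := {g | dd μ i B g e ≤ t} with hU
  set F : Set G := col i B e with hF
  set b : ℝ := μ.real B with hb
  have hb0 : 0 < b := by
    have h1 : 0 < μ B := hB.measure_pos μ hne
    exact ENNReal.toReal_pos h1.ne' (measure_ne_top _ _)
  have hUm : MeasurableSet U := by
    have h1 : Continuous fun g => dd μ i B g e := by
      have h2 := dd_cont μ hi hB hne e
      have h3 : (fun g => dd μ i B g e) = fun g => dd μ i B e g := by
        funext g; exact dd_symm μ i B g e
      rw [h3]; exact h2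
    exact (isClosed_le h1 continuous_const).measurableSet
  have hFm : MeasurableSet F := (isOpen_col hB e).measurableSet
  have hm := fib_meas τ hi hB.measurableSet
  have hbd : ∀ p : G × G, ‖fib τ i B p.1 p.2‖ ≤ 1 := fun p => by
    rw [Real.norm_eq_abs, abs_of_nonneg (fib_nonneg τ B p.1 p.2)]
    exact fib_le_one τ B p.1 p.2
  have hint : Integrable (fun p : G × G => fib τ i B p.1 p.2) (μ.prod (μ.restrict F)) :=
    Integrable.of_bound hm.aestronglyMeasurable 1 (Filter.Eventually.of_forall hbd)
  have hmg : ∀ g, Measurable fun l => fib τ i B g l := fun g => hm.comp measurable_prodMk_left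
  have hig : ∀ g, Integrable (fun l => fib τ i B g l) μ := fun g =>
    Integrable.of_bound (hmg g).aestronglyMeasurable 1 (Filter.Eventually.of_forall fun l => hbd (g, l))
  have h1 : ∀ g ∈ U, (1 - t) * b ≤ ∫ l in F, fib τ i B g l ∂μ := by
    intro g hg
    obtain ⟨s, hs⟩ := dd_exists μ hi hB g e
    have h2 : rho μ B (g * i s * e⁻¹) ≤ t := hs ▸ hg
    have h3 := ov_le_int μ τ hi hB g e s
    have h4 : (1 - t) * b ≤ ov μ B (g * i s * e⁻¹) := by
      unfold rho at h2
      have h5 : 1 - t ≤ ov μ B (g * i s * e⁻¹) / μ.real B := by linarith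
      rwa [le_div_iff₀ hb0] at h5
    refine h4.trans (h3.trans ?_)
    rw [← integral_indicator hFm]
    refine integral_mono ?_ ((hig g).indicator hFm) fun l => ?_
    · exact (hig e).inf (hig g)
    · by_cases hl : l ∈ F
      · simp only [indicator_of_mem hl]
        exact min_le_right _ _
      · simp only [indicator_of_notMem hl]
        rw [fib_eq_zero_of_not_col τ hi hl]
        exact min_le_left _ _
  have h2 : ∫ g, (∫ l in F, fib τ i B g l ∂μ) ∂μ = b * μ.real F := by
    have h3 := integral_integral_swap (μ := μ) (ν := μ.restrict F) (f := fun g l => fib τ i B g l) hint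
    rw [h3]
    have h4 : ∀ l, ∫ g, fib τ i B g l ∂μ = b := fun l => fib_int_left μ τ hi hB.measurableSet l
    simp only [h4, setIntegral_const, smul_eq_mul]
    ring
  have hnn : ∀ g, 0 ≤ ∫ l in F, fib τ i B g l ∂μ := fun g =>
    setIntegral_nonneg hFm fun l _ => fib_nonneg τ B g l
  have h3 : ((1 - t) * b) * μ.real U ≤ b * μ.real F := by
    rw [← h2]
    have h4 : ∫ g in U, ((1 - t) * b) ∂μ ≤ ∫ g in U, (∫ l in F, fib τ i B g l ∂μ) ∂μ :=
      setIntegral_mono_on (integrable_const _).integrableOn hint.integral_prod_left.integrableOn hUm h1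
    have h5 : ∫ g in U, (∫ l in F, fib τ i B g l ∂μ) ∂μ ≤ ∫ g, (∫ l in F, fib τ i B g l ∂μ) ∂μ :=
      setIntegral_le_integral hint.integral_prod_left (Filter.Eventually.of_forall hnn)
    rw [setIntegral_const, smul_eq_mul] at h4
    linarith
  have h4 : b * ((1 - t) * μ.real U) ≤ b * μ.real F := by linarith
  exact le_of_mul_le_mul_left h4 hb0

end Pool.Agent.Lib.H68S
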