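import Pool.Agent.Lib.H68S.D03
import Pool.Agent.Lib.H68S.C04
import Pool.Agent.Lib.H68S.C05

open MeasureTheory Set
open scoped Pointwise

namespace Pool.Agent.Lib.H68S

variable {G : Type*} [Group G] [TopologicalSpace G] [IsTopologicalGroup G] [CompactSpace G]
  [T2Space G] [SecondCountableTopology G] [MeasurableSpace G] [BorelSpace G]
  (μ : Measure G) [μ.IsHaarMeasure] [IsProbabilityMeasure μ]
variable {T : Type*} [CommGroup T] [TopologicalSpace T] [IsTopologicalGroup T] [CompactSpace T]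
  [T2Space T] [SecondCountableTopology T] [MeasurableSpace T] [BorelSpace T]
  (τ : Measure T) [τ.IsHaarMeasure] [IsProbabilityMeasure τ]
  {i : T →* G} (hi : Continuous i)

omit [TopologicalSpace G] [IsTopologicalGroup G] [CompactSpace G] [T2Space G]
  [SecondCountableTopology G] [BorelSpace G] [Group G] in
/-- A measurable function with values in `[0, 1]` is integrable. -/
theorem d09_int (ν : Measure G) [IsFiniteMeasure ν] {F : G → ℝ} (hF : Measurable F)
    (h0 : ∀ x, 0 ≤ F x) (h1 : ∀ x, F x ≤ 1) : Integrable F ν := by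
  refine Integrable.of_bound hF.aestronglyMeasurable 1 (Filter.Eventually.of_forall fun x => ?_)
  rw [Real.norm_of_nonneg (h0 x)]
  exact h1 x

include hi

/-- Second estimate in (2.8).

Proof. Write `b = μ(B)`, `f = fib τ i B e`, `U = {g | d(g, e) ≤ t}`, `L = {l | 1/2 ≤ f l}`, and
`b P₁ = ∫ l in L, f (1 - f)`, `b P₂ = ∫ l in Lᶜ, f (1 - f)`, so `P₁ + P₂ = p(e)` (`pp_formula`).
(a) For `g ∈ U` (as in `ball_one`): `b (1 - t) ≤ ∫ min (f, fib g .) ≤ ∫_L fib g . + ∫_{Lᶜ} f`, and
`f ≤ 2 f (1 - f)` on `Lᶜ`, so `b (1 - t - 2 P₂) ≤ ∫_L fib g .`. Integrate over `g ∈ U`: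
`b (1 - t - 2 P₂) μ(U) ≤ ∫_L (∫ g, fib g l) = b μ(L)` (`fib_int_left`, Fubini).
(b) On `L`: `1 ≤ f + 2 f (1 - f)`, so `μ(L) ≤ ∫_L f + 2 b P₁ ≤ b + 2 b P₁`.
(c) Hence `(1 - t - 2 P₂) μ(U) ≤ b (1 + 2 P₁)`. Let `q = 1 - t - 2 p(e)`, `0 < q ≤ 1`. Then
`1 - t - 2 P₂ = q + 2 P₁` and `q (1 + 2 P₁) ≤ q + 2 P₁`, so
`q (1 + 2 P₁) μ(U) ≤ (q + 2 P₁) μ(U) ≤ b (1 + 2 P₁)`; divide by `1 + 2 P₁ > 0`. -/
theorem ball_two {B : Set G} (hB : IsOpen B) (hne : B.Nonempty) (e : G) {t : ℝ} (ht : 0 ≤ t)
    (h : t + 2 * pp μ τ i B e < 1) :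
    (1 - t - 2 * pp μ τ i B e) * μ.real {g | dd μ i B g e ≤ t} ≤ μ.real B := by
  have hb0 : 0 < μ.real B := by
    rw [measureReal_def, ENNReal.toReal_pos_iff]
    exact ⟨hB.measure_pos μ hne, measure_lt_top μ B⟩
  set b := μ.real B with hbdef
  have hfm := fib_meas τ hi hB.measurableSet
  have hmr : ∀ g, Measurable (fun l => fib τ i B g l) := fun g =>
    hfm.comp measurable_prodMk_left
  have hir : ∀ g, Integrable (fun l => fib τ i B g l) μ := fun g =>
    d09_int μ (hmr g) (fun _ => fib_nonneg τ B _ _) (fun _ => fib_le_one τ B _ _)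
  set f : G → ℝ := fun l => fib τ i B e l with hf
  have hf0 : ∀ l, 0 ≤ f l := fun _ => fib_nonneg τ B _ _
  have hf1 : ∀ l, f l ≤ 1 := fun _ => fib_le_one τ B _ _
  have hfmeas : Measurable f := hmr e
  have hffm : Measurable (fun l => f l * (1 - f l)) := hfmeas.mul (measurable_const.sub hfmeas)
  have hff0 : ∀ l, 0 ≤ f l * (1 - f l) := fun l =>
    mul_nonneg (hf0 l) (by linarith [hf1 l])
  have hffi : Integrable (fun l => f l * (1 - f l)) μ :=
    d09_int μ hffm hff0 (fun l => by nlinarith [hf0 l, hf1 l])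
  set L : Set G := {l | 1 / 2 ≤ f l} with hL
  have hLm : MeasurableSet L := measurableSet_le measurable_const hfmeas
  set A1 : ℝ := ∫ l in L, f l * (1 - f l) ∂μ with hA1
  set A2 : ℝ := ∫ l in Lᶜ, f l * (1 - f l) ∂μ with hA2
  have hA12 : A1 + A2 = b * pp μ τ i B e := by
    rw [pp_formula μ τ hi hB hne e, hA1, hA2]
    exact integral_add_compl hLm hffi
  have hA1n : 0 ≤ A1 := integral_nonneg hff0
  -- (b)
  have hLb : μ.real L ≤ b + 2 * A1 := by
    have h1 : ∫ _l in L, (1 : ℝ) ∂μ ≤ ∫ l in L, (f l + 2 * (f l * (1 - f l))) ∂μ := by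
      refine setIntegral_mono_on (integrable_const _).integrableOn
        ((hir e).add (hffi.const_mul 2)).integrableOn hLm fun l hl => ?_
      have h2 : 1 / 2 ≤ f l := hl
      nlinarith [hf1 l]
    have h2 : ∫ l in L, (f l + 2 * (f l * (1 - f l))) ∂μ = (∫ l in L, f l ∂μ) + 2 * A1 := by
      rw [integral_add (hir e).integrableOn (hffi.const_mul 2).integrableOn,
        integral_const_mul]
    have h3 : ∫ l in L, f l ∂μ ≤ b := by
      have h4 := fib_int_right μ τ hi hB.measurableSet e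
      rw [hbdef, ← h4]
      exact setIntegral_le_integral (hir e) (Filter.Eventually.of_forall hf0)
    have h5 : ∫ _l in L, (1 : ℝ) ∂μ = μ.real L := by simp
    linarith
  -- (a)
  have hpt : ∀ g, dd μ i B g e ≤ t →
      b * (1 - t) - 2 * A2 ≤ ∫ l in L, fib τ i B g l ∂μ := by
    intro g hg
    obtain ⟨k, hk⟩ := dd_exists μ hi hB g e
    have h1 : b * (1 - t) ≤ ov μ B (g * i k * e⁻¹) := by
      rw [← hk, rho] at hg
      have h2 : 1 - t ≤ ov μ B (g * i k * e⁻¹) / b := by linarith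
      rw [le_div_iff₀ hb0] at h2
      linarith
    have h2 := ov_le_int μ τ hi hB g e k
    have hmin : Measurable (fun l => min (fib τ i B e l) (fib τ i B g l)) :=
      (hmr e).min (hmr g)
    have hmini : Integrable (fun l => min (fib τ i B e l) (fib τ i B g l)) μ :=
      d09_int μ hmin (fun _ => le_min (fib_nonneg τ B _ _) (fib_nonneg τ B _ _))
        (fun _ => (min_le_left _ _).trans (fib_le_one τ B _ _))
    have h3 : ∫ l, min (fib τ i B e l) (fib τ i B g l) ∂μ =
        (∫ l in L, min (fib τ i B e l) (fib τ i B g l) ∂μ) +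
          ∫ l in Lᶜ, min (fib τ i B e l) (fib τ i B g l) ∂μ :=
      (integral_add_compl hLm hmini).symm
    have h4 : ∫ l in L, min (fib τ i B e l) (fib τ i B g l) ∂μ ≤ ∫ l in L, fib τ i B g l ∂μ :=
      setIntegral_mono_on hmini.integrableOn (hir g).integrableOn hLm
        fun l _ => min_le_right _ _
    have h5 : ∫ l in Lᶜ, min (fib τ i B e l) (fib τ i B g l) ∂μ ≤
        ∫ l in Lᶜ, 2 * (f l * (1 - f l)) ∂μ := by
      refine setIntegral_mono_on hmini.integrableOn (hffi.const_mul 2).integrableOn hLm.compl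
        fun l hl => (min_le_left _ _).trans ?_
      have h6 : f l < 1 / 2 := not_le.1 hl
      show f l ≤ 2 * (f l * (1 - f l))
      nlinarith [hf0 l]
    rw [integral_const_mul] at h5
    linarith
  have hq0 : 0 < 1 - t - 2 * pp μ τ i B e := by linarith
  have hpn := pp_nonneg μ τ i B e
  have hdc : Continuous (fun g => dd μ i B g e) := by
    have h3 := dd_cont μ hi hB hne e
    simp_rw [dd_symm μ i B e] at h3
    exact h3
  set U : Set G := {g | dd μ i B g e ≤ t} with hU
  have hUm : MeasurableSet U := (isClosed_le hdc continuous_const).measurableSet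
  have hFint : Integrable (Function.uncurry fun (g l : G) => fib τ i B g l)
      (μ.prod (μ.restrict L)) := by
    refine Integrable.of_bound hfm.aestronglyMeasurable 1
      (Filter.Eventually.of_forall fun x => ?_)
    show ‖fib τ i B x.1 x.2‖ ≤ 1
    rw [Real.norm_of_nonneg (fib_nonneg τ B _ _)]
    exact fib_le_one τ B _ _
  have hswap : ∫ g, ∫ l in L, fib τ i B g l ∂μ ∂μ = μ.real L * b := by
    rw [integral_integral_swap hFint]
    simp_rw [fib_int_left μ τ hi hB.measurableSet]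
    rw [setIntegral_const, smul_eq_mul]
  have hΦi : Integrable (fun g => ∫ l in L, fib τ i B g l ∂μ) μ := hFint.integral_prod_left
  have hUint : (b * (1 - t) - 2 * A2) * μ.real U ≤ μ.real L * b := by
    have h1 : ∫ _g in U, (b * (1 - t) - 2 * A2) ∂μ ≤
        ∫ g in U, (∫ l in L, fib τ i B g l ∂μ) ∂μ :=
      setIntegral_mono_on (integrable_const _).integrableOn hΦi.integrableOn hUm
        fun g hg => hpt g hg
    have h2 : ∫ g in U, (∫ l in L, fib τ i B g l ∂μ) ∂μ ≤
        ∫ g, (∫ l in L, fib τ i B g l ∂μ) ∂μ :=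
      setIntegral_le_integral hΦi (Filter.Eventually.of_forall fun g =>
        integral_nonneg fun l => fib_nonneg τ B _ _)
    rw [setIntegral_const, smul_eq_mul] at h1
    rw [hswap] at h2
    linarith
  have hUn : 0 ≤ μ.real U := measureReal_nonneg
  set q := 1 - t - 2 * pp μ τ i B e with hq
  have hbq : b * (1 - t) - 2 * A2 = b * q + 2 * A1 := by
    rw [hq]; linarith [hA12]
  rw [hbq] at hUint
  have hq1 : q ≤ 1 := by rw [hq]; linarith
  have h1 : μ.real L * b ≤ (b + 2 * A1) * b := mul_le_mul_of_nonneg_right hLb hb0.le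
  have h2 : q * (b + 2 * A1) ≤ b * q + 2 * A1 := by nlinarith
  have h3 : q * (b + 2 * A1) * μ.real U ≤ (b * q + 2 * A1) * μ.real U :=
    mul_le_mul_of_nonneg_right h2 hUn
  have h4 : (b + 2 * A1) * (q * μ.real U) ≤ (b + 2 * A1) * b := by
    calc (b + 2 * A1) * (q * μ.real U) = q * (b + 2 * A1) * μ.real U := by ring
      _ ≤ (b * q + 2 * A1) * μ.real U := h3
      _ ≤ μ.real L * b := hUint
      _ ≤ _ := h1
  exact le_of_mul_le_mul_left h4 (by linarith)

end Pool.Agent.Lib.H68S
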