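import Pool.Agent.Lib.H68S.D02

open MeasureTheory Set
open scoped Pointwise

namespace Pool.Agent.Lib.H68S

variable {G : Type*} [Group G] [TopologicalSpace G] [IsTopologicalGroup G] [CompactSpace G]
  [T2Space G] [SecondCountableTopology G] [MeasurableSpace G] [BorelSpace G]
  (μ : Measure G) [μ.IsHaarMeasure] [IsProbabilityMeasure μ]
variable {T : Type*} [CommGroup T] [TopologicalSpace T] [IsTopologicalGroup T] [CompactSpace T]
  [T2Space T] [SecondCountableTopology T] [MeasurableSpace T] [BorelSpace T]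
  (D : Geo G T)

/-- Chains.

Proof. Let `γ` be the path of `D.path (e⁻¹ * h₁)` and `F s = d(e, e * γ s)`, a continuous function
of `s` (`dd_cont`). `F 0 = d(e, e * i t) = d(e, e) = 0` (`dd_shift` with `s = 1`, `dd_self`) and
`F 1 = d(e, h₁ * i t) = d(e, h₁) ≥ r`. For every `j ≤ n` the number `j r / n` is in `[0, r]`
(`r / 0 = 0` if `n = 0`), so by the intermediate value theorem (`intermediate_value_Icc`) there is
`s_j ∈ [0, 1]` with `F s_j = j r / n`; `H j = e * γ s_j` (for `j > n` take anything). If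
`0 ≤ D.c (e⁻¹ * h₁)` then `D.c (e⁻¹ * H j) = D.c (γ s_j) ≥ 0`. -/
theorem chain_exists {B : Set G} (hB : IsOpen B) (hne : B.Nonempty) {e h₁ : G} {r : ℝ}
    (hr : 0 ≤ r) (h : r ≤ dd μ D.i B e h₁) (n : ℕ) :
    ∃ H : ℕ → G, (∀ j, j ≤ n → dd μ D.i B e (H j) = j * r / n) ∧
      (0 ≤ D.c (e⁻¹ * h₁) → ∀ j, j ≤ n → 0 ≤ D.c (e⁻¹ * H j)) := by
  obtain ⟨γ, hγ, ⟨t, ht⟩, ⟨t', ht'⟩, hγc⟩ := D.path (e⁻¹ * h₁)
  have hF : Continuous (fun s => dd μ D.i B e (e * γ s)) :=
    (dd_cont μ D.ci hB hne e).comp (continuous_const.mul hγ)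
  have h0 : dd μ D.i B e (e * γ 0) = 0 := by
    rw [ht]
    have h1 := dd_shift μ D.i B e e 1 t
    rw [map_one, mul_one] at h1
    rw [h1, dd_self μ D.i hB hne]
  have h1 : dd μ D.i B e (e * γ 1) = dd μ D.i B e h₁ := by
    have e1 : e * γ 1 = h₁ * D.i t' := by rw [ht']; group
    have h1 := dd_shift μ D.i B e h₁ 1 t'
    rw [map_one, mul_one] at h1
    rw [e1, h1]
  have h2 : ∀ j : ℕ, j ≤ n → ∃ s ∈ Icc (0 : ℝ) 1, dd μ D.i B e (e * γ s) = j * r / n := by
    intro j hj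
    have h3 : (j : ℝ) * r / n ∈ Icc (dd μ D.i B e (e * γ 0)) (dd μ D.i B e (e * γ 1)) := by
      rw [h0, h1]
      refine ⟨by positivity, le_trans ?_ h⟩
      rcases Nat.eq_zero_or_pos n with hn | hn
      · subst hn; simpa using hr
      · have hn' : (0 : ℝ) < n := by exact_mod_cast hn
        rw [div_le_iff₀ hn', mul_comm r]
        exact mul_le_mul_of_nonneg_right (by exact_mod_cast hj) hr
    exact intermediate_value_Icc zero_le_one hF.continuousOn h3
  choose! s hs hs' using h2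
  refine ⟨fun j => e * γ (s j), fun j hj => hs' j hj, fun hc j hj => ?_⟩
  rw [inv_mul_cancel_left]
  exact hγc hc _ (hs j hj)

end Pool.Agent.Lib.H68S
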