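import Mathlib

/-!
# Project H68S (MP_af943b_al): definitions

See `PROOF.md` in this folder. `G` is a compact connected group with Haar probability measure `μ`
(in the application `G = SO(3)`), `T` a compact connected commutative group with Haar probability
measure `τ` (in the application the circle), and `i : T →* G` a continuous homomorphism whose image
is `K`.
-/

open MeasureTheory Set
open scoped Pointwise

namespace Pool.Agent.Lib.H68S

section Defs

variable {G : Type*} [Group G] [MeasurableSpace G]

/-- The overlap `μ(gS ∩ S)`. -/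
noncomputable def ov (μ : Measure G) (S : Set G) (g : G) : ℝ :=
  μ.real {y | g⁻¹ * y ∈ S ∧ y ∈ S}

/-- The function `rho(x) = 1 - μ(xB ∩ B) / μ(B)`. -/
noncomputable def rho (μ : Measure G) (B : Set G) (x : G) : ℝ :=
  1 - ov μ B x / μ.real B

/-- The growth profile `phi(s) = inf {μ(SN) : S open, μ(S) ≥ s}`. -/
noncomputable def phi [TopologicalSpace G] (μ : Measure G) (N : Set G) (s : ℝ) : ℝ :=
  sInf {r | ∃ S : Set G, IsOpen S ∧ s ≤ μ.real S ∧ r = μ.real (S * N)}

variable {T : Type*} [Group T] [MeasurableSpace T]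

/-- The length of `A` on the circle `g K h⁻¹`. -/
noncomputable def fib (τ : Measure T) (i : T →* G) (A : Set G) (g h : G) : ℝ :=
  τ.real {t | g * i t * h⁻¹ ∈ A}

/-- The pseudo-metric `d(g, h) = min over K of rho(g k h⁻¹)`. -/
noncomputable def dd (μ : Measure G) (i : T →* G) (B : Set G) (g h : G) : ℝ :=
  ⨅ t : T, rho μ B (g * i t * h⁻¹)

/-- The function `p(h)`, the integral over `K` of `rho(h k h⁻¹)`. -/
noncomputable def pp (μ : Measure G) (τ : Measure T) (i : T →* G) (B : Set G) (h : G) : ℝ :=
  ∫ t, rho μ B (h * i t * h⁻¹) ∂τ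

omit [MeasurableSpace G] [MeasurableSpace T] in
/-- The set `V h K`. -/
def orb (i : T →* G) (V : Set G) (h : G) : Set G := {g | ∃ t, g * i t * h⁻¹ ∈ V}

omit [MeasurableSpace G] [MeasurableSpace T] in
/-- The set `{l : fib(B; h, l) > 0}` (for open `B`), that is `B⁻¹ h K`. -/
def col (i : T →* G) (B : Set G) (h : G) : Set G := {l | ∃ t, h * i t * l⁻¹ ∈ B}

end Defs

/-- The facts about `SO(3)` and its circle subgroup which the proof uses. -/
structure Geo (G T : Type*) [Group G] [TopologicalSpace G] [Group T] [TopologicalSpace T] where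
  /-- the circle subgroup -/
  i : T →* G
  ci : Continuous i
  /-- the height -/
  c : G → ℝ
  cc : Continuous c
  cinv : ∀ x t, c (x * i t) = c x
  flip : ∃ w, ∀ x, c (x * w) = - c x
  conj : ∀ x, 0 ≤ c x → ∃ t t' t'', x * i t * x⁻¹ = i t' * x * i t''
  zero : ∃ y, c y = 0
  gen : ∀ y, c y = 0 → ∀ z, ∃ t t' t'', z = i t * y * i t' * y * i t''
  path : ∀ x, ∃ γ : ℝ → G, Continuous γ ∧ (∃ t, γ 0 = i t) ∧ (∃ t, γ 1 = x * i t) ∧
    (0 ≤ c x → ∀ s ∈ Icc (0 : ℝ) 1, 0 ≤ c (γ s))
  /-- an involution -/
  w : G
  w1 : ∀ t, ∃ t', w * i t = (i t')⁻¹ * w * i t'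
  w2 : ∃ r t, w = r * i t * r⁻¹
  w3 : ∀ x, ∃ g h, x = (g * w * g⁻¹) * (h * w * h⁻¹)

section Inv

variable {G : Type*} [Group G] [TopologicalSpace G] [IsTopologicalGroup G] [CompactSpace G]
  [T2Space G] [SecondCountableTopology G] [MeasurableSpace G] [BorelSpace G]

/-- A Haar measure on a compact group is right invariant. -/
instance rinv (μ : Measure G) [μ.IsHaarMeasure] : μ.IsMulRightInvariant where
  map_mul_right_eq_self g := by
    have hm : Measurable (· * g : G → G) := measurable_mul_const g
    have h1 := Measure.isMulInvariant_eq_smul_of_compactSpace (μ.map (· * g)) μ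
    have h2 : (μ.map (· * g)) univ = μ univ := by
      rw [Measure.map_apply hm MeasurableSet.univ, preimage_univ]
    have h3 : (Measure.haarScalarFactor (μ.map (· * g)) μ : ENNReal) * μ univ = 1 * μ univ := by
      rw [one_mul]
      conv_rhs => rw [← h2, h1]
      rfl
    have h4 : (Measure.haarScalarFactor (μ.map (· * g)) μ : ENNReal) = 1 :=
      (ENNReal.mul_left_inj (isOpen_univ.measure_pos μ univ_nonempty).ne'
        (measure_ne_top μ univ)).1 h3
    have h5 : Measure.haarScalarFactor (μ.map (· * g)) μ = 1 := by exact_mod_cast h4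
    rw [h1, h5, one_smul]

/-- A Haar measure on a compact group is inversion invariant. -/
instance iinv (μ : Measure G) [μ.IsHaarMeasure] : μ.IsInvInvariant where
  inv_eq_self := by
    have h1 := Measure.isMulInvariant_eq_smul_of_compactSpace μ.inv μ
    have h2 : μ.inv univ = μ univ := by
      rw [Measure.inv_apply, inv_univ]
    have h3 : (Measure.haarScalarFactor μ.inv μ : ENNReal) * μ univ = 1 * μ univ := by
      rw [one_mul]
      conv_rhs => rw [← h2, h1]
      rfl
    have h4 : (Measure.haarScalarFactor μ.inv μ : ENNReal) = 1 :=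
      (ENNReal.mul_left_inj (isOpen_univ.measure_pos μ univ_nonempty).ne'
        (measure_ne_top μ univ)).1 h3
    have h5 : Measure.haarScalarFactor μ.inv μ = 1 := by exact_mod_cast h4
    rw [h1, h5, one_smul]

end Inv

end Pool.Agent.Lib.H68S
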