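import Pool.Agent.Lib.H68S.D02
import Pool.Agent.Lib.H68S.C02

open MeasureTheory Set
open scoped Pointwise

namespace Pool.Agent.Lib.H68S

variable {G : Type*} [Group G] [TopologicalSpace G] [IsTopologicalGroup G] [CompactSpace G]
  [T2Space G] [SecondCountableTopology G] [MeasurableSpace G] [BorelSpace G]
  (μ : Measure G) [μ.IsHaarMeasure] [IsProbabilityMeasure μ]
variable {T : Type*} [CommGroup T] [TopologicalSpace T] [IsTopologicalGroup T] [CompactSpace T]
  [T2Space T] [SecondCountableTopology T] [MeasurableSpace T] [BorelSpace T]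
  {i : T →* G} (hi : Continuous i)

omit [IsProbabilityMeasure μ] in
/-- A note for all chunks of group E: `V` and `B` are open, `B` is nonempty, and
`μ(V B) ≤ (1 + g) μ(B)`. This first lemma is only a normalisation: `μ(x B) = μ(B)` (left
invariance, `measure_preimage_mul`). -/
theorem real_translate {B : Set G} (x : G) : μ.real {y | x⁻¹ * y ∈ B} = μ.real B := by
  have h := measure_preimage_mul μ x⁻¹ B
  unfold Measure.real
  rw [← h]
  rfl

/-- The estimate (3.1).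

Proof. `{z | x⁻¹ * z ∈ B}` (that is `x B`) and `{z | x'⁻¹ * z ∈ B}` are contained in `V * B` and
have measure `b`; so their intersection has measure `≥ 2 b - (1 + g) b = (1 - g) b`
(`measureReal_union_add_inter`), and this intersection has the measure of
`{y | (x⁻¹ * x')⁻¹ * y ∈ B ∧ y ∈ B}` (translate by `x`: `z = x * y`). Divide by `b > 0`. -/
theorem rho_sep {B V : Set G} (hB : IsOpen B) (hne : B.Nonempty) (hV : IsOpen V)
    {g : ℝ} (hVB : μ.real (V * B) ≤ (1 + g) * μ.real B) {x x' : G} (hx : x ∈ V) (hx' : x' ∈ V) :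
    rho μ B (x⁻¹ * x') ≤ g := by
  have hb : 0 < μ.real B := ENNReal.toReal_pos (hB.measure_pos μ hne).ne' (measure_ne_top μ B)
  have hm : MeasurableSet {z : G | x'⁻¹ * z ∈ B} :=
    (hB.preimage (continuous_const_mul x'⁻¹)).measurableSet
  have h1 := measureReal_union_add_inter (μ := μ) (s := {z : G | x⁻¹ * z ∈ B}) hm
  rw [real_translate μ x, real_translate μ x'] at h1
  have h2 : μ.real ({z : G | x⁻¹ * z ∈ B} ∪ {z : G | x'⁻¹ * z ∈ B}) ≤ μ.real (V * B) := by
    apply measureReal_mono _ (measure_ne_top μ _)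
    rintro z (hz | hz)
    · exact mem_mul.2 ⟨x, hx, x⁻¹ * z, hz, by group⟩
    · exact mem_mul.2 ⟨x', hx', x'⁻¹ * z, hz, by group⟩
  have h3 : μ.real ({z : G | x⁻¹ * z ∈ B} ∩ {z : G | x'⁻¹ * z ∈ B}) = ov μ B (x⁻¹ * x') := by
    unfold ov
    rw [← real_translate μ (B := {y | (x⁻¹ * x')⁻¹ * y ∈ B ∧ y ∈ B}) x]
    congr 1
    ext z
    simp only [mem_inter_iff, mem_setOf_eq]
    rw [show (x⁻¹ * x')⁻¹ * (x⁻¹ * z) = x'⁻¹ * z by group]
    exact and_comm
  unfold rho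
  rw [sub_le_comm, le_div_iff₀ hb, ← h3]
  nlinarith

/-- Orbits of points at distance `> g` are disjoint.

Proof. Let `z` be in both: `x = z * i t * h⁻¹ ∈ V`, `x' = z * i t' * h'⁻¹ ∈ V`. Then
`x⁻¹ * x' = h * i (t⁻¹ * t') * h'⁻¹`, so `d(h, h') ≤ rho (x⁻¹ * x') ≤ g` (`dd_le`, `rho_sep`). -/
theorem orb_disj {B V : Set G} (hB : IsOpen B) (hne : B.Nonempty) (hV : IsOpen V)
    {g : ℝ} (hVB : μ.real (V * B) ≤ (1 + g) * μ.real B) {h h' : G}
    (hd : g < dd μ i B h h') : Disjoint (orb i V h) (orb i V h') := by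
  rw [disjoint_left]
  rintro z ⟨t, ht⟩ ⟨t', ht'⟩
  have h1 := rho_sep μ hB hne hV hVB ht ht'
  have h2 := dd_le μ i B h h' (t⁻¹ * t')
  have h3 : (z * i t * h⁻¹)⁻¹ * (z * i t' * h'⁻¹) = h * i (t⁻¹ * t') * h'⁻¹ := by
    rw [map_mul, map_inv]; group
  rw [h3] at h1
  linarith

include hi

/-- Packing (3.2).

Proof. If `V` is empty both sides are fine (`orb i ∅ h = ∅`). Let `x₀ ∈ V`. If `z ∈ orb i V (H j)`,
`x = z * i t * (H j)⁻¹ ∈ V`, then `x₀⁻¹ * z = (x₀⁻¹ * x) * H j * i t⁻¹`, so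
`d(x₀⁻¹ z, e) = d(x₀⁻¹ x H j, e) ≤ d(x₀⁻¹ x H j, H j) + d(H j, e) ≤ rho (x₀⁻¹ * x) + r ≤ g + r`
(`dd_shift` with `s' = 1`, `dd_tri`, `dd_le` with `t = 1`, `rho_sep`). So all orbits are contained in
`{z | d(x₀⁻¹ z, e) ≤ r + g}`, whose measure is that of `{z | d(z, e) ≤ r + g}` (left invariance).
The orbits are open (`isOpen_orb`) and pairwise disjoint (`orb_disj`):
`measureReal_biUnion_finset`. -/
theorem pack {B V : Set G} (hB : IsOpen B) (hne : B.Nonempty) (hV : IsOpen V)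
    {g : ℝ} (hVB : μ.real (V * B) ≤ (1 + g) * μ.real B) (e : G) {r : ℝ} (J : Finset ℕ)
    (H : ℕ → G) (h1 : ∀ j ∈ J, dd μ i B (H j) e ≤ r)
    (h2 : ∀ j ∈ J, ∀ k ∈ J, j ≠ k → g < dd μ i B (H j) (H k)) :
    ∑ j ∈ J, μ.real (orb i V (H j)) ≤ μ.real {x | dd μ i B x e ≤ r + g} := by
  rcases V.eq_empty_or_nonempty with rfl | ⟨x₀, hx₀⟩
  · have h0 : ∀ h : G, orb i (∅ : Set G) h = ∅ := by
      intro h; ext z; simp [orb]
    simp only [h0, measureReal_empty, Finset.sum_const_zero]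
    exact measureReal_nonneg
  · have hsub : (⋃ j ∈ J, orb i V (H j)) ⊆ {z | x₀⁻¹ * z ∈ {x | dd μ i B x e ≤ r + g}} := by
      intro z hz
      simp only [mem_iUnion] at hz
      obtain ⟨j, hj, t, ht⟩ := hz
      show dd μ i B (x₀⁻¹ * z) e ≤ r + g
      have e1 : x₀⁻¹ * z = (x₀⁻¹ * (z * i t * (H j)⁻¹) * H j) * i t⁻¹ := by
        rw [map_inv]; group
      have e2 := dd_shift μ i B (x₀⁻¹ * (z * i t * (H j)⁻¹) * H j) e t⁻¹ 1
      rw [map_one, mul_one] at e2
      rw [e1, e2]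
      have e3 := dd_tri μ hi hB hne (x₀⁻¹ * (z * i t * (H j)⁻¹) * H j) (H j) e
      have e4 := dd_le μ i B (x₀⁻¹ * (z * i t * (H j)⁻¹) * H j) (H j) 1
      rw [map_one, mul_one, mul_inv_cancel_right] at e4
      have e5 := rho_sep μ hB hne hV hVB hx₀ ht
      have e6 := h1 j hj
      linarith
    have hdisj : PairwiseDisjoint (↑J : Set ℕ) fun j => orb i V (H j) := by
      intro j hj k hk hjk
      exact orb_disj μ hB hne hV hVB (h2 j hj k hk hjk)
    rw [← real_translate μ (B := {x | dd μ i B x e ≤ r + g}) x₀,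
      ← measureReal_biUnion_finset hdisj (fun j _ => (isOpen_orb hV (H j)).measurableSet)
        (fun j _ => measure_ne_top μ _)]
    exact measureReal_mono hsub (measure_ne_top μ _)

end Pool.Agent.Lib.H68S
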