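import Pool.Agent.Lib.H68S.C01
import Pool.Agent.Lib.H68S.C02
import Pool.Agent.Lib.H68S.C03

open MeasureTheory Set
open scoped Pointwise

namespace Pool.Agent.Lib.H68S

variable {G : Type*} [Group G] [TopologicalSpace G] [IsTopologicalGroup G] [CompactSpace G]
  [T2Space G] [SecondCountableTopology G] [MeasurableSpace G] [BorelSpace G]
  (μ : Measure G) [μ.IsHaarMeasure] [IsProbabilityMeasure μ]
variable {T : Type*} [CommGroup T] [TopologicalSpace T] [IsTopologicalGroup T] [CompactSpace T]
  [T2Space T] [SecondCountableTopology T] [ConnectedSpace T] [MeasurableSpace T] [BorelSpace T]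
  (τ : Measure T) [τ.IsHaarMeasure] [IsProbabilityMeasure τ]
  {i : T →* G} (hi : Continuous i)

include hi

theorem e02_int {B : Set G} (hB : IsOpen B) (h : G) :
    Measurable (fun l : G => fib τ i B h l) ∧ Integrable (fun l : G => fib τ i B h l) μ := by
  have hfm : Measurable fun l : G => fib τ i B h l := by
    have h1 := fib_meas τ hi hB.measurableSet
    exact h1.comp (measurable_const.prodMk measurable_id)
  refine ⟨hfm, Integrable.of_bound hfm.aestronglyMeasurable 1 (Filter.Eventually.of_forall fun l => ?_)⟩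
  rw [Real.norm_eq_abs, abs_of_nonneg (fib_nonneg τ B h l)]
  exact fib_le_one τ B h l

theorem e02_min {B : Set G} (hB : IsOpen B) (h : G) {β : ℝ} (hβ : 0 ≤ β) :
    Integrable (fun l : G => min (1 - fib τ i B h l) β) μ := by
  obtain ⟨hfm, hfi⟩ := e02_int μ τ hi hB h
  refine Integrable.of_bound ((measurable_const.sub hfm).min measurable_const).aestronglyMeasurable 1
    (Filter.Eventually.of_forall fun l => ?_)
  have h7 : 0 ≤ fib τ i B h l := fib_nonneg τ _ _ _
  have h8 : fib τ i B h l ≤ 1 := fib_le_one τ _ _ _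
  rw [Real.norm_eq_abs, abs_of_nonneg (le_min (by linarith) hβ)]
  exact (min_le_left _ _).trans (by linarith)

/-- The fibre inequality (3.3).

Proof. Write `f = fib τ i B h`, `F = col i B h` (open, `isOpen_col`; `f = 0` outside `F`,
`fib_eq_zero_of_not_col`; `f > 0` on `F`, `fib_pos`), `β = fib τ i V x h > 0`. For `l ∈ F`,
`fib τ i (V * B) x l ≥ min 1 (β + f l) = f l + min (1 - f l) β` (`fib_mul`). So (the integrand on
the left is nonnegative outside `F`, `V * B` is open: `fib_int_right`)
`μ(V B) = ∫ l, fib τ i (V * B) x l ≥ ∫_F (f + min (1 - f) β) = b + ∫_F min (1 - f) β`, where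
`∫_F f = ∫ f = b` (`fib_int_right`). With `μ(V B) ≤ (1 + g) b` this is the claim. -/
theorem fib_base {B V : Set G} (hB : IsOpen B) (hV : IsOpen V)
    {g : ℝ} (hVB : μ.real (V * B) ≤ (1 + g) * μ.real B) (x h : G)
    (hβ : 0 < fib τ i V x h) :
    ∫ l in col i B h, min (1 - fib τ i B h l) (fib τ i V x h) ∂μ ≤ g * μ.real B := by
  have hVBo : IsOpen (V * B) := hB.mul_left
  have hF : MeasurableSet (col i B h) := (isOpen_col hB h).measurableSet
  obtain ⟨hfm, hfi⟩ := e02_int μ τ hi hB h
  obtain ⟨-, hvi⟩ := e02_int μ τ hi hVBo x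
  have hv0 : ∀ l, 0 ≤ fib τ i (V * B) x l := fun l => fib_nonneg τ _ _ _
  have h1 : μ.real (V * B) = ∫ l, fib τ i (V * B) x l ∂μ := (fib_int_right μ τ hi hVBo.measurableSet x).symm
  have h2 : ∫ l in col i B h, fib τ i (V * B) x l ∂μ ≤ ∫ l, fib τ i (V * B) x l ∂μ :=
    setIntegral_le_integral hvi (Filter.Eventually.of_forall hv0)
  have hmin := e02_min μ τ hi hB h hβ.le
  have h3 : ∫ l in col i B h, (fib τ i B h l + min (1 - fib τ i B h l) (fib τ i V x h)) ∂μ ≤
      ∫ l in col i B h, fib τ i (V * B) x l ∂μ := by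
    refine setIntegral_mono_on (hfi.integrableOn.add hmin.integrableOn) hvi.integrableOn hF fun l hl => ?_
    have h4 : 0 < fib τ i B h l := (fib_pos τ hi hB h l).2 hl
    refine le_trans (le_of_eq ?_) (fib_mul τ hi hV hB hβ h4)
    rw [← min_add_add_left]
    congr 1
    · ring
    · ring
  have h5 : ∫ l in col i B h, fib τ i B h l ∂μ = μ.real B := by
    rw [setIntegral_eq_integral_of_forall_compl_eq_zero fun l hl => fib_eq_zero_of_not_col τ hi hl,
      fib_int_right μ τ hi hB.measurableSet h]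
  rw [integral_add hfi.integrableOn hmin.integrableOn, h5] at h3
  linarith

/-- First consequence.

Proof. If `β = 0` trivial (`0 ≤ g`). Otherwise `min (1 - f) β ≥ β (1 - f)` (`β ≤ 1`, `f ≥ 0`), and
`∫_F β (1 - f) = β (μ(F) - b)` (`∫_F f = ∫ f = b`). -/
theorem fib_col {B V : Set G} (hB : IsOpen B) (hV : IsOpen V)
    {g : ℝ} (hg : 0 ≤ g) (hVB : μ.real (V * B) ≤ (1 + g) * μ.real B) (x h : G) :
    fib τ i V x h * (μ.real (col i B h) - μ.real B) ≤ g * μ.real B := by
  have hF : MeasurableSet (col i B h) := (isOpen_col hB h).measurableSet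
  have hβ0 : 0 ≤ fib τ i V x h := fib_nonneg τ _ _ _
  have hβ1 : fib τ i V x h ≤ 1 := fib_le_one τ _ _ _
  rcases hβ0.eq_or_lt with h0 | h0
  · rw [← h0, zero_mul]
    exact mul_nonneg hg measureReal_nonneg
  refine le_trans ?_ (fib_base μ τ hi hB hV hVB x h h0)
  obtain ⟨hfm, hfi⟩ := e02_int μ τ hi hB h
  have hmin := e02_min μ τ hi hB h h0.le
  have h5 : ∫ l in col i B h, fib τ i B h l ∂μ = μ.real B := by
    rw [setIntegral_eq_integral_of_forall_compl_eq_zero fun l hl => fib_eq_zero_of_not_col τ hi hl,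
      fib_int_right μ τ hi hB.measurableSet h]
  have h6 : ∫ l in col i B h, fib τ i V x h * (1 - fib τ i B h l) ∂μ = fib τ i V x h * (μ.real (col i B h) - μ.real B) := by
    rw [integral_const_mul, integral_sub (integrable_const _) hfi.integrableOn, h5, setIntegral_const, smul_eq_mul, mul_one]
  rw [← h6]
  refine setIntegral_mono_on (((integrable_const _).sub hfi).const_mul _).integrableOn hmin.integrableOn hF fun l hl => ?_
  have h7 : 0 ≤ fib τ i B h l := fib_nonneg τ _ _ _
  have h8 : fib τ i B h l ≤ 1 := fib_le_one τ _ _ _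
  refine le_min ?_ ?_
  · nlinarith
  · nlinarith

end Pool.Agent.Lib.H68S
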