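import Pool.Agent.Lib.H68S.E02
import Pool.Agent.Lib.H68S.D03
import Pool.Agent.Lib.H68S.C05

open MeasureTheory Set
open scoped Pointwise

namespace Pool.Agent.Lib.H68S

/-- A compact group has a Haar probability measure. -/
theorem e03_haar (T : Type*) [Group T] [TopologicalSpace T] [IsTopologicalGroup T]
    [CompactSpace T] [T2Space T] [SecondCountableTopology T] [MeasurableSpace T] [BorelSpace T] :
    ∃ τ : Measure T, τ.IsHaarMeasure ∧ IsProbabilityMeasure τ := by
  let K : TopologicalSpace.PositiveCompacts T :=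
    ⟨⟨univ, isCompact_univ⟩, by simp⟩
  refine ⟨Measure.haarMeasure K, inferInstance, ⟨?_⟩⟩
  exact Measure.haarMeasure_self (K₀ := K)

variable {G : Type*} [Group G] [TopologicalSpace G] [IsTopologicalGroup G] [CompactSpace G]
  [T2Space G] [SecondCountableTopology G] [MeasurableSpace G] [BorelSpace G]
  (μ : Measure G) [μ.IsHaarMeasure] [IsProbabilityMeasure μ]
variable {T : Type*} [CommGroup T] [TopologicalSpace T] [IsTopologicalGroup T] [CompactSpace T]
  [T2Space T] [SecondCountableTopology T] [ConnectedSpace T] [MeasurableSpace T] [BorelSpace T]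
  (τ : Measure T) [τ.IsHaarMeasure] [IsProbabilityMeasure τ]
  {i : T →* G} (hi : Continuous i)

include hi

/-- Second consequence.

Proof. If `β = 0` trivial. Write `f`, `F`, `β` as in `fib_base`, `b = μ(B)`. If `β ≤ 1/4`:
`min (1 - f) β ≥ 4 β f (1 - f)` (since `4 β f ≤ 1` and `4 f (1 - f) ≤ 1`), and the integral of
`f (1 - f)` over `F` is its integral over `G` (`f = 0` outside), that is `b p(h)` (`pp_formula`);
so `4 β b p(h) ≤ g b`. If `β > 1/4`: `min (1 - f) β ≥ f (1 - f)`, so `b p(h) ≤ g b`, against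
`g < p(h)`. -/
theorem fib_pp {B V : Set G} (hB : IsOpen B) (hne : B.Nonempty) (hV : IsOpen V)
    {g : ℝ} (hg : 0 ≤ g) (hVB : μ.real (V * B) ≤ (1 + g) * μ.real B) (x h : G)
    (hp : g < pp μ τ i B h) :
    4 * pp μ τ i B h * fib τ i V x h ≤ g := by
  have hb : 0 < μ.real B := ENNReal.toReal_pos (hB.measure_pos μ hne).ne' (measure_ne_top μ B)
  have hβ0 := fib_nonneg τ V x h (i := i)
  rcases hβ0.eq_or_lt with h0 | hβ
  · rw [← h0, mul_zero]; exact hg
  have hbase := fib_base μ τ hi hB hV hVB x h hβ
  have hpp := pp_formula μ τ hi hB hne h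
  have hf0 : ∀ l, 0 ≤ fib τ i B h l := fun l => fib_nonneg τ B h l
  have hf1 : ∀ l, fib τ i B h l ≤ 1 := fun l => fib_le_one τ B h l
  have hmeas : Measurable fun l => fib τ i B h l :=
    (fib_meas τ hi hB.measurableSet).comp (measurable_const.prodMk measurable_id)
  have hset : ∫ l in col i B h, fib τ i B h l * (1 - fib τ i B h l) ∂μ =
      μ.real B * pp μ τ i B h := by
    rw [hpp]
    apply setIntegral_eq_integral_of_forall_compl_eq_zero
    intro l hl
    rw [fib_eq_zero_of_not_col τ hi hl, zero_mul]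
  have hint1 : Integrable (fun l => fib τ i B h l * (1 - fib τ i B h l)) μ := by
    refine Integrable.of_bound (hmeas.mul (measurable_const.sub hmeas)).aestronglyMeasurable 1
      (Filter.Eventually.of_forall fun l => ?_)
    rw [Real.norm_eq_abs, abs_of_nonneg (mul_nonneg (hf0 l) (by linarith [hf1 l]))]
    nlinarith [hf0 l, hf1 l]
  have hint2 : Integrable (fun l => min (1 - fib τ i B h l) (fib τ i V x h)) μ := by
    refine Integrable.of_bound
      ((measurable_const.sub hmeas).min measurable_const).aestronglyMeasurable 1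
      (Filter.Eventually.of_forall fun l => ?_)
    rw [Real.norm_eq_abs, abs_of_nonneg (le_min (by linarith [hf1 l]) hβ.le)]
    exact (min_le_left _ _).trans (by linarith [hf0 l])
  by_cases hβ4 : fib τ i V x h ≤ 1 / 4
  · have hle : ∫ l in col i B h, 4 * fib τ i V x h * (fib τ i B h l * (1 - fib τ i B h l)) ∂μ ≤
        ∫ l in col i B h, min (1 - fib τ i B h l) (fib τ i V x h) ∂μ := by
      apply integral_mono (hint1.const_mul _).integrableOn hint2.integrableOn
      intro l
      have a0 := hf0 l
      have a1 := hf1 l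
      apply le_min
      · have : 4 * fib τ i V x h * fib τ i B h l ≤ 1 := by nlinarith
        nlinarith
      · have : 4 * (fib τ i B h l * (1 - fib τ i B h l)) ≤ 1 := by
          nlinarith [sq_nonneg (2 * fib τ i B h l - 1)]
        nlinarith
    rw [integral_const_mul, hset] at hle
    have h2 : μ.real B * (4 * pp μ τ i B h * fib τ i V x h) ≤ μ.real B * g := by
      calc μ.real B * (4 * pp μ τ i B h * fib τ i V x h)
          = 4 * fib τ i V x h * (μ.real B * pp μ τ i B h) := by ring
        _ ≤ g * μ.real B := hle.trans hbase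
        _ = μ.real B * g := by ring
    exact le_of_mul_le_mul_left h2 hb
  · exfalso
    have hle : ∫ l in col i B h, fib τ i B h l * (1 - fib τ i B h l) ∂μ ≤
        ∫ l in col i B h, min (1 - fib τ i B h l) (fib τ i V x h) ∂μ := by
      apply integral_mono hint1.integrableOn hint2.integrableOn
      intro l
      have a0 := hf0 l
      have a1 := hf1 l
      apply le_min
      · nlinarith
      · nlinarith [sq_nonneg (2 * fib τ i B h l - 1), not_le.1 hβ4]
    rw [hset] at hle
    have h2 : μ.real B * pp μ τ i B h ≤ μ.real B * g := by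
      calc μ.real B * pp μ τ i B h ≤ g * μ.real B := hle.trans hbase
        _ = μ.real B * g := by ring
    exact absurd (le_of_mul_le_mul_left h2 hb) (not_le.2 hp)

/-- Proof. `μ(V) = ∫ x, fib τ i V x h` (`fib_int_left`), the integrand vanishes outside
`orb i V h` (`fib_eq_zero_of_not_orb`) and is at most `c` on it. -/
theorem mass_le {V : Set G} (hV : IsOpen V) (h : G) (c : ℝ) (hc : ∀ x, fib τ i V x h ≤ c) :
    μ.real V ≤ c * μ.real (orb i V h) := by
  have h1 := fib_int_left μ τ hi hV.measurableSet h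
  have h2 : ∫ g in orb i V h, fib τ i V g h ∂μ = ∫ g, fib τ i V g h ∂μ :=
    setIntegral_eq_integral_of_forall_compl_eq_zero
      (fun g hg => fib_eq_zero_of_not_orb τ hi hg)
  have h3 := norm_setIntegral_le_of_norm_le_const (μ := μ) (s := orb i V h)
    (f := fun g => fib τ i V g h) (C := c) (measure_lt_top μ _) (fun g _ => by
      rw [Real.norm_eq_abs, abs_of_nonneg (fib_nonneg τ V g h)]
      exact hc g)
  rw [h2, h1, Real.norm_eq_abs] at h3
  exact (le_abs_self _).trans h3

/-- Proof. `mass_le` with `c = 1` (`fib_le_one`). -/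
theorem mass_c {V : Set G} (hV : IsOpen V) (h : G) : μ.real V ≤ μ.real (orb i V h) := by
  obtain ⟨τ, hτ1, hτ2⟩ := e03_haar T
  have h1 := mass_le μ τ hi hV h 1 (fun x => fib_le_one τ V x h)
  rwa [one_mul] at h1

/-- Proof. `mass_le` with `c = g / (4 p(h))` (`fib_pp`), multiplied by `4 p(h) > 0`. -/
theorem mass_a {B V : Set G} (hB : IsOpen B) (hne : B.Nonempty) (hV : IsOpen V)
    {g : ℝ} (hg : 0 ≤ g) (hVB : μ.real (V * B) ≤ (1 + g) * μ.real B) (h : G)
    (hp : g < pp μ τ i B h) :
    4 * pp μ τ i B h * μ.real V ≤ g * μ.real (orb i V h) := by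
  have hpos : 0 < 4 * pp μ τ i B h := by linarith
  have h1 := mass_le μ τ hi hV h (g / (4 * pp μ τ i B h)) (fun x => by
    rw [le_div_iff₀ hpos, mul_comm]
    exact fib_pp μ τ hi hB hne hV hg hVB x h hp)
  rw [div_mul_eq_mul_div, le_div_iff₀ hpos] at h1
  linarith

/-- Proof. If `μ(F) ≤ b` the left side is `≤ 0`. Otherwise `mass_le` with
`c = g b / (μ(F) - b)` (`fib_col`), multiplied by `μ(F) - b > 0`. -/
theorem mass_b {B V : Set G} (hB : IsOpen B) (hV : IsOpen V)
    {g : ℝ} (hg : 0 ≤ g) (hVB : μ.real (V * B) ≤ (1 + g) * μ.real B) (h : G) :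
    (μ.real (col i B h) - μ.real B) * μ.real V ≤ g * μ.real B * μ.real (orb i V h) := by
  obtain ⟨τ, hτ1, hτ2⟩ := e03_haar T
  by_cases hF : μ.real (col i B h) - μ.real B ≤ 0
  · have h1 : (μ.real (col i B h) - μ.real B) * μ.real V ≤ 0 :=
      mul_nonpos_of_nonpos_of_nonneg hF measureReal_nonneg
    have h2 : 0 ≤ g * μ.real B * μ.real (orb i V h) :=
      mul_nonneg (mul_nonneg hg measureReal_nonneg) measureReal_nonneg
    linarith
  · have hpos : 0 < μ.real (col i B h) - μ.real B := not_le.1 hF
    have h1 := mass_le μ τ hi hV h (g * μ.real B / (μ.real (col i B h) - μ.real B)) (fun x => by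
      rw [le_div_iff₀ hpos]
      exact fib_col μ τ hi hB hV hg hVB x h)
    rw [div_mul_eq_mul_div, le_div_iff₀ hpos] at h1
    linarith

end Pool.Agent.Lib.H68S
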