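import Pool.Agent.Lib.H68S.E01
import Pool.Agent.Lib.H68S.D10

open MeasureTheory Set
open scoped Pointwise

namespace Pool.Agent.Lib.H68S

variable {G : Type*} [Group G] [TopologicalSpace G] [IsTopologicalGroup G] [CompactSpace G]
  [T2Space G] [SecondCountableTopology G] [MeasurableSpace G] [BorelSpace G]
  (μ : Measure G) [μ.IsHaarMeasure] [IsProbabilityMeasure μ]
variable {T : Type*} [CommGroup T] [TopologicalSpace T] [IsTopologicalGroup T] [CompactSpace T]
  [T2Space T] [SecondCountableTopology T] [MeasurableSpace T] [BorelSpace T]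
  (D : Geo G T)

/-- The number of steps of the chain. -/
theorem e04_steps {r g : ℝ} (hr : 0 < r) (hg : 0 < g) :
    ∃ n : ℕ, (n : ℝ) * g < r ∧ r ≤ ((n : ℝ) + 1) * g := by
  have hm : 0 < ⌈r / g⌉₊ := Nat.ceil_pos.2 (div_pos hr hg)
  refine ⟨⌈r / g⌉₊ - 1, ?_, ?_⟩
  · rw [Nat.cast_sub hm, Nat.cast_one, ← lt_div_iff₀ hg, sub_lt_iff_lt_add]
    exact Nat.ceil_lt_add_one (div_pos hr hg).le
  · rw [Nat.cast_sub hm, Nat.cast_one, sub_add_cancel, ← div_le_iff₀ hg]
    exact Nat.le_ceil _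

/-- The points of a chain are separated. -/
theorem e04_sep {B : Set G} (hB : IsOpen B) (hne : B.Nonempty) {e : G} {r g : ℝ} (hr : 0 < r)
    {n : ℕ} {H : ℕ → G} (hH : ∀ j, j ≤ n → dd μ D.i B e (H j) = j * r / n)
    (hng : (n : ℝ) * g < r) {j k : ℕ} (hj : j ≤ n) (hk : k ≤ n) (hjk : j < k) :
    g < dd μ D.i B (H j) (H k) := by
  have hn : 0 < n := lt_of_lt_of_le (Nat.pos_of_ne_zero (by omega)) hk
  have hn' : (0 : ℝ) < n := by exact_mod_cast hn
  have h1 := dd_tri μ D.ci hB hne e (H j) (H k)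
  rw [hH j hj, hH k hk] at h1
  have h2 : (j : ℝ) + 1 ≤ k := by exact_mod_cast hjk
  have h3 : g < r / n := by
    rw [lt_div_iff₀ hn', mul_comm]
    exact hng
  have h4 : r / n ≤ (k : ℝ) * r / n - j * r / n := by
    rw [← sub_div, ← sub_mul]
    apply div_le_div_of_nonneg_right _ hn'.le
    nlinarith
  linarith

/-- The uniform chain lemma: if `Q μ(V) ≤ g μ(V h K)` for all `h` and some point has distance
`≥ r` from `e`, then `μ(V) (r/g) (Q/g) ≤ μ(U_{r+g}(e))`.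

Proof. Let `n = ⌈r / g⌉ - 1` (a natural number since `r > 0`): `n g < r ≤ (n + 1) g`. If `n = 0`
use the one-element chain `H 0 = e` (distance `0 ≤ r`). If `n ≥ 1` take `H` from `chain_exists`:
`d(e, H j) = j r / n` with `r / n > g`; so `d(H j, e) ≤ r`, and for `j ≠ k` in `{0, .., n}`
`d(H j, H k) ≥ |j - k| r / n ≥ r / n > g` (triangle inequality `dd_tri`, `dd_symm`). By `pack`
with `J = Finset.range (n + 1)`: `∑ μ(orb V (H j)) ≤ μ(U)`, so
`(n + 1) Q μ(V) ≤ g μ(U)`, and `r Q μ(V) ≤ g (n + 1) Q μ(V) ≤ g^2 μ(U)`. -/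
theorem chain_sum {B V : Set G} (hB : IsOpen B) (hne : B.Nonempty) (hV : IsOpen V)
    {g : ℝ} (hg : 0 < g) (hVB : μ.real (V * B) ≤ (1 + g) * μ.real B) {e h₁ : G} {r Q : ℝ}
    (hr : 0 < r) (hQ : 0 ≤ Q) (hd : r ≤ dd μ D.i B e h₁)
    (hq : ∀ h, Q * μ.real V ≤ g * μ.real (orb D.i V h)) :
    r * Q * μ.real V ≤ g ^ 2 * μ.real {x | dd μ D.i B x e ≤ r + g} := by
  obtain ⟨n, hn1, hn2⟩ := e04_steps hr hg
  obtain ⟨H, hH, -⟩ := chain_exists μ D hB hne hr.le hd n
  have h1 : ∀ j ∈ Finset.range (n + 1), dd μ D.i B (H j) e ≤ r := by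
    intro j hj
    have hj' : j ≤ n := Nat.lt_succ_iff.1 (Finset.mem_range.1 hj)
    rw [dd_symm, hH j hj']
    apply div_le_of_le_mul₀ (Nat.cast_nonneg n) hr.le
    rw [mul_comm r]
    exact mul_le_mul_of_nonneg_right (by exact_mod_cast hj') hr.le
  have h2 : ∀ j ∈ Finset.range (n + 1), ∀ k ∈ Finset.range (n + 1), j ≠ k →
      g < dd μ D.i B (H j) (H k) := by
    intro j hj k hk hjk
    have hj' : j ≤ n := Nat.lt_succ_iff.1 (Finset.mem_range.1 hj)
    have hk' : k ≤ n := Nat.lt_succ_iff.1 (Finset.mem_range.1 hk)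
    rcases lt_or_gt_of_ne hjk with h | h
    · exact e04_sep μ D hB hne hr hH hn1 hj' hk' h
    · rw [dd_symm]
      exact e04_sep μ D hB hne hr hH hn1 hk' hj' h
  have hp := pack μ D.ci hB hne hV hVB e (Finset.range (n + 1)) H h1 h2
  have h3 : ((n : ℝ) + 1) * (Q * μ.real V) ≤
      g * ∑ j ∈ Finset.range (n + 1), μ.real (orb D.i V (H j)) := by
    rw [Finset.mul_sum]
    calc ((n : ℝ) + 1) * (Q * μ.real V)
        = ∑ _j ∈ Finset.range (n + 1), Q * μ.real V := by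
          rw [Finset.sum_const, Finset.card_range, nsmul_eq_mul]; push_cast; ring
      _ ≤ _ := Finset.sum_le_sum fun j _ => hq (H j)
  have h0 : 0 ≤ Q * μ.real V := mul_nonneg hQ measureReal_nonneg
  calc r * Q * μ.real V = r * (Q * μ.real V) := by ring
    _ ≤ ((n : ℝ) + 1) * g * (Q * μ.real V) := mul_le_mul_of_nonneg_right hn2 h0
    _ = g * (((n : ℝ) + 1) * (Q * μ.real V)) := by ring
    _ ≤ g * (g * ∑ j ∈ Finset.range (n + 1), μ.real (orb D.i V (H j))) :=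
        mul_le_mul_of_nonneg_left h3 hg.le
    _ ≤ g * (g * μ.real {x | dd μ D.i B x e ≤ r + g}) :=
        mul_le_mul_of_nonneg_left (mul_le_mul_of_nonneg_left hp hg.le) hg.le
    _ = _ := by ring

end Pool.Agent.Lib.H68S
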