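import Pool.Agent.Lib.H68S.E01
import Pool.Agent.Lib.H68S.E03
import Pool.Agent.Lib.H68S.D05
import Pool.Agent.Lib.H68S.D10

open MeasureTheory Set
open scoped Pointwise

namespace Pool.Agent.Lib.H68S

variable {G : Type*} [Group G] [TopologicalSpace G] [IsTopologicalGroup G] [CompactSpace G]
  [T2Space G] [SecondCountableTopology G] [MeasurableSpace G] [BorelSpace G]
  (μ : Measure G) [μ.IsHaarMeasure] [IsProbabilityMeasure μ]
variable {T : Type*} [CommGroup T] [TopologicalSpace T] [IsTopologicalGroup T] [CompactSpace T]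
  [T2Space T] [SecondCountableTopology T] [ConnectedSpace T] [MeasurableSpace T] [BorelSpace T]
  (τ : Measure T) [τ.IsHaarMeasure] [IsProbabilityMeasure τ]
  (D : Geo G T)

/-- The number of steps of the chain. -/
theorem e05_steps {r g : ℝ} (hr : 0 < r) (hg : 0 < g) :
    ∃ n : ℕ, (n : ℝ) * g < r ∧ r ≤ ((n : ℝ) + 1) * g := by
  have hm : 0 < ⌈r / g⌉₊ := Nat.ceil_pos.2 (div_pos hr hg)
  refine ⟨⌈r / g⌉₊ - 1, ?_, ?_⟩
  · rw [Nat.cast_sub hm, Nat.cast_one, ← lt_div_iff₀ hg, sub_lt_iff_lt_add]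
    exact Nat.ceil_lt_add_one (div_pos hr hg).le
  · rw [Nat.cast_sub hm, Nat.cast_one, sub_add_cancel, ← div_le_iff₀ hg]
    exact Nat.le_ceil _

/-- The sum of the lower bounds. -/
theorem e05_sum (n : ℕ) (hn : 3 ≤ n) :
    ∑ j ∈ Finset.range (n + 1), (if j < 4 then (1 : ℝ) else j) = (n : ℝ) * (n + 1) / 2 - 2 := by
  induction n, hn using Nat.le_induction with
  | base =>
    rw [Finset.sum_range_succ, Finset.sum_range_succ, Finset.sum_range_succ, Finset.sum_range_one]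
    norm_num
  | succ n hn ih =>
    rw [Finset.sum_range_succ, ih, if_neg (by omega)]
    push_cast
    ring

omit [ConnectedSpace T] in
/-- The points of a chain are separated. -/
theorem e05_sep {B : Set G} (hB : IsOpen B) (hne : B.Nonempty) {e : G} {r g : ℝ} (hr : 0 < r)
    {n : ℕ} {H : ℕ → G} (hH : ∀ j, j ≤ n → dd μ D.i B e (H j) = j * r / n)
    (hng : (n : ℝ) * g < r) {j k : ℕ} (hj : j ≤ n) (hk : k ≤ n) (hjk : j < k) :
    g < dd μ D.i B (H j) (H k) := by
  have hn : 0 < n := lt_of_lt_of_le (Nat.pos_of_ne_zero (by omega)) hk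
  have hn' : (0 : ℝ) < n := by exact_mod_cast hn
  have h1 := dd_tri μ D.ci hB hne e (H j) (H k)
  rw [hH j hj, hH k hk] at h1
  have h2 : (j : ℝ) + 1 ≤ k := by exact_mod_cast hjk
  have h3 : g < r / n := by
    rw [lt_div_iff₀ hn', mul_comm]
    exact hng
  have h4 : r / n ≤ (k : ℝ) * r / n - j * r / n := by
    rw [← sub_div, ← sub_mul]
    apply div_le_div_of_nonneg_right _ hn'.le
    nlinarith
  linarith

/-- The chain sum in Case I.

Proof. Let `r = 17/60`, `P = p(e)`. As `g ≤ 1/100 < r`, let `n = ⌈r / g⌉ - 1 ≥ 1`: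
`n g < r ≤ (n + 1) g`, and `H` from `chain_exists` (`d(e, H j) = j r / n`, `r / n > g`, all `H j` in
the closed hemisphere). Pairwise distances are `> g` as in `chain_sum`. For `4 ≤ j ≤ n`:
`4 p(H j) ≥ 2 p(e) + 2 p(H j) ≥ d(e, H j) = j r / n > j g` (`hemi_bound`, `hmin`), so
`p(H j) > g` and `j g μ(V) ≤ 4 p(H j) μ(V) ≤ g μ(orb V (H j))` (`mass_a`), i.e.
`j μ(V) ≤ μ(orb V (H j))`. For all `j`: `μ(V) ≤ μ(orb V (H j))` (`mass_c`). Sum over
`j = 0, .., n` (`pack`): `(n (n + 1)/2 - 2) μ(V) ≤ μ(U)`; here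
`∑_{j=4}^n j = n (n + 1)/2 - 6` and four terms are at least `μ(V)` (if `n < 4` the claim
`n (n + 1) / 2 - 2 ≤ n + 1` holds as well; but `n ≥ 27` anyway, because
`(n + 1) ≥ r / g ≥ 28.3`). Since `n + 1 ≥ r / g` and `n ≥ r / g - 1`,
`n (n + 1)/2 - 2 ≥ (r / g)(r / g - 1)/2 - 2`. Multiply by `g^2`. -/
theorem case_one_chain {B V : Set G} (hB : IsOpen B) (hne : B.Nonempty) (hV : IsOpen V)
    {g : ℝ} (hg : 0 < g) (hg1 : g ≤ 1 / 100) (hVB : μ.real (V * B) ≤ (1 + g) * μ.real B)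
    {e h₁ : G} (hc : 0 ≤ D.c (e⁻¹ * h₁)) (hd : 17 / 60 ≤ dd μ D.i B e h₁)
    (hmin : ∀ h, pp μ τ D.i B e ≤ pp μ τ D.i B h) :
    (17 / 60 * (17 / 60 - g) / 2 - 2 * g ^ 2) * μ.real V ≤
      g ^ 2 * μ.real {x | dd μ D.i B x e ≤ 17 / 60 + g} := by
  have hr : (0 : ℝ) < 17 / 60 := by norm_num
  obtain ⟨n, hn1, hn2⟩ := e05_steps hr hg
  obtain ⟨H, hH, hHc⟩ := chain_exists μ D hB hne hr.le hd n
  have hn27 : (27 : ℝ) < n := by nlinarith
  have hn3 : 3 ≤ n := by
    have : (27 : ℕ) < n := by exact_mod_cast hn27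
    omega
  have hn' : (0 : ℝ) < n := by linarith
  have h1 : ∀ j ∈ Finset.range (n + 1), dd μ D.i B (H j) e ≤ 17 / 60 := by
    intro j hj
    have hj' : j ≤ n := Nat.lt_succ_iff.1 (Finset.mem_range.1 hj)
    rw [dd_symm, hH j hj']
    apply div_le_of_le_mul₀ (Nat.cast_nonneg n) hr.le
    rw [mul_comm (17 / 60 : ℝ)]
    exact mul_le_mul_of_nonneg_right (by exact_mod_cast hj') hr.le
  have h2 : ∀ j ∈ Finset.range (n + 1), ∀ k ∈ Finset.range (n + 1), j ≠ k →
      g < dd μ D.i B (H j) (H k) := by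
    intro j hj k hk hjk
    have hj' : j ≤ n := Nat.lt_succ_iff.1 (Finset.mem_range.1 hj)
    have hk' : k ≤ n := Nat.lt_succ_iff.1 (Finset.mem_range.1 hk)
    rcases lt_or_gt_of_ne hjk with h | h
    · exact e05_sep μ D hB hne hr hH hn1 hj' hk' h
    · rw [dd_symm]
      exact e05_sep μ D hB hne hr hH hn1 hk' hj' h
  have hp := pack μ D.ci hB hne hV hVB e (Finset.range (n + 1)) H h1 h2
  have hlow : ∀ j ∈ Finset.range (n + 1), (if j < 4 then (1 : ℝ) else j) * μ.real V ≤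
      μ.real (orb D.i V (H j)) := by
    intro j hj
    have hj' : j ≤ n := Nat.lt_succ_iff.1 (Finset.mem_range.1 hj)
    by_cases h4 : j < 4
    · rw [if_pos h4, one_mul]
      first
        | exact mass_c μ D.ci hV (H j)
        | exact mass_c μ τ D.ci hV (H j)
    · rw [if_neg h4]
      have h4' : (4 : ℝ) ≤ j := by
        have : 4 ≤ j := by omega
        exact_mod_cast this
      have hb := hemi_bound μ τ D hB hne (hHc hc j hj')
      rw [hH j hj'] at hb
      have hm := hmin (H j)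
      have h5 : (j : ℝ) * g ≤ j * (17 / 60) / n := by
        rw [le_div_iff₀ hn']
        nlinarith
      have h6 : (j : ℝ) * g ≤ 4 * pp μ τ D.i B (H j) := by linarith
      have h6' : (j : ℝ) * g < 4 * pp μ τ D.i B (H j) := by
        have h7 : (j : ℝ) * g < j * (17 / 60) / n := by
          rw [lt_div_iff₀ hn']
          nlinarith
        linarith
      have h8 : g < pp μ τ D.i B (H j) := by nlinarith
      have h9 := mass_a μ τ D.ci hB hne hV hg.le hVB (H j) h8
      have h10 : (j : ℝ) * g * μ.real V ≤ g * μ.real (orb D.i V (H j)) :=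
        le_trans (mul_le_mul_of_nonneg_right h6 measureReal_nonneg) h9
      have h11 : g * ((j : ℝ) * μ.real V) ≤ g * μ.real (orb D.i V (H j)) := by
        calc g * ((j : ℝ) * μ.real V) = (j : ℝ) * g * μ.real V := by ring
          _ ≤ _ := h10
      exact le_of_mul_le_mul_left h11 hg
  have hs : ((n : ℝ) * (n + 1) / 2 - 2) * μ.real V ≤ μ.real {x | dd μ D.i B x e ≤ 17 / 60 + g} := by
    rw [← e05_sum n hn3, Finset.sum_mul]
    exact (Finset.sum_le_sum hlow).trans hp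
  have hk : 17 / 60 * (17 / 60 - g) / 2 - 2 * g ^ 2 ≤ g ^ 2 * ((n : ℝ) * (n + 1) / 2 - 2) := by
    have ha : (17 / 60 : ℝ) - g ≤ n * g := by linarith
    have hb : 0 ≤ (17 / 60 : ℝ) - g := by linarith
    have hc2 : 17 / 60 * (17 / 60 - g) ≤ (((n : ℝ) + 1) * g) * (n * g) :=
      mul_le_mul hn2 ha hb (by positivity)
    nlinarith
  calc (17 / 60 * (17 / 60 - g) / 2 - 2 * g ^ 2) * μ.real V
      ≤ g ^ 2 * ((n : ℝ) * (n + 1) / 2 - 2) * μ.real V :=
        mul_le_mul_of_nonneg_right hk measureReal_nonneg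
    _ = g ^ 2 * (((n : ℝ) * (n + 1) / 2 - 2) * μ.real V) := by ring
    _ ≤ _ := mul_le_mul_of_nonneg_left hs (by positivity)

end Pool.Agent.Lib.H68S
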