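import Pool.Agent.Lib.H68S.E05
import Pool.Agent.Lib.H68S.D06
import Pool.Agent.Lib.H68S.D09

open MeasureTheory Set
open scoped Pointwise

namespace Pool.Agent.Lib.H68S

variable {G : Type*} [Group G] [TopologicalSpace G] [IsTopologicalGroup G] [CompactSpace G]
  [T2Space G] [SecondCountableTopology G] [MeasurableSpace G] [BorelSpace G]
  (μ : Measure G) [μ.IsHaarMeasure] [IsProbabilityMeasure μ]
variable {T : Type*} [CommGroup T] [TopologicalSpace T] [IsTopologicalGroup T] [CompactSpace T]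
  [T2Space T] [SecondCountableTopology T] [ConnectedSpace T] [MeasurableSpace T] [BorelSpace T]
  (τ : Measure T) [τ.IsHaarMeasure] [IsProbabilityMeasure τ]
  (D : Geo G T)

/-- Case I: `p(e) = min p ≤ 1/40`.

Proof. There is `h₁` in the closed hemisphere with `d(e, h₁) ≥ 17/60`: the set
`{h | 0 ≤ D.c (e⁻¹ * h)}` is compact and nonempty (it contains `e * y` with `y` from `D.zero`), the
continuous function `d(e, .)` (`dd_cont`) has a maximum `δ` there, and by `hemi_far`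
`(3/2) δ ≥ 1 - b - 3 p(e) ≥ 1/2 - 3/40 = 17/40`, so `δ ≥ 17/60`. By `case_one_chain` and `ball_two`
with `t = 17/60 + g`: `(1 - t - 2 p(e)) μ(U) ≤ b`, `1 - t - 2 p(e) ≥ 1 - 17/60 - 1/100 - 1/20 =
197/300`, so `μ(U) ≤ (300/197) b`. And `17/60 (17/60 - g)/2 - 2 g^2 ≥ 0.0385`
(`g ≤ 1/100`). So `0.0385 μ(V) ≤ g^2 (300/197) b`, and `300/197/0.0385 < 39.6`. -/
theorem case_one {B V : Set G} (hB : IsOpen B) (hne : B.Nonempty) (hV : IsOpen V)
    (hb : μ.real B ≤ 1 / 2) {g : ℝ} (hg : 0 < g) (hg1 : g ≤ 1 / 100)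
    (hVB : μ.real (V * B) ≤ (1 + g) * μ.real B)
    {e : G} (hmin : ∀ h, pp μ τ D.i B e ≤ pp μ τ D.i B h) (hp : pp μ τ D.i B e ≤ 1 / 40) :
    μ.real V ≤ 50 * g ^ 2 * μ.real B := by
  have hP : 0 ≤ pp μ τ D.i B e := pp_nonneg μ τ D.i B e
  obtain ⟨y, hy⟩ := D.zero
  have hcl : Continuous (fun g => D.c (e⁻¹ * g)) := D.cc.comp (continuous_const.mul continuous_id)
  have hHc : IsCompact {h | 0 ≤ D.c (e⁻¹ * h)} := (isClosed_le continuous_const hcl).isCompact
  have hHne : {h | 0 ≤ D.c (e⁻¹ * h)}.Nonempty :=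
    ⟨e * y, by show 0 ≤ D.c (e⁻¹ * (e * y)); rw [inv_mul_cancel_left, hy]⟩
  obtain ⟨h₁, hh₁, hmax⟩ :=
    hHc.exists_isMaxOn hHne (dd_cont μ D.ci hB hne e).continuousOn
  have h2 := hemi_far μ τ D hB hne e (dd μ D.i B e h₁) (fun h hh => hmax hh)
  have h3 : 17 / 60 ≤ dd μ D.i B e h₁ := by linarith
  have h4 := case_one_chain μ τ D hB hne hV hg hg1 hVB hh₁ h3 hmin
  have h5 := ball_two μ τ D.ci hB hne e (t := 17 / 60 + g) (by positivity) (by linarith)
  have hU : 0 ≤ μ.real {x | dd μ D.i B x e ≤ 17 / 60 + g} := measureReal_nonneg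
  have hm : 0 ≤ μ.real V := measureReal_nonneg
  have hb0 : 0 ≤ μ.real B := measureReal_nonneg
  have h6 : 197 / 300 * μ.real {x | dd μ D.i B x e ≤ 17 / 60 + g} ≤ μ.real B := by
    refine le_trans (mul_le_mul_of_nonneg_right ?_ hU) h5
    linarith
  have h7 : 385 / 10000 * μ.real V ≤
      (17 / 60 * (17 / 60 - g) / 2 - 2 * g ^ 2) * μ.real V := by
    refine mul_le_mul_of_nonneg_right ?_ hm
    nlinarith
  have h8 : g ^ 2 * μ.real {x | dd μ D.i B x e ≤ 17 / 60 + g} ≤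
      g ^ 2 * (300 / 197 * μ.real B) := by
    refine mul_le_mul_of_nonneg_left ?_ (sq_nonneg _)
    linarith
  have h9 : 0 ≤ g ^ 2 * μ.real B := by positivity
  nlinarith

end Pool.Agent.Lib.H68S
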