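import Pool.Agent.Lib.H68S.E03
import Pool.Agent.Lib.H68S.E04
import Pool.Agent.Lib.H68S.D04
import Pool.Agent.Lib.H68S.D09

open MeasureTheory Set
open scoped Pointwise

namespace Pool.Agent.Lib.H68S

variable {G : Type*} [Group G] [TopologicalSpace G] [IsTopologicalGroup G] [CompactSpace G]
  [T2Space G] [SecondCountableTopology G] [MeasurableSpace G] [BorelSpace G]
  (μ : Measure G) [μ.IsHaarMeasure] [IsProbabilityMeasure μ]
variable {T : Type*} [CommGroup T] [TopologicalSpace T] [IsTopologicalGroup T] [CompactSpace T]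
  [T2Space T] [SecondCountableTopology T] [ConnectedSpace T] [MeasurableSpace T] [BorelSpace T]
  (τ : Measure T) [τ.IsHaarMeasure] [IsProbabilityMeasure τ]
  (D : Geo G T)

/-- Case II: `1/40 < p(e) = min p ≤ 1/4`.

Proof. Let `P = p(e)` and `r = (1 - g - 2 P)/2 > 0`. By `exists_far` some `h₁` has
`d(e, h₁) ≥ 1 - b - P ≥ 1/2 - P ≥ r`. For all `h`: `p(h) ≥ P > 1/40 > g`, so
`4 P μ(V) ≤ 4 p(h) μ(V) ≤ g μ(orb V h)` (`mass_a`). `chain_sum` with `Q = 4 P`:
`r 4 P μ(V) ≤ g^2 μ(U)`, `U = {x | d(x, e) ≤ r + g}`; `ball_two` with `t = r + g`: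
`1 - t - 2 P = r` (check: `1 - g - 2 P = 2 r`), so `r μ(U) ≤ b` (`t + 2 P = 1 - r < 1`). Hence
`4 P r^2 μ(V) ≤ g^2 b`, and `4 P r^2 = P (1 - g - 2 P)^2 ≥ P (99/100 - 2 P)^2 ≥ 1/50` for
`1/40 ≤ P ≤ 1/4` (the values at the end points are `0.02209` and `0.0600`, the function
`P (c - 2 P)^2` increases up to `P = c/6` and decreases afterwards; for `nlinarith`: the difference
to `1/50` is a cubic; for `P ≤ 1/4`, `(99/100 - 2 P)^2 ≥ ..`, e.g. split at `P = 1/10`:
for `P ≤ 1/10` use `(c - 2P)^2 ≥ c^2 - 4 c P` and `P (c^2 - 4 c P)` is concave in `P` with values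
`> 1/50` at `1/40` and `1/10`; for `P ≥ 1/10` use `(c - 2 P)^2 ≥ (49/100)^2`). -/
theorem case_two {B V : Set G} (hB : IsOpen B) (hne : B.Nonempty) (hV : IsOpen V)
    (hb : μ.real B ≤ 1 / 2) {g : ℝ} (hg : 0 < g) (hg1 : g ≤ 1 / 100)
    (hVB : μ.real (V * B) ≤ (1 + g) * μ.real B)
    {e : G} (hmin : ∀ h, pp μ τ D.i B e ≤ pp μ τ D.i B h) (hp : 1 / 40 < pp μ τ D.i B e)
    (hp' : pp μ τ D.i B e ≤ 1 / 4) :
    μ.real V ≤ 50 * g ^ 2 * μ.real B := by
  set P := pp μ τ D.i B e with hPdef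
  obtain ⟨h₁, hh₁⟩ := exists_far μ τ D.ci hB hne e
  rw [← hPdef] at hh₁
  have hm : 0 ≤ μ.real V := measureReal_nonneg
  have hb0 : 0 ≤ μ.real B := measureReal_nonneg
  set r : ℝ := (1 - g - 2 * P) / 2 with hr
  have hr0 : 0 < r := by rw [hr]; linarith
  have hd : r ≤ dd μ D.i B e h₁ := by rw [hr]; linarith
  have hq : ∀ h, 4 * P * μ.real V ≤ g * μ.real (orb D.i V h) := by
    intro h
    have h1 := hmin h
    refine le_trans ?_ (mass_a μ τ D.ci hB hne hV hg.le hVB h (by linarith))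
    exact mul_le_mul_of_nonneg_right (by linarith) hm
  have h2 := chain_sum μ D hB hne hV hg hVB hr0 (Q := 4 * P) (by linarith) hd hq
  have h3 := ball_two μ τ D.ci hB hne e (t := r + g) (by linarith) (by
    rw [← hPdef, hr]; linarith)
  rw [← hPdef] at h3
  have h4 : 1 - (r + g) - 2 * P = r := by rw [hr]; ring
  rw [h4] at h3
  have h5 : 1 / 50 ≤ r * (r * (4 * P)) := by
    have e1 : r * (r * (4 * P)) = P * (1 - g - 2 * P) ^ 2 := by rw [hr]; ring
    rw [e1]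
    have e2 : P * (99 / 100 - 2 * P) ^ 2 ≤ P * (1 - g - 2 * P) ^ 2 := by
      refine mul_le_mul_of_nonneg_left ?_ (by linarith)
      exact pow_le_pow_left₀ (by linarith) (by linarith) 2
    refine le_trans ?_ e2
    rcases le_or_gt P (1 / 10) with h6 | h6
    · have h7 : 0 ≤ (P - 1 / 40) * (1 / 10 - P) := mul_nonneg (by linarith) (by linarith)
      have h8 : 0 ≤ P ^ 3 := pow_nonneg (by linarith) 3
      nlinarith
    · have h7 : (49 / 100 : ℝ) ^ 2 ≤ (99 / 100 - 2 * P) ^ 2 :=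
        pow_le_pow_left₀ (by norm_num) (by linarith) 2
      nlinarith
  have h6 : r * (r * (4 * P)) * μ.real V ≤ g ^ 2 * μ.real B := by
    calc r * (r * (4 * P)) * μ.real V = r * (r * (4 * P) * μ.real V) := by ring
      _ ≤ r * (g ^ 2 * μ.real {x | dd μ D.i B x e ≤ r + g}) :=
          mul_le_mul_of_nonneg_left h2 hr0.le
      _ = g ^ 2 * (r * μ.real {x | dd μ D.i B x e ≤ r + g}) := by ring
      _ ≤ g ^ 2 * μ.real B := mul_le_mul_of_nonneg_left h3 (sq_nonneg _)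
  have h7 : 1 / 50 * μ.real V ≤ r * (r * (4 * P)) * μ.real V :=
    mul_le_mul_of_nonneg_right h5 hm
  linarith

end Pool.Agent.Lib.H68S
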