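import Pool.Agent.Lib.H68S.E03
import Pool.Agent.Lib.H68S.E04
import Pool.Agent.Lib.H68S.D04
import Pool.Agent.Lib.H68S.D07

open MeasureTheory Set
open scoped Pointwise

namespace Pool.Agent.Lib.H68S

variable {G : Type*} [Group G] [TopologicalSpace G] [IsTopologicalGroup G] [CompactSpace G]
  [T2Space G] [SecondCountableTopology G] [MeasurableSpace G] [BorelSpace G]
  (μ : Measure G) [μ.IsHaarMeasure] [IsProbabilityMeasure μ]
variable {T : Type*} [CommGroup T] [TopologicalSpace T] [IsTopologicalGroup T] [CompactSpace T]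
  [T2Space T] [SecondCountableTopology T] [ConnectedSpace T] [MeasurableSpace T] [BorelSpace T]
  (τ : Measure T) [τ.IsHaarMeasure] [IsProbabilityMeasure τ]
  (D : Geo G T)

/-- Case III with `b ≥ 1/4`: `p > 1/4` everywhere.

Proof. Let `P = p(e) = min p > 1/4`; all `p(h) ≥ P > g`, so `4 P μ(V) ≤ g μ(orb V h)` for all `h`
(`mass_a`). The measure of `U` in `chain_sum` is at most `1`.
(a) `P ≤ 1/3`: some `h₁` has `d(e, h₁) ≥ 1 - b - P ≥ 1/6` (`exists_far`); `chain_sum` with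
`r = 1/6`, `Q = 1` (`4 P ≥ 1`): `μ(V)/6 ≤ g^2`, so `μ(V) ≤ 6 g^2 ≤ 24 g^2 b`.
(b) `P > 1/3`: there are `g₁, h₁` with `d(g₁, h₁) > 1/13`: otherwise `all_far` with `δ = 1/13`
gives `1 - b ≤ 6/13`, against `b ≤ 1/2`. `chain_sum` from `g₁` with
`r = 1/13`, `Q = 4/3`: `(4/39) μ(V) ≤ g^2`, `μ(V) ≤ 9.75 g^2 ≤ 39 g^2 b`. -/
theorem case_three_a {B V : Set G} (hB : IsOpen B) (hne : B.Nonempty) (hV : IsOpen V)
    (hb : μ.real B ≤ 1 / 2) {g : ℝ} (hg : 0 < g) (hg1 : g ≤ 1 / 100)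
    (hVB : μ.real (V * B) ≤ (1 + g) * μ.real B)
    {e : G} (hmin : ∀ h, pp μ τ D.i B e ≤ pp μ τ D.i B h) (hp : 1 / 4 < pp μ τ D.i B e)
    (hb' : 1 / 4 ≤ μ.real B) :
    μ.real V ≤ 50 * g ^ 2 * μ.real B := by
  have hm : 0 ≤ μ.real V := measureReal_nonneg
  have hg2 : 0 ≤ g ^ 2 := sq_nonneg g
  have hgb : g ^ 2 * (1 / 4) ≤ g ^ 2 * μ.real B := mul_le_mul_of_nonneg_left hb' hg2
  have hmass : ∀ h, 4 * pp μ τ D.i B e * μ.real V ≤ g * μ.real (orb D.i V h) := by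
    intro h
    have h1 := hmin h
    refine le_trans ?_ (mass_a μ τ D.ci hB hne hV hg.le hVB h (by linarith))
    exact mul_le_mul_of_nonneg_right (by linarith) hm
  rcases le_or_gt (pp μ τ D.i B e) (1 / 3) with hP | hP
  · obtain ⟨h₁, hh₁⟩ := exists_far μ τ D.ci hB hne e
    have hd : 1 / 6 ≤ dd μ D.i B e h₁ := by linarith
    have h2 := chain_sum μ D hB hne hV hg hVB (r := 1 / 6) (Q := 1) (by norm_num) (by norm_num)
      hd (by
        intro h
        refine le_trans ?_ (hmass h)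
        exact mul_le_mul_of_nonneg_right (by linarith) hm)
    have h3 : μ.real {x | dd μ D.i B x e ≤ 1 / 6 + g} ≤ 1 := measureReal_le_one
    have h4 : g ^ 2 * μ.real {x | dd μ D.i B x e ≤ 1 / 6 + g} ≤ g ^ 2 * 1 :=
      mul_le_mul_of_nonneg_left h3 hg2
    linarith
  · obtain ⟨g₁, h₁, hd⟩ : ∃ g₁ h₁, 1 / 13 < dd μ D.i B g₁ h₁ := by
      by_contra hcon
      push Not at hcon
      have := all_far μ D hB hne (1 / 13) hcon
      linarith
    have h2 := chain_sum μ D hB hne hV hg hVB (r := 1 / 13) (Q := 4 / 3) (by norm_num)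
      (by norm_num) hd.le (by
        intro h
        refine le_trans ?_ (hmass h)
        exact mul_le_mul_of_nonneg_right (by linarith) hm)
    have h3 : μ.real {x | dd μ D.i B x g₁ ≤ 1 / 13 + g} ≤ 1 := measureReal_le_one
    have h4 : g ^ 2 * μ.real {x | dd μ D.i B x g₁ ≤ 1 / 13 + g} ≤ g ^ 2 * 1 :=
      mul_le_mul_of_nonneg_left h3 hg2
    linarith

end Pool.Agent.Lib.H68S
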