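import Pool.Agent.Lib.H68S.E03
import Pool.Agent.Lib.H68S.E04
import Pool.Agent.Lib.H68S.D07
import Pool.Agent.Lib.H68S.D08

open MeasureTheory Set
open scoped Pointwise

namespace Pool.Agent.Lib.H68S

variable {G : Type*} [Group G] [TopologicalSpace G] [IsTopologicalGroup G] [CompactSpace G]
  [T2Space G] [SecondCountableTopology G] [MeasurableSpace G] [BorelSpace G]
  (μ : Measure G) [μ.IsHaarMeasure] [IsProbabilityMeasure μ]
variable {T : Type*} [CommGroup T] [TopologicalSpace T] [IsTopologicalGroup T] [CompactSpace T]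
  [T2Space T] [SecondCountableTopology T] [ConnectedSpace T] [MeasurableSpace T] [BorelSpace T]
  (τ : Measure T) [τ.IsHaarMeasure] [IsProbabilityMeasure τ]
  (D : Geo G T)

include τ in
/-- `μ(B) ≤ μ(col i B h)`. -/
theorem e09_col {B : Set G} (hB : IsOpen B) (h : G) : μ.real B ≤ μ.real (col D.i B h) := by
  have h1 : ∫ l, fib τ D.i B h l ∂μ = μ.real B := fib_int_right μ τ D.ci hB.measurableSet h
  have h2 : ∫ l in col D.i B h, fib τ D.i B h l ∂μ = ∫ l, fib τ D.i B h l ∂μ :=
    setIntegral_eq_integral_of_forall_compl_eq_zero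
      (fun l hl => fib_eq_zero_of_not_col τ D.ci hl)
  have h3 := norm_setIntegral_le_of_norm_le_const (μ := μ) (s := col D.i B h)
    (f := fun l => fib τ D.i B h l) (C := 1) (measure_lt_top μ _) (fun l _ => by
      rw [Real.norm_eq_abs, abs_of_nonneg (fib_nonneg τ B h l)]
      exact fib_le_one τ B h l)
  rw [h2, h1, one_mul, Real.norm_eq_abs] at h3
  exact (le_abs_self _).trans h3

/-- Case III with `b < 1/4`: `p > 1/4` everywhere.

Proof. Write `S(h) = μ(col i B h)` (this is `b s(h)` in the paper proof) and `s* = inf S(h) ≥ 0`.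
For all `h`: `μ(V) ≤ g μ(orb V h)` (`mass_a` and `4 p(h) ≥ 1`, `p(h) > g`), and
`(S(h) - b) μ(V) ≤ g b μ(orb V h)` (`mass_b`).
(a) Suppose `s* < 1/2`. Choose `e'` with `S(e') ≤ 1.01 s*` and `S(e') < 1/2` (if `s* = 0` is not
excluded a priori: `S(h) ≥ b > 0` for all `h`, because `b = ∫ f ≤ S(h)` (`fib_int_right`,
`fib_le_one`, `fib_eq_zero_of_not_col`); so `s* ≥ b > 0` and `1.01 s* > s*`; take `e'` with
`S(e') < min (1.01 s*) (1/2)`, `exists_lt_of_ciInf_lt`). By `ball_one` with `t = 49/100`: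
`0.51 μ(U) ≤ S(e') < 1/2`, so `μ(U) < 1` and some `h₁` has `d(e', h₁) > 49/100` (`dd_symm`). For
all `h`: `(s*/2) μ(V) ≤ g b μ(orb V h)`: if `S(h) ≤ 2 b` then `s*/2 ≤ b` and use the first bound
times `b`; otherwise `S(h) - b ≥ S(h)/2 ≥ s*/2`. `chain_sum` with `r = 49/100`,
`Q = s*/(2 b)`: `(49/100)(s*/(2 b)) μ(V) ≤ g^2 μ(U')`, `U' = {x | d(x, e') ≤ 49/100 + g}`, and by
`ball_one` `(1/2) μ(U') ≤ (1 - 49/100 - g) μ(U') ≤ S(e') ≤ 1.01 s*`. So
`(49/100)(1/(2 b)) μ(V) ≤ 2.02 g^2`, `μ(V) ≤ 8.3 g^2 b`.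
(b) Suppose `s* ≥ 1/2`. Then `S(h) - b ≥ 1/2 - b ≥ 1/4` for all `h`, so
`(1/4) μ(V) ≤ g b μ(orb V h)`. Some pair has `d(g₁, h₁) > 1/8`: otherwise
`all_far` with `δ = 1/8` gives `1 - b ≤ 3/4`, against `b < 1/4`. `chain_sum` with `r = 1/8`, `Q = 1/(4 b)` and `μ(U) ≤ 1`: `μ(V)/(32 b) ≤ g^2`. -/
theorem case_three_b {B V : Set G} (hB : IsOpen B) (hne : B.Nonempty) (hV : IsOpen V)
    {g : ℝ} (hg : 0 < g) (hg1 : g ≤ 1 / 100)
    (hVB : μ.real (V * B) ≤ (1 + g) * μ.real B)
    (hp : ∀ h, 1 / 4 < pp μ τ D.i B h) (hb' : μ.real B < 1 / 4) :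
    μ.real V ≤ 50 * g ^ 2 * μ.real B := by
  have hbpos : 0 < μ.real B := by
    have := hB.measure_pos μ hne
    exact ENNReal.toReal_pos this.ne' (measure_ne_top μ B)
  have hV0 : 0 ≤ μ.real V := measureReal_nonneg
  have hball : ∀ (e : G) (t : ℝ),
      (1 - t) * μ.real {g | dd μ D.i B g e ≤ t} ≤ μ.real (col D.i B e) := by
    intro e t
    first
      | exact ball_one μ D.ci hB hne e t
      | exact ball_one μ τ D.ci hB hne e t
  have hA : ∀ h, μ.real V ≤ g * μ.real (orb D.i V h) := by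
    intro h
    have h1 := mass_a μ τ D.ci hB hne hV hg.le hVB h (by linarith [hp h])
    have h2 : 1 * μ.real V ≤ 4 * pp μ τ D.i B h * μ.real V :=
      mul_le_mul_of_nonneg_right (by linarith [hp h]) hV0
    linarith
  have hBm : ∀ h, (μ.real (col D.i B h) - μ.real B) * μ.real V ≤
      g * μ.real B * μ.real (orb D.i V h) := by
    intro h
    first
      | exact mass_b μ D.ci hB hV hg.le hVB h
      | exact mass_b μ τ D.ci hB hV hg.le hVB h
  have hS : ∀ h, μ.real B ≤ μ.real (col D.i B h) := e09_col μ τ D hB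
  have hbdd : BddBelow (range fun h => μ.real (col D.i B h)) :=
    ⟨0, by rintro _ ⟨h, rfl⟩; exact measureReal_nonneg⟩
  have hinf : ∀ h, (⨅ h, μ.real (col D.i B h)) ≤ μ.real (col D.i B h) := fun h => ciInf_le hbdd h
  have hspos : 0 < ⨅ h, μ.real (col D.i B h) := lt_of_lt_of_le hbpos (le_ciInf hS)
  generalize hs : (⨅ h, μ.real (col D.i B h)) = s at hinf hspos
  by_cases hc : s < 1 / 2
  · -- case (a)
    have h1 : (⨅ h, μ.real (col D.i B h)) < min (101 / 100 * s) (1 / 2) := by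
      rw [hs]; exact lt_min (by linarith) hc
    obtain ⟨e', he'⟩ := exists_lt_of_ciInf_lt h1
    have he1 : μ.real (col D.i B e') < 101 / 100 * s := lt_of_lt_of_le he' (min_le_left _ _)
    have he2 : μ.real (col D.i B e') < 1 / 2 := lt_of_lt_of_le he' (min_le_right _ _)
    have hfar : ∃ h₁, 49 / 100 ≤ dd μ D.i B e' h₁ := by
      by_contra hno
      push Not at hno
      have h2 := hball e' (49 / 100)
      have h3 : {x | dd μ D.i B x e' ≤ 49 / 100} = univ := by
        apply eq_univ_of_forall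
        intro x
        show dd μ D.i B x e' ≤ 49 / 100
        rw [dd_symm]
        exact (hno x).le
      rw [h3, probReal_univ] at h2
      linarith
    obtain ⟨h₁, hh₁⟩ := hfar
    have hq : ∀ h, s / (2 * μ.real B) * μ.real V ≤ g * μ.real (orb D.i V h) := by
      intro h
      rw [div_mul_eq_mul_div, div_le_iff₀ (by positivity)]
      by_cases h2 : μ.real (col D.i B h) ≤ 2 * μ.real B
      · have h3 : s * μ.real V ≤ 2 * μ.real B * μ.real V :=
          mul_le_mul_of_nonneg_right ((hinf h).trans h2) hV0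
        have h4 : 2 * μ.real B * μ.real V ≤ 2 * μ.real B * (g * μ.real (orb D.i V h)) :=
          mul_le_mul_of_nonneg_left (hA h) (by positivity)
        linarith
      · have h3 : s / 2 * μ.real V ≤ (μ.real (col D.i B h) - μ.real B) * μ.real V :=
          mul_le_mul_of_nonneg_right (by linarith [hinf h, not_le.1 h2]) hV0
        have h4 := hBm h
        nlinarith
    have h5 := chain_sum μ D hB hne hV hg hVB (by norm_num : (0 : ℝ) < 49 / 100)
      (by positivity : 0 ≤ s / (2 * μ.real B)) hh₁ hq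
    have h6 := hball e' (49 / 100 + g)
    have h7 : 1 / 2 * μ.real {x | dd μ D.i B x e' ≤ 49 / 100 + g} ≤
        (1 - (49 / 100 + g)) * μ.real {x | dd μ D.i B x e' ≤ 49 / 100 + g} :=
      mul_le_mul_of_nonneg_right (by linarith) measureReal_nonneg
    have h8 : μ.real {x | dd μ D.i B x e' ≤ 49 / 100 + g} ≤ 202 / 100 * s := by linarith
    have h9 : 49 / 100 * (s / (2 * μ.real B)) * μ.real V ≤ g ^ 2 * (202 / 100 * s) :=
      h5.trans (mul_le_mul_of_nonneg_left h8 (by positivity))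
    have h10 : 49 / 100 * (s / (2 * μ.real B)) * μ.real V =
        s * (49 / 200 * μ.real V) / μ.real B := by
      field_simp
      ring
    rw [h10, div_le_iff₀ hbpos] at h9
    have h11 : s * (49 / 200 * μ.real V) ≤ s * (202 / 100 * g ^ 2 * μ.real B) := by linarith
    have h12 := le_of_mul_le_mul_left h11 hspos
    have h13 : 0 ≤ g ^ 2 * μ.real B := by positivity
    nlinarith
  · -- case (b)
    have hfar : ∃ g₁ h₁, 1 / 8 ≤ dd μ D.i B g₁ h₁ := by
      by_contra hno
      push Not at hno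
      have h2 := all_far μ D hB hne (1 / 8) (fun g h => (hno g h).le)
      linarith
    obtain ⟨g₁, h₁, hh₁⟩ := hfar
    have hq : ∀ h, 1 / (4 * μ.real B) * μ.real V ≤ g * μ.real (orb D.i V h) := by
      intro h
      rw [div_mul_eq_mul_div, div_le_iff₀ (by positivity), one_mul]
      have h3 : 1 / 4 * μ.real V ≤ (μ.real (col D.i B h) - μ.real B) * μ.real V :=
        mul_le_mul_of_nonneg_right (by linarith [hinf h, not_lt.1 hc]) hV0
      have h4 := hBm h
      nlinarith
    have h5 := chain_sum μ D hB hne hV hg hVB (by norm_num : (0 : ℝ) < 1 / 8)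
      (by positivity : 0 ≤ 1 / (4 * μ.real B)) hh₁ hq
    have h6 : μ.real {x | dd μ D.i B x g₁ ≤ 1 / 8 + g} ≤ 1 := measureReal_le_one
    have h7 : 1 / 8 * (1 / (4 * μ.real B)) * μ.real V ≤ g ^ 2 * 1 :=
      h5.trans (mul_le_mul_of_nonneg_left h6 (by positivity))
    have h10 : 1 / 8 * (1 / (4 * μ.real B)) * μ.real V = μ.real V / 32 / μ.real B := by
      field_simp
      ring
    rw [h10, div_le_iff₀ hbpos] at h7
    have h13 : 0 ≤ g ^ 2 * μ.real B := by positivity
    nlinarith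

end Pool.Agent.Lib.H68S
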