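import Pool.Agent.Lib.H68S.E06
import Pool.Agent.Lib.H68S.E07
import Pool.Agent.Lib.H68S.E08
import Pool.Agent.Lib.H68S.E09

open MeasureTheory Set
open scoped Pointwise

namespace Pool.Agent.Lib.H68S

variable {G : Type*} [Group G] [TopologicalSpace G] [IsTopologicalGroup G] [CompactSpace G]
  [T2Space G] [SecondCountableTopology G] [MeasurableSpace G] [BorelSpace G]
  (μ : Measure G) [μ.IsHaarMeasure] [IsProbabilityMeasure μ]
variable {T : Type*} [CommGroup T] [TopologicalSpace T] [IsTopologicalGroup T] [CompactSpace T]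
  [T2Space T] [SecondCountableTopology T] [ConnectedSpace T] [MeasurableSpace T] [BorelSpace T]
  (τ : Measure T) [τ.IsHaarMeasure] [IsProbabilityMeasure τ]
  (D : Geo G T)

include D τ

/-- The Key Lemma. Proof. `pp` is continuous (`pp_cont`) on the compact nonempty space `G`, so it
has a minimum at some `e`; the four cases `case_one`, `case_two`, `case_three_a`, `case_three_b`. -/
theorem key_lemma {B V : Set G} (hB : IsOpen B) (hne : B.Nonempty) (hV : IsOpen V)
    (hb : μ.real B ≤ 1 / 2) {g : ℝ} (hg : 0 < g) (hg1 : g ≤ 1 / 100)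
    (hVB : μ.real (V * B) ≤ (1 + g) * μ.real B) :
    μ.real V ≤ 50 * g ^ 2 * μ.real B := by
  obtain ⟨e, -, he⟩ := isCompact_univ.exists_isMinOn (univ_nonempty : (univ : Set G).Nonempty)
    (pp_cont μ τ D.ci hB hne).continuousOn
  have hmin : ∀ h, pp μ τ D.i B e ≤ pp μ τ D.i B h := fun h => he (mem_univ h)
  rcases le_or_gt (pp μ τ D.i B e) (1 / 40) with h1 | h1
  · exact case_one μ τ D hB hne hV hb hg hg1 hVB hmin h1
  rcases le_or_gt (pp μ τ D.i B e) (1 / 4) with h2 | h2
  · exact case_two μ τ D hB hne hV hb hg hg1 hVB hmin h1 h2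
  rcases le_or_gt (1 / 4) (μ.real B) with h3 | h3
  · exact case_three_a μ τ D hB hne hV hb hg hg1 hVB hmin h2 h3
  · exact case_three_b μ τ D hB hne hV hg hg1 hVB (fun h => h2.trans_le (hmin h)) h3

end Pool.Agent.Lib.H68S
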