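import Pool.Agent.Lib.H68S.Defs

open MeasureTheory Set
open scoped Pointwise

namespace Pool.Agent.Lib.H68S


/-- Pure real inequality, case (i).

Proof. `v = √v √v ≤ √v √(n/200) = √(v n/50)/2`, so `x ≥ √(v n/50)/2 = √(v n/200)`, and
`√(v n m)/240 ≤ √(v n)/240 ≤ √(v n/200)` (`240 ≥ √200`, `m ≤ 1`; e.g. `Real.sqrt_le_sqrt` and
`Real.sqrt_le_left`, or square everything with `Real.sqrt_le_iff`). -/
theorem real_one {v n m x : ℝ} (hv : 0 < v) (hn : 0 < n) (hm : 0 ≤ m) (hm1 : m ≤ 1)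
    (h1 : v ≤ n / 200) (h2 : √(v * n / 50) - v ≤ x) :
    √(v * n * m) / 240 ≤ x := by
  set s : ℝ := √(v * n / 200) with hs
  have hs0 : 0 ≤ s := Real.sqrt_nonneg _
  have hs2 : s ^ 2 = v * n / 200 := Real.sq_sqrt (by positivity)
  have e1 : √(v * n / 50) = 2 * s := by
    have e2 : v * n / 50 = (2 * s) ^ 2 := by rw [mul_pow, hs2]; ring
    rw [e2, Real.sqrt_sq (by positivity)]
  have e3 : v ≤ s := by
    rw [hs]
    refine Real.le_sqrt_of_sq_le ?_
    nlinarith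
  have e4 : √(v * n * m) ≤ 240 * s := by
    rw [Real.sqrt_le_iff]
    refine ⟨by positivity, ?_⟩
    rw [mul_pow, hs2]
    have hvn : 0 < v * n := mul_pos hv hn
    nlinarith
  rw [e1] at h2
  linarith

/-- Pure real inequality, case (ii).

Proof. If `x > 1/100`: `v n m ≤ 1/25` (the three positive numbers have sum `≤ 1`, in fact
`v n m ≤ 1/27`; `v ≤ n ≤ m` and `v n ≤ n (1 - m)..`; e.g. `v ≤ 1/3`, `n ≤ 1/2`, `m ≤ 1` give
`v n m ≤ 1/6` and `√(1/6)/240 ≤ 1/100` is enough), so `√(v n m)/240 ≤ 1/100 < x`.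
If `x ≤ 1/100`: `3 m ≥ v + n + m = 1 - x ≥ 99/100`, `m ≥ 33/100`; `2 n ≥ v + n = 1 - m - x`, so
`1 - n ≤ (101/100 + m)/2`. As `v ≤ n`, `√(v n m) ≤ n √m`. So it is enough that
`n √m/240 ≤ (n/200) m/(1 - n)`, i.e. `(5/6)(1 - n) ≤ √m`, and this follows from
`(5/12)(101/100 + m) ≤ √m` for `33/100 ≤ m ≤ 1`: with `y = √m`, `57/100 ≤ y ≤ 1`, this is
`(5/12)(101/100 + y^2) ≤ y`, a quadratic inequality in `y` (at `57/100`: `0.5562 ≤ 0.57`; at `1`:
`0.8375 ≤ 1`; convexity: `nlinarith [mul_nonneg (y - 57/100 ≥ 0) (1 - y ≥ 0)]`; for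
`57/100 ≤ √(33/100)` use `0.57^2 = 0.3249 ≤ 0.33`). -/
theorem real_two {v n m x : ℝ} (hv : 0 < v) (hvn : v ≤ n) (hnm : n ≤ m) (hn1 : n < 1)
    (hsum : v + n + m + x = 1) (hx : n / 200 * m / (1 - n) ≤ x) :
    √(v * n * m) / 240 ≤ x := by
  have hn : 0 < n := lt_of_lt_of_le hv hvn
  have hm : 0 < m := lt_of_lt_of_le hn hnm
  have h1n : 0 < 1 - n := by linarith
  have hx0 : 0 ≤ x := le_trans (by positivity) hx
  have hm1 : m ≤ 1 := by linarith
  have hvnm : v * n * m ≤ n ^ 2 * m := by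
    have : v * n ≤ n * n := mul_le_mul_of_nonneg_right hvn hn.le
    nlinarith
  set y : ℝ := √m with hy
  have hy0 : 0 ≤ y := Real.sqrt_nonneg _
  have hy2 : y ^ 2 = m := Real.sq_sqrt hm.le
  have h1 : √(v * n * m) ≤ n * y := by
    rw [Real.sqrt_le_iff]
    refine ⟨by positivity, ?_⟩
    rw [mul_pow, hy2]
    exact hvnm
  have hy1 : y ≤ 1 := by nlinarith
  rcases le_or_gt x (1 / 100) with h2 | h2
  · have hm33 : 33 / 100 ≤ m := by linarith
    have hy57 : 57 / 100 ≤ y := by nlinarith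
    have h3 : 0 ≤ (y - 57 / 100) * (1 - y) := mul_nonneg (by linarith) (by linarith)
    have h4 : 5 / 6 * (1 - n) ≤ y := by nlinarith
    refine le_trans ?_ hx
    rw [le_div_iff₀ h1n]
    have h5 : √(v * n * m) / 240 * (1 - n) ≤ n * y / 240 * (1 - n) := by
      refine mul_le_mul_of_nonneg_right ?_ h1n.le
      linarith
    refine h5.trans ?_
    rw [← hy2]
    have h6 : 0 ≤ n * y := by positivity
    have h7 : n * y * (5 / 6 * (1 - n)) ≤ n * y * y := mul_le_mul_of_nonneg_left h4 h6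
    nlinarith
  · have hn1' : n * y ≤ 1 := by nlinarith
    linarith

end Pool.Agent.Lib.H68S
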