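import Pool.Agent.Lib.H68S.A09
import Pool.Agent.Lib.H68S.E10
import Pool.Agent.Lib.H68S.F01

open MeasureTheory Set
open scoped Pointwise

namespace Pool.Agent.Lib.H68S

variable {G : Type*} [Group G] [TopologicalSpace G] [IsTopologicalGroup G] [CompactSpace G]
  [T2Space G] [SecondCountableTopology G] [ConnectedSpace G] [MeasurableSpace G] [BorelSpace G]
  (μ : Measure G) [μ.IsHaarMeasure] [IsProbabilityMeasure μ]
variable {T : Type*} [CommGroup T] [TopologicalSpace T] [IsTopologicalGroup T] [CompactSpace T]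
  [T2Space T] [SecondCountableTopology T] [ConnectedSpace T] [MeasurableSpace T] [BorelSpace T]
  (τ : Measure T) [τ.IsHaarMeasure] [IsProbabilityMeasure τ]
  (D : Geo G T)

include D τ

/-- Proof. `le_csInf` (definition of `phi`; the set is nonempty because `univ` is in it:
`n/200 ≤ 1`). Let `S` be open, `μ(S) ≥ n/200`, and suppose `μ(S N) < (101/100) n`. Let
`g = max (1/200) (μ(S N)/n - 1)`, so `0 < g < 1/100` and `μ(S N) ≤ (1 + g) n`; by `key_lemma`
`μ(S) ≤ 50 g^2 n < 50 n/10^4 = n/200`, a contradiction. -/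
theorem phi_key {N : Set G} (hN : IsOpen N) (hN0 : N.Nonempty) (hn : μ.real N ≤ 1 / 2) :
    101 / 100 * μ.real N ≤ phi μ N (μ.real N / 200) := by
  have hn0 : 0 < μ.real N := by
    rw [measureReal_def, ENNReal.toReal_pos_iff]
    exact ⟨hN.measure_pos μ hN0, measure_lt_top μ N⟩
  refine le_csInf ⟨_, univ, isOpen_univ, by rw [probReal_univ]; linarith, rfl⟩ ?_
  rintro r ⟨S, hS, hSn, rfl⟩
  by_contra hcon
  push Not at hcon
  set g : ℝ := max (1 / 200) (μ.real (S * N) / μ.real N - 1) with hg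
  have hg0 : 0 < g := lt_of_lt_of_le (by norm_num) (le_max_left _ _)
  have hg1 : g < 1 / 100 := by
    refine max_lt (by norm_num) ?_
    have h1 : μ.real (S * N) / μ.real N < 101 / 100 := by
      rw [div_lt_iff₀ hn0]; exact hcon
    linarith
  have hSN : μ.real (S * N) ≤ (1 + g) * μ.real N := by
    have h1 : μ.real (S * N) / μ.real N - 1 ≤ g := le_max_right _ _
    rw [← div_le_iff₀ hn0]
    linarith
  have h2 := key_lemma μ τ D hN hN0 hS hn hg0 hg1.le hSN
  have h3 : g ^ 2 < (1 / 100) ^ 2 := pow_lt_pow_left₀ hg1 hg0.le two_ne_zero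
  nlinarith

/-- The inequality for an ordered triple.

Proof. Write `v, n, m` for the measures (all positive), `W = μ(V N)`, `x = 1 - v - n - m`. The sets
`V * N` and `M⁻¹` (open, of measure `m`: `iinv`) are disjoint, so `W ≤ 1 - m < 1`. `V` contains a
point, so `n ≤ W ≤ 1 - m ≤ 1 - n` (or `le_phi`), `n ≤ 1/2`. By `kneser`, `W ≥ min 1 (v + n)`, so
`W ≥ v + n` and `x ≥ W - v - n ≥ 0`; also `v ≤ W - n ≤ 1 - n`.
(i) `v ≤ n/200`. Let `g = W/n - 1 ≥ v/n > 0`, `W = (1 + g) n`. If `g ≤ 1/100`: `key_lemma` gives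
`v ≤ 50 g^2 n`, so `(g n)^2 ≥ v n/50`. If `g > 1/100`: `(g n)^2 ≥ n^2/10^4 ≥ v n/50`. So
`g n ≥ √(v n/50)` and `x ≥ g n - v`: `real_one`.
(ii) `v > n/200`. Let `s₀ = n/200`. `phi_chord` with `s = v`:
`phi(s₀)(1 - n - v) + (v - s₀) ≤ phi(v)(1 - n - s₀)`, with `phi(s₀) ≥ (101/100) n` (`phi_key`) and
`phi(v) ≤ W` (`phi_le`). Since
`n (1 - n - v) + (v - s₀) = (1 - n - s₀)(n + v) - s₀ (1 - n - v)`, this gives
`(n/200)(1 - n - v) ≤ (1 - n - s₀)(W - n - v) ≤ (1 - n) x`, and `1 - n - v = m + x ≥ m`. So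
`x ≥ (n/200) m/(1 - n)`: `real_two`. -/
theorem triple_ordered {V N M : Set G} (hV : IsOpen V) (hN : IsOpen N) (hM : IsOpen M)
    (hV0 : V.Nonempty) (hN0 : N.Nonempty) (hM0 : M.Nonempty)
    (h : ∀ a ∈ V, ∀ b ∈ N, ∀ c ∈ M, a * b * c ≠ 1)
    (h1 : μ.real V ≤ μ.real N) (h2 : μ.real N ≤ μ.real M) :
    μ.real V + μ.real N + μ.real M + √(μ.real V * μ.real N * μ.real M) / 240 ≤ 1 := by
  have hv0 : 0 < μ.real V := by
    rw [measureReal_def, ENNReal.toReal_pos_iff]
    exact ⟨hV.measure_pos μ hV0, measure_lt_top μ V⟩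
  have hn0 : 0 < μ.real N := lt_of_lt_of_le hv0 h1
  have hm0 : 0 < μ.real M := lt_of_lt_of_le hn0 h2
  have hW : μ.real (V * N) + μ.real M ≤ 1 := by
    have hMi : μ.real M⁻¹ = μ.real M := by
      rw [measureReal_def, Measure.measure_inv, measureReal_def]
    have hd : Disjoint (V * N) M⁻¹ := by
      rw [Set.disjoint_left]
      rintro z ⟨a, ha, b, hb, rfl⟩ hz
      exact h a ha b hb _ (Set.mem_inv.1 hz) (mul_inv_cancel _)
    rw [← hMi, ← measureReal_union hd hM.inv.measurableSet]
    exact measureReal_le_one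
  have hk := kneser μ hV hN hV0 hN0
  have hW1 : μ.real (V * N) < 1 := by linarith
  have hvn : μ.real V + μ.real N ≤ μ.real (V * N) := by
    rcases le_or_gt 1 (μ.real V + μ.real N) with h3 | h3
    · rw [min_eq_left h3] at hk
      linarith
    · rw [min_eq_right h3.le] at hk
      exact hk
  have hn2 : μ.real N ≤ 1 / 2 := by linarith
  set v := μ.real V with hvdef
  set n := μ.real N with hndef
  set m := μ.real M with hmdef
  set W := μ.real (V * N) with hWdef
  rcases le_or_gt v (n / 200) with h3 | h3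
  · have hWg : W = (1 + (W / n - 1)) * n := by field_simp; ring
    set g := W / n - 1 with hgdef
    have hgn : g * n = W - n := by rw [hgdef]; field_simp
    have hg0 : 0 < g := by
      by_contra hcon
      push Not at hcon
      nlinarith
    have h4 : √(v * n / 50) ≤ g * n := by
      rw [Real.sqrt_le_iff]
      refine ⟨by positivity, ?_⟩
      rcases le_or_gt g (1 / 100) with h5 | h5
      · have h6 := key_lemma μ τ D hN hN0 hV hn2 hg0 h5 hWg.le
        rw [← hvdef, ← hndef] at h6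
        nlinarith
      · have h6 : (1 / 100 : ℝ) * n ≤ g * n := mul_le_mul_of_nonneg_right h5.le hn0.le
        have h7 : ((1 / 100 : ℝ) * n) ^ 2 ≤ (g * n) ^ 2 :=
          pow_le_pow_left₀ (by positivity) h6 2
        nlinarith
    have h5 := real_one (x := 1 - v - n - m) hv0 hn0 hm0.le (by linarith) h3 (by linarith)
    linarith
  · have h4 := phi_chord μ hN hN0 (s₀ := n / 200) (s := v) (by positivity) h3.le
      (by rw [← hndef]; linarith)
    have h5 := phi_key μ τ D hN hN0 hn2
    have h6 : phi μ N v ≤ W := phi_le μ hV le_rfl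
    rw [← hndef] at h4 h5
    have h7 : 101 / 100 * n * (1 - n - v) ≤ phi μ N (n / 200) * (1 - n - v) :=
      mul_le_mul_of_nonneg_right h5 (by linarith)
    have h8 : phi μ N v * (1 - n - n / 200) ≤ W * (1 - n - n / 200) :=
      mul_le_mul_of_nonneg_right h6 (by linarith)
    have h9 : n / 200 * (1 - n - v) ≤ (1 - n - n / 200) * (W - n - v) := by nlinarith
    have h10 : (1 - n - n / 200) * (W - n - v) ≤ (1 - n) * (1 - v - n - m) := by
      refine mul_le_mul (by linarith) (by linarith) (by linarith) (by linarith)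
    have h11 : n / 200 * m ≤ n / 200 * (1 - n - v) :=
      mul_le_mul_of_nonneg_left (by linarith) (by positivity)
    have h12 := real_two (x := 1 - v - n - m) hv0 h1 h2 (by linarith) (by ring) (by
      rw [div_le_iff₀ (by linarith)]
      linarith)
    linarith

end Pool.Agent.Lib.H68S
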