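import Pool.Agent.Lib.H68S.F02

open MeasureTheory Set
open scoped Pointwise

namespace Pool.Agent.Lib.H68S

variable {G : Type*} [Group G] [TopologicalSpace G] [IsTopologicalGroup G] [CompactSpace G]
  [T2Space G] [SecondCountableTopology G] [ConnectedSpace G] [MeasurableSpace G] [BorelSpace G]
  (μ : Measure G) [μ.IsHaarMeasure] [IsProbabilityMeasure μ]
variable {T : Type*} [CommGroup T] [TopologicalSpace T] [IsTopologicalGroup T] [CompactSpace T]
  [T2Space T] [SecondCountableTopology T] [ConnectedSpace T] [MeasurableSpace T] [BorelSpace T]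
  (τ : Measure T) [τ.IsHaarMeasure] [IsProbabilityMeasure τ]
  (D : Geo G T)

omit [TopologicalSpace G] [IsTopologicalGroup G] [CompactSpace G] [T2Space G]
  [SecondCountableTopology G] [ConnectedSpace G] [MeasurableSpace G] [BorelSpace G] in
theorem f03_rot {A B C : Set G} (h : ∀ a ∈ A, ∀ b ∈ B, ∀ c ∈ C, a * b * c ≠ 1) :
    ∀ a ∈ B, ∀ b ∈ C, ∀ c ∈ A, a * b * c ≠ 1 := by
  intro b hb c hc a ha he
  refine h a ha b hb c hc ?_
  calc a * b * c = a * (b * c * a) * a⁻¹ := by group
    _ = 1 := by rw [he]; group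

omit [TopologicalSpace G] [IsTopologicalGroup G] [CompactSpace G] [T2Space G]
  [SecondCountableTopology G] [ConnectedSpace G] [MeasurableSpace G] [BorelSpace G] in
theorem f03_flip {A B C : Set G} (h : ∀ a ∈ A, ∀ b ∈ B, ∀ c ∈ C, a * b * c ≠ 1) :
    ∀ a ∈ C⁻¹, ∀ b ∈ B⁻¹, ∀ c ∈ A⁻¹, a * b * c ≠ 1 := by
  intro c hc b hb a ha he
  refine h a⁻¹ (Set.mem_inv.1 ha) b⁻¹ (Set.mem_inv.1 hb) c⁻¹ (Set.mem_inv.1 hc) ?_
  calc a⁻¹ * b⁻¹ * c⁻¹ = (c * b * a)⁻¹ := by group
    _ = 1 := by rw [he, inv_one]

include D τ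

/-- The inequality for any triple.

Proof. Both sides are symmetric. The hypothesis for `(A, B, C)` implies it for `(B, C, A)`
(`b c a = 1` iff `a b c = 1`: conjugate by `a`) and for `(C⁻¹, B⁻¹, A⁻¹)` (invert), with the same
measures (`iinv`; `Measure.measure_inv`). These generate all six orders of the three measures, so
one of them is ordered as in `triple_ordered`. -/
theorem triple_any {A B C : Set G} (hA : IsOpen A) (hB : IsOpen B) (hC : IsOpen C)
    (hA0 : A.Nonempty) (hB0 : B.Nonempty) (hC0 : C.Nonempty)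
    (h : ∀ a ∈ A, ∀ b ∈ B, ∀ c ∈ C, a * b * c ≠ 1) :
    μ.real A + μ.real B + μ.real C + √(μ.real A * μ.real B * μ.real C) / 240 ≤ 1 := by
  have hi : ∀ S : Set G, μ.real S⁻¹ = μ.real S := by
    intro S
    rw [measureReal_def, Measure.measure_inv, measureReal_def]
  have e1 : μ.real A * μ.real B * μ.real C = μ.real B * μ.real C * μ.real A := by ring
  have e2 : μ.real A * μ.real B * μ.real C = μ.real C * μ.real A * μ.real B := by ring
  have e3 : μ.real A * μ.real B * μ.real C = μ.real C * μ.real B * μ.real A := by ring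
  have e4 : μ.real A * μ.real B * μ.real C = μ.real B * μ.real A * μ.real C := by ring
  have e5 : μ.real A * μ.real B * μ.real C = μ.real A * μ.real C * μ.real B := by ring
  have hf := f03_flip h
  rcases le_total (μ.real A) (μ.real B) with h1 | h1
  · rcases le_total (μ.real B) (μ.real C) with h2 | h2
    · exact triple_ordered μ τ D hA hB hC hA0 hB0 hC0 h h1 h2
    · rcases le_total (μ.real A) (μ.real C) with h3 | h3
      · have h4 := triple_ordered μ τ D hA.inv hC.inv hB.inv hA0.inv hC0.inv hB0.inv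
          (f03_rot (f03_rot hf)) (by rw [hi, hi]; exact h3) (by rw [hi, hi]; exact h2)
        rw [hi, hi, hi] at h4
        rw [e5]
        linarith
      · have h4 := triple_ordered μ τ D hC hA hB hC0 hA0 hB0 (f03_rot (f03_rot h)) h3 h1
        rw [e2]
        linarith
  · rcases le_total (μ.real A) (μ.real C) with h2 | h2
    · have h4 := triple_ordered μ τ D hB.inv hA.inv hC.inv hB0.inv hA0.inv hC0.inv
          (f03_rot hf) (by rw [hi, hi]; exact h1) (by rw [hi, hi]; exact h2)
      rw [hi, hi, hi] at h4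
      rw [e4]
      linarith
    · rcases le_total (μ.real B) (μ.real C) with h3 | h3
      · have h4 := triple_ordered μ τ D hB hC hA hB0 hC0 hA0 (f03_rot h) h3 h2
        rw [e1]
        linarith
      · have h4 := triple_ordered μ τ D hC.inv hB.inv hA.inv hC0.inv hB0.inv hA0.inv
          hf (by rw [hi, hi]; exact h3) (by rw [hi, hi]; exact h1)
        rw [hi, hi, hi] at h4
        rw [e3]
        linarith

end Pool.Agent.Lib.H68S
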