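import Pool.Agent.Lib.H68S.F03

open MeasureTheory Set
open scoped Pointwise

namespace Pool.Agent.Lib.H68S

variable {G : Type*} [Group G] [TopologicalSpace G] [IsTopologicalGroup G] [CompactSpace G]
  [T2Space G] [SecondCountableTopology G] [ConnectedSpace G] [MeasurableSpace G] [BorelSpace G]
  (μ : Measure G) [μ.IsHaarMeasure] [IsProbabilityMeasure μ]
variable {T : Type*} [CommGroup T] [TopologicalSpace T] [IsTopologicalGroup T] [CompactSpace T]
  [T2Space T] [SecondCountableTopology T] [ConnectedSpace T] [MeasurableSpace T] [BorelSpace T]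
  (τ : Measure T) [τ.IsHaarMeasure] [IsProbabilityMeasure τ]
  (D : Geo G T)

omit [SecondCountableTopology G] [ConnectedSpace G] [MeasurableSpace G] [BorelSpace G]
  [μ.IsHaarMeasure] [IsProbabilityMeasure μ] [CompactSpace G] in
/-- Thickening three compact sets.

Proof. The set `O = {(a, b, c) | a * b * c ≠ 1}` is open in `G × G × G` and contains the product of
the three compact sets. `generalized_tube_lemma` for `K` and `L ×ˢ C` gives open `A ⊇ K` and an
open `W ⊇ L ×ˢ C` with `A ×ˢ W ⊆ O`; `generalized_tube_lemma` again for `L ×ˢ C ⊆ W`. -/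
theorem thicken {K L C : Set G} (hK : IsCompact K) (hL : IsCompact L) (hC : IsCompact C)
    (h : ∀ a ∈ K, ∀ b ∈ L, ∀ c ∈ C, a * b * c ≠ 1) :
    ∃ A B W : Set G, IsOpen A ∧ IsOpen B ∧ IsOpen W ∧ K ⊆ A ∧ L ⊆ B ∧ C ⊆ W ∧
      ∀ a ∈ A, ∀ b ∈ B, ∀ c ∈ W, a * b * c ≠ 1 := by
  have hO : IsOpen {q : G × (G × G) | q.1 * q.2.1 * q.2.2 ≠ 1} := by
    refine isOpen_ne_fun ?_ continuous_const
    exact (continuous_fst.mul (continuous_fst.comp continuous_snd)).mul
      (continuous_snd.comp continuous_snd)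
  obtain ⟨A, P, hA, hP, hKA, hP1, hAP⟩ := generalized_tube_lemma hK (hL.prod hC) hO (by
    rintro ⟨a, b, c⟩ ⟨ha, hb, hc⟩
    exact h a ha b hb c hc)
  obtain ⟨B, W, hB, hW, hLB, hCW, hBW⟩ := generalized_tube_lemma hL hC hP hP1
  refine ⟨A, B, W, hA, hB, hW, hKA, hLB, hCW, ?_⟩
  intro a ha b hb c hc
  exact hAP (show (a, (b, c)) ∈ A ×ˢ P from ⟨ha, hBW ⟨hb, hc⟩⟩)

include D τ

/-- The main inequality.

Proof. Write `a, b` for the measures, `v = 1 - μ(A B) > 0`, `C = ((A * B)ᶜ)⁻¹`, a compact set of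
measure `v` (`iinv`) with `x * y * z ≠ 1` for `x ∈ A`, `y ∈ B`, `z ∈ C`. For compact nonempty
`K ⊆ A`, `L ⊆ B`, `thicken` and `triple_any` give (monotonicity of both sides in the three measures)
`μ K + μ L + v + √(μ K μ L v)/240 ≤ 1`. By inner regularity (`IsOpen.exists_lt_isCompact` or
`MeasurableSet.exists_lt_isCompact_of_ne_top`), for all `a' < a`, `b' < b` (positive) there are such
`K, L` with `μ K > a'`, `μ L > b'`, so `a' + b' + v + √(a' b' v)/240 ≤ 1`. Let `a' = (1 - 1/k) a`,
`b' = (1 - 1/k) b`, `k → ∞` (or: `t a + t b + v + t √(a b v)/240 ≤ 1` for all `0 < t < 1`, as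
`√(t a · t b · v) = t √(a b v)`, and let `t → 1`: `le_of_forall_..` / a linear function of `t`). -/
theorem main_abs {A B : Set G} (hA : IsOpen A) (hB : IsOpen B)
    (hA0 : A.Nonempty) (hB0 : B.Nonempty) (h : μ.real (A * B) < 1) :
    μ.real A + μ.real B + (1 - μ.real (A * B)) +
      √(μ.real A * μ.real B * (1 - μ.real (A * B))) / 240 ≤ 1 := by
  have hpos : ∀ S : Set G, IsOpen S → S.Nonempty → 0 < μ.real S := by
    intro S hS hS0
    rw [measureReal_def, ENNReal.toReal_pos_iff]
    exact ⟨hS.measure_pos μ hS0, measure_lt_top μ S⟩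
  have ha := hpos A hA hA0
  have hb := hpos B hB hB0
  have hAB : IsOpen (A * B) := hA.mul_right
  set v : ℝ := 1 - μ.real (A * B) with hv
  have hv0 : 0 < v := by rw [hv]; linarith
  set C : Set G := ((A * B)ᶜ)⁻¹ with hC
  have hCc : IsCompact C := hAB.isClosed_compl.isCompact.inv
  have hCv : μ.real C = v := by
    rw [hC, measureReal_def, Measure.measure_inv, ← measureReal_def,
      probReal_compl_eq_one_sub hAB.measurableSet]
  have hC0 : C.Nonempty := by
    rw [nonempty_iff_ne_empty]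
    intro h0
    rw [h0, measureReal_empty] at hCv
    linarith
  have hreg : ∀ S : Set G, IsOpen S → 0 < μ.real S → ∀ t : ℝ, 0 < t → t < 1 →
      ∃ K ⊆ S, IsCompact K ∧ t * μ.real S < μ.real K := by
    intro S hS hS0 t ht0 ht1
    have h1 : ENNReal.ofReal (t * μ.real S) < μ S := by
      rw [ENNReal.ofReal_lt_iff_lt_toReal (by positivity) (measure_ne_top μ S),
        ← measureReal_def]
      nlinarith
    obtain ⟨K, hKS, hK, hK2⟩ := hS.exists_lt_isCompact h1
    refine ⟨K, hKS, hK, ?_⟩
    rw [ENNReal.ofReal_lt_iff_lt_toReal (by positivity) (measure_ne_top μ K),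
      ← measureReal_def] at hK2
    exact hK2
  have key : ∀ t : ℝ, 0 < t → t < 1 →
      t * μ.real A + t * μ.real B + v + t * (√(μ.real A * μ.real B * v) / 240) ≤ 1 := by
    intro t ht0 ht1
    obtain ⟨K, hKA, hK, hK2⟩ := hreg A hA ha t ht0 ht1
    obtain ⟨L, hLB, hL, hL2⟩ := hreg B hB hb t ht0 ht1
    obtain ⟨A', B', W, hA', hB', hW, hKA', hLB', hCW, hne⟩ := thicken hK hL hCc (by
      intro x hx y hy z hz hxyz
      have h1 : z⁻¹ ∈ (A * B)ᶜ := Set.mem_inv.1 hz
      refine h1 ?_
      have h2 : z⁻¹ = x * y := (eq_inv_of_mul_eq_one_left hxyz).symm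
      rw [h2]
      exact mul_mem_mul (hKA hx) (hLB hy))
    have h1 : t * μ.real A ≤ μ.real A' := hK2.le.trans (measureReal_mono hKA')
    have h2 : t * μ.real B ≤ μ.real B' := hL2.le.trans (measureReal_mono hLB')
    have h3 : v ≤ μ.real W := by rw [← hCv]; exact measureReal_mono hCW
    have hta : 0 < t * μ.real A := mul_pos ht0 ha
    have htb : 0 < t * μ.real B := mul_pos ht0 hb
    have hne1 : ∀ S : Set G, 0 < μ.real S → S.Nonempty := by
      intro S hS
      rw [nonempty_iff_ne_empty]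
      intro h0
      rw [h0, measureReal_empty] at hS
      exact lt_irrefl _ hS
    have h4 := triple_any μ τ D hA' hB' hW (hne1 _ (by linarith)) (hne1 _ (by linarith))
      (hne1 _ (by linarith)) hne
    have h5 : t * √(μ.real A * μ.real B * v) ≤ √(μ.real A' * μ.real B' * μ.real W) := by
      refine Real.le_sqrt_of_sq_le ?_
      rw [mul_pow, Real.sq_sqrt (by positivity)]
      calc t ^ 2 * (μ.real A * μ.real B * v) = (t * μ.real A) * (t * μ.real B) * v := by ring
        _ ≤ μ.real A' * μ.real B' * μ.real W := by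
            refine mul_le_mul (mul_le_mul h1 h2 htb.le (by linarith)) h3 hv0.le ?_
            exact mul_nonneg (by linarith) (by linarith)
    linarith
  have hs0 : 0 ≤ √(μ.real A * μ.real B * v) := Real.sqrt_nonneg _
  by_contra hcon
  push Not at hcon
  set S : ℝ := μ.real A + μ.real B + √(μ.real A * μ.real B * v) / 240 with hS
  have hS0 : 0 < S := by rw [hS]; positivity
  have hS1 : 1 - v < S := by rw [hS]; linarith
  have hv1 : v ≤ 1 := by rw [hv]; linarith [measureReal_nonneg (μ := μ) (s := A * B)]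
  have h6 := key ((S + 1 - v) / (2 * S)) (by
      apply div_pos <;> linarith) (by
      rw [div_lt_one (by linarith)]; linarith)
  have h7 : (S + 1 - v) / (2 * S) * S = (S + 1 - v) / 2 := by field_simp
  have h8 : (S + 1 - v) / (2 * S) * μ.real A + (S + 1 - v) / (2 * S) * μ.real B + v +
      (S + 1 - v) / (2 * S) * (√(μ.real A * μ.real B * v) / 240) =
      (S + 1 - v) / (2 * S) * S + v := by rw [hS]; ring
  rw [h8, h7] at h6
  linarith

end Pool.Agent.Lib.H68S
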