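import Pool.Agent.Lib.H68S.F04
import Pool.Agent.Lib.H68S.B06

open MeasureTheory Set
open scoped Pointwise

namespace Pool.Agent.Lib.H68S


/-- The circle has a Haar probability measure. -/
theorem circle_data : ∃ (m : MeasurableSpace Circle) (_ : BorelSpace Circle) (τ : Measure Circle),
    τ.IsHaarMeasure ∧ IsProbabilityMeasure τ := by
  letI : MeasurableSpace Circle := borel Circle
  haveI : BorelSpace Circle := ⟨rfl⟩
  refine ⟨inferInstance, inferInstance, Measure.haarMeasure ⊤, inferInstance, ⟨?_⟩⟩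
  have := Measure.haarMeasure_self (K₀ := (⊤ : TopologicalSpace.PositiveCompacts Circle))
  simpa using this

/-- **The main theorem.** For open nonempty sets `A, B` of rotations whose product set does not have
full measure, `a + b + v + √(a b v)/240 ≤ 1`, where `v = 1 - μ(AB)`. -/
theorem main_so3 [MeasurableSpace SO3] [BorelSpace SO3] (μ : Measure SO3)
    (hμ : μ.IsHaarMeasure) (hp : IsProbabilityMeasure μ) {A B : Set SO3}
    (hA : IsOpen A) (hB : IsOpen B) (hA0 : A.Nonempty) (hB0 : B.Nonempty)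
    (h : μ.real (A * B) < 1) :
    μ.real A + μ.real B + (1 - μ.real (A * B)) +
      √(μ.real A * μ.real B * (1 - μ.real (A * B))) / 240 ≤ 1 := by
  obtain ⟨m, b, τ, h1, h2⟩ := circle_data
  exact main_abs μ τ geo3 hA hB hA0 hB0 h

/-- Pure real consequence. Proof. If `√v ≥ 1 - 2a` then `a (1 - 2a)/240 ≤ a √v/240`, where
`√(a a v) = a √v`. Otherwise `v < (1 - 2a)^2` and
`1 - v - 2a ≥ (1 - 2a) - (1 - 2a)^2 = 2a(1 - 2a) ≥ a(1 - 2a)/240`. -/
theorem real_three {a v : ℝ} (ha : 0 < a) (ha2 : a ≤ 1 / 2) (hv : 0 ≤ v)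
    (h : a + a + v + √(a * a * v) / 240 ≤ 1) : 2 * a + a * (1 - 2 * a) / 240 ≤ 1 - v := by
  have e : √(a * a * v) = a * √v := by
    rw [Real.sqrt_mul (mul_self_nonneg a), Real.sqrt_mul_self ha.le]
  rw [e] at h
  have hs := Real.sqrt_nonneg v
  have hs2 := Real.sq_sqrt hv
  obtain ⟨s, hs'⟩ : ∃ s, s = √v := ⟨_, rfl⟩
  rw [← hs'] at h hs hs2
  rcases le_total (1 - 2 * a) s with h1 | h1
  · have h2 := mul_le_mul_of_nonneg_left h1 ha.le
    linarith
  · have h2 : s ^ 2 ≤ (1 - 2 * a) ^ 2 := pow_le_pow_left₀ hs h1 2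
    have h3 : 0 ≤ a * (1 - 2 * a) := mul_nonneg ha.le (by linarith)
    nlinarith

/-- Pure real consequence. Proof. `a √v/240 ≤ 1 - 2a - v ≤ 1 - 2a`; square. -/
theorem real_four {a v : ℝ} (ha : 0 < a) (hv : 0 ≤ v)
    (h : a + a + v + √(a * a * v) / 240 ≤ 1) : a ^ 2 * v ≤ 240 ^ 2 * (1 - 2 * a) ^ 2 := by
  have e : √(a * a * v) = a * √v := by
    rw [Real.sqrt_mul (mul_self_nonneg a), Real.sqrt_mul_self ha.le]
  rw [e] at h
  have hs := Real.sqrt_nonneg v
  have hs2 := Real.sq_sqrt hv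
  obtain ⟨s, hs'⟩ : ∃ s, s = √v := ⟨_, rfl⟩
  rw [← hs'] at h hs hs2
  have h1 : a * s ≤ 240 * (1 - 2 * a) := by linarith
  have h2 := pow_le_pow_left₀ (mul_nonneg ha.le hs) h1 2
  rw [← hs2]
  calc a ^ 2 * s ^ 2 = (a * s) ^ 2 := by ring
    _ ≤ (240 * (1 - 2 * a)) ^ 2 := h2
    _ = 240 ^ 2 * (1 - 2 * a) ^ 2 := by ring

end Pool.Agent.Lib.H68S
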